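import Pool.Agent.H.MP_31a675_nt.Top

/-!
# The arithmetic degrees of all points
-/

namespace Pool.Agent.H.MP_31a675_nt

open MvPolynomial Filter Topology Height

/-- The height gap without conditions on the constants. -/
theorem gap_all {K : Type*} [Field K] [NumberField K] {N : ℕ} (hN : 2 ≤ N)
    (φ : Fin N → MvPolynomial (Fin N) K) (x : Fin N → K) (hx : DenseOrbit φ x) (C γ : ℝ)
    (hγN : γ < 1 - 1 / N) :
    ∃ᶠ n : ℕ in atTop, C * (n : ℝ) ^ γ < ht (orb φ x n) := by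
  have hN2 : (2 : ℝ) ≤ N := by exact_mod_cast hN
  have h0 : (0 : ℝ) < 1 - 1 / N := by
    have h1 : (1 : ℝ) / N ≤ 1 / 2 := one_div_le_one_div_of_le (by norm_num) hN2
    linarith
  have h := gap hN φ x hx (max C 0) (max γ 0) (le_max_right _ _) (le_max_right _ _)
    (max_lt hγN h0)
  refine (h.and_eventually (eventually_ge_atTop 1)).mono ?_
  rintro n ⟨h1, h2⟩
  have hn : (1 : ℝ) ≤ n := by exact_mod_cast h2
  refine lt_of_le_of_lt ?_ h1
  have h3 : (n : ℝ) ^ γ ≤ (n : ℝ) ^ (max γ 0) :=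
    Real.rpow_le_rpow_of_exponent_le hn (le_max_left _ _)
  have h4 : 0 ≤ (n : ℝ) ^ γ := Real.rpow_nonneg (by linarith) _
  calc C * (n : ℝ) ^ γ ≤ max C 0 * (n : ℝ) ^ γ := mul_le_mul_of_nonneg_right (le_max_left _ _) h4
    _ ≤ max C 0 * (n : ℝ) ^ (max γ 0) := mul_le_mul_of_nonneg_left h3 (le_max_right _ _)

variable {K : Type*} [Field K] [NumberField K] {k : ℕ}

/-- For every point the heights grow like `d ^ n` or are at most logarithmic. -/
theorem two_cases (F : Fin k → MvPolynomial (Fin (k + 1)) K) (d : ℕ) (hd : 2 ≤ d)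
    (hF : Polar F d ∨ Regular F d) (x : Fin (k + 1) → K) :
    (∃ δ > 0, ∃ n₁ : ℕ, ∀ n, n₁ ≤ n → δ * (d : ℝ) ^ n ≤ ht (yo F x n)) ∨
      ∃ (B : ℝ) (n₁ : ℕ), 0 ≤ B ∧ ∀ n, n₁ ≤ n → ht (yo F x n) ≤ B * Real.log ((n : ℝ) + 2) := by
  rcases hF with hF | hF
  · obtain ⟨C, n₀, hC, h⟩ := polar_lower F d hd hF x
    exact seq_one d hd (fun n => ht (yo F x n)) C hC n₀ h
  · obtain ⟨e, C, n₀, he, hC, h⟩ := regular_lower F d hd hF x
    exact seq_two d e hd he (fun n => ht (yo F x n)) (fun n => ht_nonneg _) C hC n₀ h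

/-- The logarithmic bound for all `n`, for the whole vector. -/
theorem log_all (F : Fin k → MvPolynomial (Fin (k + 1)) K) (x : Fin (k + 1) → K)
    (h : ∃ (B : ℝ) (n₁ : ℕ), 0 ≤ B ∧ ∀ n, n₁ ≤ n → ht (yo F x n) ≤ B * Real.log ((n : ℝ) + 2)) :
    ∃ B : ℝ, ∀ n : ℕ, ht (orb (skew F) x n) ≤ B * Real.log ((n : ℝ) + 2) := by
  obtain ⟨B, n₁, hB, h⟩ := h
  obtain ⟨C, hC, h1⟩ := Alpha_split F x
  obtain ⟨S, hS⟩ : ∃ S, S = ∑ m ∈ Finset.range n₁, ht (orb (skew F) x m) := ⟨_, rfl⟩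
  have hS0 : 0 ≤ S := by
    rw [hS]
    exact Finset.sum_nonneg fun m _ => ht_nonneg _
  have hl2 : 0 < Real.log 2 := Real.log_pos (by norm_num)
  refine ⟨C + B + S / Real.log 2, fun n => ?_⟩
  have hlog : Real.log 2 ≤ Real.log ((n : ℝ) + 2) := by
    apply Real.log_le_log (by norm_num)
    have : (0 : ℝ) ≤ n := n.cast_nonneg
    linarith
  have hlog0 : 0 ≤ Real.log ((n : ℝ) + 2) := hl2.le.trans hlog
  have hS2 : 0 ≤ S / Real.log 2 := by positivity
  have hS3 : S ≤ S / Real.log 2 * Real.log ((n : ℝ) + 2) := by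
    calc S = S / Real.log 2 * Real.log 2 := by field_simp
      _ ≤ S / Real.log 2 * Real.log ((n : ℝ) + 2) := mul_le_mul_of_nonneg_left hlog hS2
  have e : (C + B + S / Real.log 2) * Real.log ((n : ℝ) + 2) = C * Real.log ((n : ℝ) + 2) +
      B * Real.log ((n : ℝ) + 2) + S / Real.log 2 * Real.log ((n : ℝ) + 2) := by ring
  have hC2 : 0 ≤ C * Real.log ((n : ℝ) + 2) := mul_nonneg hC hlog0
  have hB2 : 0 ≤ B * Real.log ((n : ℝ) + 2) := mul_nonneg hB hlog0
  rcases le_or_gt n₁ n with hn | hn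
  · have h2 := h1 n
    have h3 := h n hn
    linarith
  · have h2 : ht (orb (skew F) x n) ≤ S := by
      rw [hS]
      exact Finset.single_le_sum (f := fun m => ht (orb (skew F) x m)) (fun m _ => ht_nonneg _)
        (Finset.mem_range.2 hn)
    linarith

/-- **All points**: the arithmetic degree is `d`, or the heights are at most logarithmic and the
orbit is not Zariski dense. -/
theorem all_points (F : Fin k → MvPolynomial (Fin (k + 1)) K) (d : ℕ) (hd : 2 ≤ d) (hk : 1 ≤ k)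
    (hF : Polar F d ∨ Regular F d) (x : Fin (k + 1) → K) :
    Tendsto (fun n : ℕ => (max (ht (orb (skew F) x n)) 1) ^ ((1 : ℝ) / n)) atTop (𝓝 (d : ℝ)) ∨
      ((∃ B : ℝ, ∀ n : ℕ, ht (orb (skew F) x n) ≤ B * Real.log ((n : ℝ) + 2)) ∧
        ¬ DenseOrbit (skew F) x) := by
  rcases two_cases F d hd hF x with h1 | h1
  · left
    have hle : ∀ i, YLe d (F i) := by
      rcases hF with hF | hF
      · exact hF.le
      · exact hF.le
    obtain ⟨δ, hδ, n₁, h1⟩ := h1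
    obtain ⟨B, -, h2⟩ := ht_le F d hd hle x
    refine root_lim d hd (fun n => ht (orb (skew F) x n)) δ B hδ n₁ (fun n hn => ?_) h2
    refine (h1 n hn).trans ?_
    show ht (yo F x n) ≤ ht (orb (skew F) x n)
    rw [orb_eq]
    exact ht_tail _ _
  · exact Or.inr ⟨log_all F x h1, fun hx => not_log F hk x hx h1⟩

end Pool.Agent.H.MP_31a675_nt
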