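import Pool.Agent.H.MP_31a675_nt.Upper

/-!
# The height inequality in the regular case
-/

namespace Pool.Agent.H.MP_31a675_nt

open MvPolynomial NumberField Height

variable {K : Type*} [Field K] {k : ℕ}

private theorem Reg_eval_poly (c : Polynomial K) (x : Fin (k + 1) → K) :
    eval x (Polynomial.aeval (X 0 : MvPolynomial (Fin (k + 1)) K) c) = c.eval (x 0) := by
  rw [Polynomial.aeval_def, Polynomial.hom_eval₂, eval_X]
  have h : (eval x).comp (algebraMap K (MvPolynomial (Fin (k + 1)) K)) = RingHom.id K := by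
    ext a
    simp
  rw [h]
  rfl

/-- The backward equation: `G (t_(n+1), y_(n+1)) = c (t_n) y_n`. -/
theorem back (F G : Fin k → MvPolynomial (Fin (k + 1)) K) (c : Polynomial K)
    (h : ∀ i : Fin k, aeval (skew F) (G i) = Polynomial.aeval (X 0) c * X i.succ)
    (x : Fin (k + 1) → K) (n : ℕ) (i : Fin k) :
    eval (Fin.cons (x 0 + (n + 1 : ℕ)) (yo F x (n + 1))) (G i) =
      c.eval (x 0 + n) * yo F x n i := by
  rw [← orb_eq]
  have h1 : orb (skew F) x (n + 1) = ev (skew F) (orb (skew F) x n) :=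
    Function.iterate_succ_apply' _ _ _
  rw [h1, ← eval_aeval, h i, map_mul, Reg_eval_poly, eval_X, orb_zero]
  rfl

/-- The inequality between real numbers at one place. Here `Y = Y_n`, `U = Y_(n+1)`,
`V = Y_(n-1)`. The hypotheses `h1`, `h2` are `y_n = F (y_(n-1))` and `y_n = G (y_(n+1)) / c`. -/
theorem real_reg (d e : ℕ) (hd : 1 ≤ d) (he : 1 ≤ e) (W Y U V : ℝ) (hW : 1 ≤ W) (hY : 1 ≤ Y)
    (hU : 1 ≤ U) (hV : 1 ≤ V) (h : Y ≤ W ∨ Y ^ d ≤ W * U ∨ Y ^ e ≤ W * V)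
    (h1 : Y ≤ W * V ^ d) (h2 : Y ≤ W * U ^ e) :
    Y ^ (d * e + 1) ≤ W ^ (d * e + 1 + d + e) * (U ^ e * V ^ d) := by
  have hY0 : 0 ≤ Y := zero_le_one.trans hY
  have hW0 : 0 ≤ W := zero_le_one.trans hW
  have hU0 : 0 ≤ U := zero_le_one.trans hU
  have hV0 : 0 ≤ V := zero_le_one.trans hV
  have hUe : 1 ≤ U ^ e := one_le_pow₀ hU
  have hVd : 1 ≤ V ^ d := one_le_pow₀ hV
  have hUV : 1 ≤ U ^ e * V ^ d := one_le_mul_of_one_le_of_one_le hUe hVd
  have hUV0 : 0 ≤ U ^ e * V ^ d := zero_le_one.trans hUV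
  rcases h with h | h | h
  · calc Y ^ (d * e + 1) ≤ W ^ (d * e + 1) := pow_le_pow_left₀ hY0 h _
      _ ≤ W ^ (d * e + 1 + d + e) := pow_le_pow_right₀ hW (by omega)
      _ = W ^ (d * e + 1 + d + e) * 1 := (mul_one _).symm
      _ ≤ W ^ (d * e + 1 + d + e) * (U ^ e * V ^ d) :=
          mul_le_mul_of_nonneg_left hUV (pow_nonneg hW0 _)
  · calc Y ^ (d * e + 1) = (Y ^ d) ^ e * Y := by rw [pow_succ, pow_mul]
      _ ≤ (W * U) ^ e * (W * V ^ d) :=
          mul_le_mul (pow_le_pow_left₀ (pow_nonneg hY0 _) h _) h1 hY0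
            (pow_nonneg (mul_nonneg hW0 hU0) _)
      _ = W ^ (e + 1) * (U ^ e * V ^ d) := by ring
      _ ≤ W ^ (d * e + 1 + d + e) * (U ^ e * V ^ d) :=
          mul_le_mul_of_nonneg_right (pow_le_pow_right₀ hW (by omega)) hUV0
  · calc Y ^ (d * e + 1) = (Y ^ e) ^ d * Y := by rw [pow_succ, mul_comm d e, pow_mul]
      _ ≤ (W * V) ^ d * (W * U ^ e) :=
          mul_le_mul (pow_le_pow_left₀ (pow_nonneg hY0 _) h _) h2 hY0
            (pow_nonneg (mul_nonneg hW0 hV0) _)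
      _ = W ^ (d + 1) * (U ^ e * V ^ d) := by ring
      _ ≤ W ^ (d * e + 1 + d + e) * (U ^ e * V ^ d) :=
          mul_le_mul_of_nonneg_right (pow_le_pow_right₀ hW (by omega)) hUV0

private theorem Reg_adm {κ κ₁ κ' : ℝ} {v : AbsoluteValue K ℝ} (h : κ₁ ≤ κ) (ha : Adm κ v κ') :
    Adm κ₁ v κ' :=
  ⟨ha.1, ha.2.imp (fun h1 => h.trans h1) id⟩

/-- a vector whose norm is at least the product of the norms of two vectors -/
private theorem Reg_tensor {m n : ℕ} (x : Fin m → K) (z : Fin n → K) :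
    ∃ (r : ℕ) (w : Fin r → K), ∀ v : AbsoluteValue K ℝ, nrm v x * nrm v z ≤ nrm v w := by
  refine ⟨(m + 1) * (n + 1), fun i => (Fin.cons 1 x : Fin (m + 1) → K) (finProdFinEquiv.symm i).1 *
    (Fin.cons 1 z : Fin (n + 1) → K) (finProdFinEquiv.symm i).2, fun v => ?_⟩
  obtain ⟨i, hi⟩ := exists_eq_ciSup_of_finite
    (f := fun i => v ((Fin.cons 1 x : Fin (m + 1) → K) i))
  obtain ⟨j, hj⟩ := exists_eq_ciSup_of_finite
    (f := fun j => v ((Fin.cons 1 z : Fin (n + 1) → K) j))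
  have hi' : nrm v x = v ((Fin.cons 1 x : Fin (m + 1) → K) i) := hi.symm
  have hj' : nrm v z = v ((Fin.cons 1 z : Fin (n + 1) → K) j) := hj.symm
  rw [hi', hj', ← map_mul]
  have h := le_nrm v (fun i => (Fin.cons 1 x : Fin (m + 1) → K) (finProdFinEquiv.symm i).1 *
    (Fin.cons 1 z : Fin (n + 1) → K) (finProdFinEquiv.symm i).2) (finProdFinEquiv (i, j))
  simp only [Equiv.symm_apply_apply] at h
  exact h

private theorem Reg_yle_C (a : K) : YLe 0 (C a : MvPolynomial (Fin (k + 1)) K) := by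
  classical
  intro m hm
  have h : m = 0 := by
    by_contra h
    rw [mem_support_iff, coeff_C, if_neg (fun h' => h h'.symm)] at hm
    exact hm rfl
  subst h
  simp [yd]

private theorem Reg_yle_X : YLe 0 (X 0 : MvPolynomial (Fin (k + 1)) K) := by
  classical
  intro m hm
  have h : Finsupp.single 0 1 = m := by
    by_contra h
    rw [mem_support_iff, coeff_X, if_neg h] at hm
    exact hm rfl
  subst h
  have : ∀ j : Fin k, (Finsupp.single (0 : Fin (k + 1)) 1 : Fin (k + 1) →₀ ℕ) j.succ = 0 := by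
    intro j
    rw [Finsupp.single_apply, if_neg (Fin.succ_ne_zero j).symm]
  simp [yd, this]

private theorem Reg_yle_pow (n : ℕ) : YLe 0 (X 0 ^ n : MvPolynomial (Fin (k + 1)) K) := by
  induction n with
  | zero =>
    rw [pow_zero, ← C_1]
    exact Reg_yle_C 1
  | succ n ih =>
    rw [pow_succ]
    exact yle_mul (d := 0) (e := 0) ih Reg_yle_X

private theorem Reg_yle_poly (c : Polynomial K) :
    YLe 0 (Polynomial.aeval (X 0 : MvPolynomial (Fin (k + 1)) K) c) := by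
  induction c using Polynomial.induction_on' with
  | add p q hp hq =>
    rw [map_add]
    exact yle_add hp hq
  | monomial n a =>
    rw [Polynomial.aeval_monomial]
    exact yle_mul (d := 0) (e := 0) (Reg_yle_C a) (Reg_yle_pow n)

/-- the value of a polynomial in one variable at one place -/
private theorem Reg_poly_bound (c : Polynomial K) :
    ∃ (r : ℕ) (a : Fin r → K) (κ : ℝ) (E : ℕ), 1 ≤ κ ∧
      ∀ (v : AbsoluteValue K ℝ) (κ' : ℝ), Adm κ v κ' → ∀ t : K,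
        v (c.eval t) ≤ κ' * (nrm v a * nrm v (one t) ^ E) := by
  obtain ⟨r, a, κ, E, hκ, h⟩ := poly_bound (k := 0) (Polynomial.aeval (X 0) c) 0 (Reg_yle_poly c)
  refine ⟨r, a, κ, E, hκ, fun v κ' hv t => ?_⟩
  have h1 := h v κ' hv t (fun i => i.elim0)
  rw [Reg_eval_poly, Fin.cons_zero, pow_zero, mul_one] at h1
  exact h1

private theorem Reg_mono {κ' α A T p u q u' : ℝ} {i s j E : ℕ} (hκ : 1 ≤ κ') (hA : α ≤ A)
    (hα : 0 ≤ α) (hT : 1 ≤ T) (hi : i ≤ s) (hj : j ≤ E) (hp : 0 ≤ p) (hpu : p ≤ u) (hq : 0 ≤ q)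
    (hqu : q ≤ u') :
    κ' ^ i * (α * T ^ j * p * q) ≤ κ' ^ s * (A * T ^ E * u * u') := by
  have h1 : κ' ^ i ≤ κ' ^ s := pow_le_pow_right₀ hκ hi
  have h2 : T ^ j ≤ T ^ E := pow_le_pow_right₀ hT hj
  have hT0 : 0 ≤ T := zero_le_one.trans hT
  have hκ0 : 0 ≤ κ' := zero_le_one.trans hκ
  have hu : 0 ≤ u := hp.trans hpu
  have hA0 : 0 ≤ A := hα.trans hA
  have h3 : α * T ^ j ≤ A * T ^ E := mul_le_mul hA h2 (pow_nonneg hT0 _) hA0
  have h4 : α * T ^ j * p ≤ A * T ^ E * u :=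
    mul_le_mul h3 hpu hp (mul_nonneg hA0 (pow_nonneg hT0 _))
  have h5 : α * T ^ j * p * q ≤ A * T ^ E * u * u' :=
    mul_le_mul h4 hqu hq (mul_nonneg (mul_nonneg hA0 (pow_nonneg hT0 _)) hu)
  exact mul_le_mul h1 h5 (mul_nonneg (mul_nonneg (mul_nonneg hα (pow_nonneg hT0 _)) hp) hq)
    (pow_nonneg hκ0 _)

/-- **The local inequality in the regular case**: with a constant `W` of the form
`κ' ^ s |a| |t_n|^E |u| |u'|`, `u = c (t_n)⁻¹`, `u' = c' (t_n)⁻¹` (`c` from the inverse, `c'` from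
`loc_dich`). Use `loc_dich` for the family `Sum.elim F G`, whose members at `(t_n, y_n)` are
`y_(n+1)` and `c (t_(n-1)) y_(n-1)`, `poly_bound_family` for `F`, `G` and `c`, `nrm_add_one`, and
`real_reg`. All points are `n ≥ 1`. -/
theorem local_reg (F : Fin k → MvPolynomial (Fin (k + 1)) K) (d : ℕ) (hd : 2 ≤ d)
    (hF : Regular F d) (x : Fin (k + 1) → K) [CharZero K] :
    ∃ (e r s : ℕ) (a : Fin r → K) (κ : ℝ) (E n₀ : ℕ) (c c' : Polynomial K), 2 ≤ e ∧ 1 ≤ κ ∧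
      ∀ n : ℕ, n₀ ≤ n → ∀ (v : AbsoluteValue K ℝ) (κ' : ℝ), Adm κ v κ' →
        nrm v (yo F x (n + 1)) ^ (d * e + 1) ≤ κ' ^ s *
          ((nrm v a * nrm v (one (x 0 + n)) ^ E * nrm v (one (c.eval (x 0 + n + 1))⁻¹) *
            nrm v (one (c'.eval (x 0 + n + 1))⁻¹)) ^ (d * e + 1 + d + e) *
              (nrm v (yo F x (n + 2)) ^ e * nrm v (yo F x n) ^ d)) := by
  obtain ⟨e, G, c, he, hG, hc, hinv, hnz⟩ := hF.inv
  -- the dichotomy
  have hnz' : NoZero fun i : Fin k ⊕ Fin k => lead ((Sum.elim (fun _ => d) (fun _ => e) :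
      Fin k ⊕ Fin k → ℕ) i) ((Sum.elim F G : Fin k ⊕ Fin k → MvPolynomial (Fin (k + 1)) K) i) := by
    intro η h
    refine hnz η fun i => ?_
    have h1 := h i
    cases i with
    | inl i => exact h1
    | inr i => exact h1
  obtain ⟨c', r₁, a₁, κ₁, E₁, hc', hκ₁, hD⟩ := loc_dich
    (Sum.elim F G : Fin k ⊕ Fin k → MvPolynomial (Fin (k + 1)) K)
    (Sum.elim (fun _ => d) (fun _ => e))
    (by rintro (i | i) <;> simp only [Sum.elim_inl, Sum.elim_inr] <;> omega)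
    (by
      rintro (i | i)
      · exact hF.le i
      · exact hG i) hnz'
  obtain ⟨r₂, a₂, κ₂, E₂, hκ₂, hFb⟩ := poly_bound_family F (fun _ => d) hF.le
  obtain ⟨r₃, a₃, κ₃, E₃, hκ₃, hGb⟩ := poly_bound_family G (fun _ => e) hG
  obtain ⟨r₄, a₄, κ₄, E₄, hκ₄, hCb⟩ := Reg_poly_bound c
  obtain ⟨r₅, a₅, ha₅⟩ := Reg_tensor a₁ a₂
  obtain ⟨r₆, a₆, ha₆⟩ := Reg_tensor a₃ a₄
  obtain ⟨r, a, ha⟩ := Reg_tensor a₅ a₆
  obtain ⟨n₁, hn₁⟩ := eventually_ne c hc (x 0)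
  obtain ⟨n₂, hn₂⟩ := eventually_ne c' hc' (x 0)
  refine ⟨e, r, (3 + E₁ + 2 * E₃) * (d * e + 1 + d + e), a, κ₁ + κ₂ + κ₃ + κ₄ + 2,
    E₁ + E₂ + E₃ + E₄, max n₁ n₂, c, c', he, by linarith, fun n hn v κ' hv => ?_⟩
  have hκ' : 1 ≤ κ' := hv.1
  have hκ0 : 0 ≤ κ' := zero_le_one.trans hκ'
  have v₁ : Adm κ₁ v κ' := Reg_adm (by linarith) hv
  have v₂ : Adm κ₂ v κ' := Reg_adm (by linarith) hv
  have v₃ : Adm κ₃ v κ' := Reg_adm (by linarith) hv
  have v₄ : Adm κ₄ v κ' := Reg_adm (by linarith) hv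
  have v2 : Adm 2 v κ' := Reg_adm (by linarith) hv
  have hcn : c.eval (x 0 + n + 1) ≠ 0 := by
    have h := hn₁ (n + 1) (by have := le_max_left n₁ n₂; omega)
    push_cast at h
    rwa [← add_assoc] at h
  have hcn' : c'.eval (x 0 + n + 1) ≠ 0 := by
    have h := hn₂ (n + 1) (by have := le_max_right n₁ n₂; omega)
    push_cast at h
    rwa [← add_assoc] at h
  -- norms
  have b₁ := one_le_nrm v a₁
  have b₂ := one_le_nrm v a₂
  have b₃ := one_le_nrm v a₃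
  have b₄ := one_le_nrm v a₄
  have hA : nrm v a₁ * nrm v a₂ * (nrm v a₃ * nrm v a₄) ≤ nrm v a :=
    (mul_le_mul (ha₅ v) (ha₆ v) (by positivity) (zero_le_one.trans (one_le_nrm v _))).trans (ha v)
  set T : ℝ := nrm v (one (x 0 + n)) with hT
  set u : ℝ := nrm v (one (c.eval (x 0 + n + 1))⁻¹) with hu
  set u' : ℝ := nrm v (one (c'.eval (x 0 + n + 1))⁻¹) with hu'
  set Y : ℝ := nrm v (yo F x (n + 1)) with hYd
  set U : ℝ := nrm v (yo F x (n + 2)) with hUd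
  set V : ℝ := nrm v (yo F x n) with hVd
  have T1 : 1 ≤ T := one_le_nrm v _
  have u1 : 1 ≤ u := one_le_nrm v _
  have u1' : 1 ≤ u' := one_le_nrm v _
  have Y1 : 1 ≤ Y := one_le_nrm v _
  have U1 : 1 ≤ U := one_le_nrm v _
  have V1 : 1 ≤ V := one_le_nrm v _
  have T0 : 0 ≤ T := zero_le_one.trans T1
  have U0 : 0 ≤ U := zero_le_one.trans U1
  have V0 : 0 ≤ V := zero_le_one.trans V1
  have hT1 : nrm v (one (x 0 + n + 1)) ≤ κ' * T := nrm_add_one v v2 _
  have hT2 : nrm v (one (x 0 + n + 1 + 1)) ≤ κ' ^ 2 * T := by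
    calc nrm v (one (x 0 + n + 1 + 1)) ≤ κ' * nrm v (one (x 0 + n + 1)) := nrm_add_one v v2 _
      _ ≤ κ' * (κ' * T) := mul_le_mul_of_nonneg_left hT1 hκ0
      _ = κ' ^ 2 * T := by ring
  have hA1 : nrm v a₁ ≤ nrm v a := by
    refine le_trans ?_ hA
    have h1 : 1 ≤ nrm v a₂ * (nrm v a₃ * nrm v a₄) :=
      one_le_mul_of_one_le_of_one_le b₂ (one_le_mul_of_one_le_of_one_le b₃ b₄)
    calc nrm v a₁ = nrm v a₁ * 1 := (mul_one _).symm
      _ ≤ nrm v a₁ * (nrm v a₂ * (nrm v a₃ * nrm v a₄)) :=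
          mul_le_mul_of_nonneg_left h1 (zero_le_one.trans b₁)
      _ = _ := by ring
  have hA2 : nrm v a₂ ≤ nrm v a := by
    refine le_trans ?_ hA
    have h1 : 1 ≤ nrm v a₁ * (nrm v a₃ * nrm v a₄) :=
      one_le_mul_of_one_le_of_one_le b₁ (one_le_mul_of_one_le_of_one_le b₃ b₄)
    calc nrm v a₂ = nrm v a₂ * 1 := (mul_one _).symm
      _ ≤ nrm v a₂ * (nrm v a₁ * (nrm v a₃ * nrm v a₄)) :=
          mul_le_mul_of_nonneg_left h1 (zero_le_one.trans b₂)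
      _ = _ := by ring
  have hA3 : nrm v a₃ ≤ nrm v a := by
    refine le_trans ?_ hA
    have h1 : 1 ≤ nrm v a₁ * nrm v a₂ * nrm v a₄ :=
      one_le_mul_of_one_le_of_one_le (one_le_mul_of_one_le_of_one_le b₁ b₂) b₄
    calc nrm v a₃ = nrm v a₃ * 1 := (mul_one _).symm
      _ ≤ nrm v a₃ * (nrm v a₁ * nrm v a₂ * nrm v a₄) :=
          mul_le_mul_of_nonneg_left h1 (zero_le_one.trans b₃)
      _ = _ := by ring
  have hA14 : nrm v a₁ * nrm v a₄ ≤ nrm v a := by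
    refine le_trans ?_ hA
    have h1 : 1 ≤ nrm v a₂ * nrm v a₃ := one_le_mul_of_one_le_of_one_le b₂ b₃
    calc nrm v a₁ * nrm v a₄ = nrm v a₁ * nrm v a₄ * 1 := (mul_one _).symm
      _ ≤ nrm v a₁ * nrm v a₄ * (nrm v a₂ * nrm v a₃) :=
          mul_le_mul_of_nonneg_left h1 (mul_nonneg (zero_le_one.trans b₁) (zero_le_one.trans b₄))
      _ = _ := by ring
  set W : ℝ := κ' ^ (3 + E₁ + 2 * E₃) *
    (nrm v a * T ^ (E₁ + E₂ + E₃ + E₄) * u * u') with hW
  have A1 : 1 ≤ nrm v a := one_le_nrm v a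
  have W1 : 1 ≤ W := one_le_mul_of_one_le_of_one_le (one_le_pow₀ hκ')
    (one_le_mul_of_one_le_of_one_le (one_le_mul_of_one_le_of_one_le
      (one_le_mul_of_one_le_of_one_le A1 (one_le_pow₀ T1)) u1) u1')
  have W0 : 0 ≤ W := zero_le_one.trans W1
  -- forward
  have h1 : Y ≤ W * V ^ d := by
    refine nrm_le v _ _ (one_le_mul_of_one_le_of_one_le W1 (one_le_pow₀ V1)) fun i => ?_
    rw [yo_succ]
    refine (hFb v κ' v₂ i (x 0 + n) (yo F x n)).trans ?_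
    have h2 := Reg_mono (i := 1) (s := 3 + E₁ + 2 * E₃) (j := E₂) (E := E₁ + E₂ + E₃ + E₄)
      (p := 1) (u := u) (q := 1) (u' := u') hκ' hA2 (zero_le_one.trans b₂) T1 (by omega)
      (by omega) zero_le_one u1 zero_le_one u1'
    calc κ' * (nrm v a₂ * T ^ E₂ * V ^ d) = κ' ^ 1 * (nrm v a₂ * T ^ E₂ * 1 * 1) * V ^ d := by
          ring
      _ ≤ W * V ^ d := mul_le_mul_of_nonneg_right h2 (pow_nonneg V0 _)
  -- backward
  have h2 : Y ≤ W * U ^ e := by
    refine nrm_le v _ _ (one_le_mul_of_one_le_of_one_le W1 (one_le_pow₀ U1)) fun i => ?_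
    have h3 := back F G c hinv x (n + 1) i
    have e1 : x 0 + ((n + 1 + 1 : ℕ) : K) = x 0 + n + 1 + 1 := by push_cast; ring
    have e2 : x 0 + ((n + 1 : ℕ) : K) = x 0 + n + 1 := by push_cast; ring
    rw [e1, e2] at h3
    have h4 : yo F x (n + 1) i = (c.eval (x 0 + n + 1))⁻¹ *
        eval (Fin.cons (x 0 + n + 1 + 1) (yo F x (n + 1 + 1))) (G i) := by
      rw [h3, ← mul_assoc, inv_mul_cancel₀ hcn, one_mul]
    rw [h4, map_mul]
    have h5 : v (c.eval (x 0 + n + 1))⁻¹ ≤ u := le_nrm v (one (c.eval (x 0 + n + 1))⁻¹) 0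
    have h6 := hGb v κ' v₃ i (x 0 + n + 1 + 1) (yo F x (n + 1 + 1))
    have h7 : nrm v (one (x 0 + n + 1 + 1)) ^ E₃ ≤ (κ' ^ 2 * T) ^ E₃ :=
      pow_le_pow_left₀ (zero_le_one.trans (one_le_nrm v _)) hT2 _
    have h8 : v (eval (Fin.cons (x 0 + n + 1 + 1) (yo F x (n + 1 + 1))) (G i)) ≤
        κ' * (nrm v a₃ * (κ' ^ 2 * T) ^ E₃ * U ^ e) := by
      refine h6.trans (mul_le_mul_of_nonneg_left ?_ hκ0)
      exact mul_le_mul_of_nonneg_right (mul_le_mul_of_nonneg_left h7 (zero_le_one.trans b₃))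
        (pow_nonneg U0 _)
    have h9 := Reg_mono (i := 1 + 2 * E₃) (s := 3 + E₁ + 2 * E₃) (j := E₃)
      (E := E₁ + E₂ + E₃ + E₄)
      (p := u) (u := u) (q := 1) (u' := u') hκ' hA3 (zero_le_one.trans b₃) T1 (by omega)
      (by omega) (zero_le_one.trans u1) le_rfl zero_le_one u1'
    calc v (c.eval (x 0 + n + 1))⁻¹ *
          v (eval (Fin.cons (x 0 + n + 1 + 1) (yo F x (n + 1 + 1))) (G i))
        ≤ u * (κ' * (nrm v a₃ * (κ' ^ 2 * T) ^ E₃ * U ^ e)) :=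
          mul_le_mul h5 h8 (v.nonneg _) (zero_le_one.trans u1)
      _ = κ' ^ (1 + 2 * E₃) * (nrm v a₃ * T ^ E₃ * u * 1) * U ^ e := by
          rw [mul_pow, ← pow_mul, pow_add, pow_one]
          ring
      _ ≤ W * U ^ e := mul_le_mul_of_nonneg_right h9 (pow_nonneg U0 _)
  -- the dichotomy
  have hD1 := hD v κ' v₁ (x 0 + n + 1) (yo F x (n + 1)) hcn'
  have h3 : κ' ^ 2 * (nrm v a₁ * nrm v (one (x 0 + n + 1)) ^ E₁ * u') ≤
      κ' ^ (2 + E₁) * (nrm v a₁ * T ^ E₁ * 1 * u') := by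
    have h4 : nrm v (one (x 0 + n + 1)) ^ E₁ ≤ (κ' * T) ^ E₁ :=
      pow_le_pow_left₀ (zero_le_one.trans (one_le_nrm v _)) hT1 _
    calc κ' ^ 2 * (nrm v a₁ * nrm v (one (x 0 + n + 1)) ^ E₁ * u')
        ≤ κ' ^ 2 * (nrm v a₁ * (κ' * T) ^ E₁ * u') := by
          refine mul_le_mul_of_nonneg_left ?_ (pow_nonneg hκ0 _)
          exact mul_le_mul_of_nonneg_right (mul_le_mul_of_nonneg_left h4 (zero_le_one.trans b₁))
            (zero_le_one.trans u1')
      _ = κ' ^ (2 + E₁) * (nrm v a₁ * T ^ E₁ * 1 * u') := by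
          rw [mul_pow, pow_add]
          ring
  have h4 : κ' ^ (2 + E₁) * (nrm v a₁ * T ^ E₁ * 1 * u') ≤ W :=
    Reg_mono hκ' hA1 (zero_le_one.trans b₁) T1 (by omega) (by omega) zero_le_one u1
      (zero_le_one.trans u1') le_rfl
  have h5 := h3.trans h4
  have hh : Y ≤ W ∨ Y ^ d ≤ W * U ∨ Y ^ e ≤ W * V := by
    rcases hD1 with h6 | ⟨i | i, h6⟩
    · exact Or.inl (h6.trans h5)
    · refine Or.inr (Or.inl ?_)
      simp only [Sum.elim_inl] at h6
      have h7 : eval (Fin.cons (x 0 + n + 1) (yo F x (n + 1))) (F i) = yo F x (n + 2) i := by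
        rw [yo_succ F x (n + 1) i]
        push_cast
        rw [← add_assoc]
      rw [h7] at h6
      refine h6.trans (mul_le_mul h5 (le_nrm v _ i) (v.nonneg _) W0)
    · refine Or.inr (Or.inr ?_)
      simp only [Sum.elim_inr] at h6
      have h7 := back F G c hinv x n i
      have e2 : x 0 + ((n + 1 : ℕ) : K) = x 0 + n + 1 := by push_cast; ring
      rw [e2] at h7
      rw [h7, map_mul] at h6
      have h8 := hCb v κ' v₄ (x 0 + n)
      have h9 : v (c.eval (x 0 + n)) * v (yo F x n i) ≤ κ' * (nrm v a₄ * T ^ E₄) * V :=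
        mul_le_mul h8 (le_nrm v _ i) (v.nonneg _) (mul_nonneg hκ0
          (mul_nonneg (zero_le_one.trans b₄) (pow_nonneg T0 _)))
      have h10 := Reg_mono (i := 3 + E₁) (s := 3 + E₁ + 2 * E₃) (j := E₁ + E₄)
        (E := E₁ + E₂ + E₃ + E₄) (p := 1) (u := u) (q := u') (u' := u') hκ' hA14
        (mul_nonneg (zero_le_one.trans b₁) (zero_le_one.trans b₄)) T1 (by omega)
        (by omega) zero_le_one u1 (zero_le_one.trans u1') le_rfl
      calc Y ^ e ≤ _ := h6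
        _ ≤ κ' ^ (2 + E₁) * (nrm v a₁ * T ^ E₁ * 1 * u') * (κ' * (nrm v a₄ * T ^ E₄) * V) :=
            mul_le_mul h3 h9 (mul_nonneg (v.nonneg _) (v.nonneg _))
              (mul_nonneg (pow_nonneg hκ0 _) (mul_nonneg (mul_nonneg (mul_nonneg
                (zero_le_one.trans b₁) (pow_nonneg T0 _)) zero_le_one) (zero_le_one.trans u1')))
        _ = κ' ^ (3 + E₁) * (nrm v a₁ * nrm v a₄ * T ^ (E₁ + E₄) * 1 * u') * V := by
            ring
        _ ≤ W * V := mul_le_mul_of_nonneg_right h10 V0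
  have hfin := real_reg d e (by omega) (by omega) W Y U V W1 Y1 U1 V1 hh h1 h2
  refine hfin.trans (le_of_eq ?_)
  rw [hW, mul_pow, ← pow_mul, mul_assoc]

/-- **The height inequality in the regular case.** From `local_reg` by `glob` (merge the two vectors
of length one in one vector of length two), `ht_inv_poly`, `ht_add_nat`. -/
theorem regular_lower [NumberField K] (F : Fin k → MvPolynomial (Fin (k + 1)) K) (d : ℕ)
    (hd : 2 ≤ d) (hF : Regular F d) (x : Fin (k + 1) → K) :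
    ∃ (e : ℕ) (C : ℝ) (n₀ : ℕ), 2 ≤ e ∧ 0 ≤ C ∧ ∀ n : ℕ, n₀ ≤ n →
      ((d : ℝ) * e + 1) * ht (yo F x (n + 1)) ≤
        e * ht (yo F x (n + 2)) + d * ht (yo F x n) + C * Real.log ((n : ℝ) + 2) := by
  obtain ⟨e, r, s, a, κ, E, n₀, c, c', he, hκ, hloc⟩ := local_reg F d hd hF x
  obtain ⟨C₁, hC₁, hC₁'⟩ := ht_add_nat (x 0)
  obtain ⟨C₂, E₂, hC₂, hC₂'⟩ := ht_inv_poly c
  obtain ⟨C₃, E₃, hC₃, hC₃'⟩ := ht_inv_poly c'
  have hl2 : 0 < Real.log 2 := Real.log_pos one_lt_two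
  set m : ℕ := d * e + 1 + d + e with hm
  set A : ℝ := (s : ℝ) * totalWeight K * Real.log κ + m * ht a + 2 * m * (C₂ + C₃) with hAd
  set B : ℝ := (E * m : ℝ) * C₁ + 2 * m * ((E₂ + E₃) * (C₁ * 2)) with hBd
  have hA : 0 ≤ A := by
    have h1 := Real.log_nonneg hκ
    have h2 := ht_nonneg a
    positivity
  have hB : 0 ≤ B := by positivity
  refine ⟨e, A / Real.log 2 + B, n₀, he, add_nonneg (div_nonneg hA hl2.le) hB, fun n hn => ?_⟩
  have h := glob (yo F x (n + 1)) a (one (x 0 + n))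
    (Fin.cons (c.eval (x 0 + n + 1))⁻¹ (one (c'.eval (x 0 + n + 1))⁻¹) : Fin 2 → K)
    (yo F x (n + 2)) (yo F x n) (d * e + 1) m (E * m) (2 * m) e d s κ hκ (by
    intro v κ' hv
    refine (hloc n hn v κ' hv).trans ?_
    have hκ0 : 0 ≤ κ' := zero_le_one.trans hv.1
    set w : Fin 2 → K := Fin.cons (c.eval (x 0 + n + 1))⁻¹ (one (c'.eval (x 0 + n + 1))⁻¹) with hw
    have w1 : nrm v (one (c.eval (x 0 + n + 1))⁻¹) ≤ nrm v w := by
      refine nrm_le v _ _ (one_le_nrm v _) fun i => ?_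
      exact le_nrm v w 0
    have w2 : nrm v (one (c'.eval (x 0 + n + 1))⁻¹) ≤ nrm v w := by
      refine nrm_le v _ _ (one_le_nrm v _) fun i => ?_
      exact le_nrm v w 1
    have p1 := one_le_nrm v a
    have p2 := one_le_nrm v (one (x 0 + n))
    have p3 := one_le_nrm v w
    have p4 := one_le_nrm v (yo F x (n + 2))
    have p5 := one_le_nrm v (yo F x n)
    have p6 := one_le_nrm v (one (c.eval (x 0 + n + 1))⁻¹)
    have p7 := one_le_nrm v (one (c'.eval (x 0 + n + 1))⁻¹)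
    have q0 : 0 ≤ nrm v a * nrm v (one (x 0 + n)) ^ E :=
      mul_nonneg (zero_le_one.trans p1) (pow_nonneg (zero_le_one.trans p2) _)
    have q1 : nrm v a * nrm v (one (x 0 + n)) ^ E * nrm v (one (c.eval (x 0 + n + 1))⁻¹) *
        nrm v (one (c'.eval (x 0 + n + 1))⁻¹) ≤
        nrm v a * nrm v (one (x 0 + n)) ^ E * nrm v w * nrm v w :=
      mul_le_mul (mul_le_mul_of_nonneg_left w1 q0) w2 (zero_le_one.trans p7)
        (mul_nonneg q0 (zero_le_one.trans p3))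
    have q2 := pow_le_pow_left₀ (mul_nonneg (mul_nonneg q0 (zero_le_one.trans p6))
      (zero_le_one.trans p7)) q1 m
    have q3 : 0 ≤ nrm v (yo F x (n + 2)) ^ e * nrm v (yo F x n) ^ d :=
      mul_nonneg (pow_nonneg (zero_le_one.trans p4) _) (pow_nonneg (zero_le_one.trans p5) _)
    refine (mul_le_mul_of_nonneg_left (mul_le_mul_of_nonneg_right q2 q3)
      (pow_nonneg hκ0 s)).trans (le_of_eq ?_)
    rw [mul_pow, mul_pow, mul_pow, ← pow_mul, two_mul, pow_add]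
    ring)
  have h1 := hC₁' n
  have h2 := hC₁' (n + 1)
  have e2 : x 0 + ((n + 1 : ℕ) : K) = x 0 + n + 1 := by push_cast; ring
  rw [e2] at h2
  have hlog : Real.log (((n + 1 : ℕ) : ℝ) + 2) ≤ 2 * Real.log ((n : ℝ) + 2) := by
    have hn0 : (0 : ℝ) ≤ n := Nat.cast_nonneg n
    have h3 : 2 * Real.log ((n : ℝ) + 2) = Real.log (((n : ℝ) + 2) ^ 2) := by
      rw [Real.log_pow]
      push_cast
      ring
    rw [h3]
    refine Real.log_le_log (by positivity) ?_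
    push_cast
    nlinarith
  have h3 : ht (one (x 0 + n + 1)) ≤ C₁ * 2 * Real.log ((n : ℝ) + 2) := by
    refine h2.trans ?_
    have := mul_le_mul_of_nonneg_left hlog hC₁
    linarith
  have h4 := ht_cons (c.eval (x 0 + n + 1))⁻¹ (one (c'.eval (x 0 + n + 1))⁻¹)
  have h5 := hC₂' (x 0 + n + 1)
  have h6 := hC₃' (x 0 + n + 1)
  have hLn : Real.log 2 ≤ Real.log ((n : ℝ) + 2) :=
    Real.log_le_log two_pos (by have := n.cast_nonneg (α := ℝ); linarith)
  have h7 : A ≤ A / Real.log 2 * Real.log ((n : ℝ) + 2) := by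
    have h8 := mul_le_mul_of_nonneg_left hLn (div_nonneg hA hl2.le)
    rwa [div_mul_cancel₀ _ hl2.ne'] at h8
  have h8 : ht (Fin.cons (c.eval (x 0 + n + 1))⁻¹ (one (c'.eval (x 0 + n + 1))⁻¹) :
      Fin 2 → K) ≤ (C₂ + C₃) + (E₂ + E₃) * (C₁ * 2 * Real.log ((n : ℝ) + 2)) := by
    have h9 : ((E₂ : ℝ) + E₃) * ht (one (x 0 + n + 1)) ≤
        (E₂ + E₃) * (C₁ * 2 * Real.log ((n : ℝ) + 2)) :=
      mul_le_mul_of_nonneg_left h3 (by positivity)
    have h10 : ((E₂ : ℝ) + E₃) * ht (one (x 0 + n + 1)) = E₂ * ht (one (x 0 + n + 1)) +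
      E₃ * ht (one (x 0 + n + 1)) := by ring
    linarith
  have h9 := mul_le_mul_of_nonneg_left h8 (show (0 : ℝ) ≤ 2 * m by positivity)
  have h10 := mul_le_mul_of_nonneg_left h1 (show (0 : ℝ) ≤ E * m by positivity)
  push_cast at h
  have h11 : (A / Real.log 2 + B) * Real.log ((n : ℝ) + 2) =
      A / Real.log 2 * Real.log ((n : ℝ) + 2) + ((E * m : ℝ) * (C₁ * Real.log ((n : ℝ) + 2)) +
        2 * m * ((E₂ + E₃) * (C₁ * 2 * Real.log ((n : ℝ) + 2)))) := by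
    rw [hBd]
    ring
  rw [h11]
  have h12 : (2 * (m : ℝ)) * (C₂ + C₃ + (E₂ + E₃) * (C₁ * 2 * Real.log ((n : ℝ) + 2))) =
      2 * m * (C₂ + C₃) + 2 * m * ((E₂ + E₃) * (C₁ * 2 * Real.log ((n : ℝ) + 2))) := by ring
  rw [h12] at h9
  have h13 : A = (s : ℝ) * totalWeight K * Real.log κ + m * ht a + 2 * m * (C₂ + C₃) := hAd
  linarith

end Pool.Agent.H.MP_31a675_nt
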