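import Mathlib

/-!
# Real sequences with a dichotomy
-/

namespace Pool.Agent.H.MP_31a675_nt

open Filter Topology

/-- the logarithm is positive -/
theorem Seq_pos (n : ℕ) : Real.log 2 ≤ Real.log ((n : ℝ) + 2) :=
  Real.log_le_log two_pos (by
    have := Nat.cast_nonneg (α := ℝ) n
    linarith)

theorem Seq_pos' (n : ℕ) : 0 < Real.log ((n : ℝ) + 2) :=
  (Real.log_pos one_lt_two).trans_le (Seq_pos n)

/-- `log (n + 3) ≤ 1.6 log (n + 2)` -/
theorem Seq_log (n : ℕ) :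
    Real.log (((n + 1 : ℕ) : ℝ) + 2) ≤ 8 / 5 * Real.log ((n : ℝ) + 2) := by
  have hn := Nat.cast_nonneg (α := ℝ) n
  have h1 : (((n + 1 : ℕ) : ℝ) + 2) ≤ 3 / 2 * ((n : ℝ) + 2) := by
    push_cast
    linarith
  have h0 : (0 : ℝ) < ((n + 1 : ℕ) : ℝ) + 2 := by positivity
  have h2 : (((n + 1 : ℕ) : ℝ) + 2) ^ 5 ≤ ((n : ℝ) + 2) ^ 8 := by
    calc (((n + 1 : ℕ) : ℝ) + 2) ^ 5 ≤ (3 / 2 * ((n : ℝ) + 2)) ^ 5 :=
          pow_le_pow_left₀ h0.le h1 5
      _ = (3 / 2) ^ 5 * ((n : ℝ) + 2) ^ 5 := by ring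
      _ ≤ ((n : ℝ) + 2) ^ 3 * ((n : ℝ) + 2) ^ 5 := by
          apply mul_le_mul_of_nonneg_right _ (by positivity)
          calc ((3 : ℝ) / 2) ^ 5 ≤ 2 ^ 3 := by norm_num
            _ ≤ ((n : ℝ) + 2) ^ 3 := pow_le_pow_left₀ (by norm_num) (by linarith) 3
      _ = ((n : ℝ) + 2) ^ 8 := by ring
  have h3 := Real.log_le_log (by positivity) h2
  rw [Real.log_pow, Real.log_pow] at h3
  push_cast at h3 ⊢
  linarith

/-- If `h (n+1) ≥ d h n - C log (n+2)` for large `n` then either `h` grows like `d ^ n` or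
`h n ≤ B log (n + 2)` for large `n`. With `B = 3 C` the sequence `h n - B log (n + 2)` satisfies
`g (n+1) ≥ d g n`, because `log (n + 3) ≤ 1.6 log (n + 2)`. -/
theorem seq_one (d : ℕ) (hd : 2 ≤ d) (h : ℕ → ℝ) (C : ℝ) (hC : 0 ≤ C) (n₀ : ℕ)
    (hh : ∀ n, n₀ ≤ n → d * h n ≤ h (n + 1) + C * Real.log ((n : ℝ) + 2)) :
    (∃ δ > 0, ∃ n₁ : ℕ, ∀ n, n₁ ≤ n → δ * (d : ℝ) ^ n ≤ h n) ∨
      ∃ (B : ℝ) (n₁ : ℕ), 0 ≤ B ∧ ∀ n, n₁ ≤ n → h n ≤ B * Real.log ((n : ℝ) + 2) := by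
  have hd' : (2 : ℝ) ≤ d := by exact_mod_cast hd
  have hstep : ∀ n, n₀ ≤ n → d * (h n - 3 * C * Real.log ((n : ℝ) + 2)) ≤
      h (n + 1) - 3 * C * Real.log (((n + 1 : ℕ) : ℝ) + 2) := by
    intro n hn
    have h1 := hh n hn
    have h2 := Seq_log n
    have h3 := Seq_pos' n
    have h4 : 3 * C * Real.log (((n + 1 : ℕ) : ℝ) + 2) ≤
        3 * C * (8 / 5 * Real.log ((n : ℝ) + 2)) := mul_le_mul_of_nonneg_left h2 (by linarith)
    have h5 : 2 * (3 * C * Real.log ((n : ℝ) + 2)) ≤ d * (3 * C * Real.log ((n : ℝ) + 2)) :=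
      mul_le_mul_of_nonneg_right hd' (by positivity)
    have h6 : 0 ≤ C * Real.log ((n : ℝ) + 2) := by positivity
    nlinarith
  by_cases hcase : ∃ m, n₀ ≤ m ∧ 0 < h m - 3 * C * Real.log ((m : ℝ) + 2)
  · left
    obtain ⟨m, hm, hpos⟩ := hcase
    generalize hg : h m - 3 * C * Real.log ((m : ℝ) + 2) = g₀ at hpos
    have hdm : (0 : ℝ) < (d : ℝ) ^ m := by positivity
    refine ⟨g₀ / (d : ℝ) ^ m, div_pos hpos hdm, m, ?_⟩
    have key : ∀ k : ℕ, g₀ * (d : ℝ) ^ k ≤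
        h (m + k) - 3 * C * Real.log (((m + k : ℕ) : ℝ) + 2) := by
      intro k
      induction k with
      | zero => simp [hg]
      | succ k ih =>
        have h1 := hstep (m + k) (by omega)
        calc g₀ * (d : ℝ) ^ (k + 1) = d * (g₀ * (d : ℝ) ^ k) := by ring
          _ ≤ d * (h (m + k) - 3 * C * Real.log (((m + k : ℕ) : ℝ) + 2)) :=
            mul_le_mul_of_nonneg_left ih (by linarith)
          _ ≤ _ := h1
    intro n hn
    obtain ⟨k, rfl⟩ := Nat.exists_eq_add_of_le hn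
    have h1 := key k
    have h2 := Seq_pos' (m + k)
    have h3 : g₀ / (d : ℝ) ^ m * (d : ℝ) ^ (m + k) = g₀ * (d : ℝ) ^ k := by
      rw [pow_add]
      field_simp
    rw [h3]
    have h4 : 0 ≤ 3 * C * Real.log (((m + k : ℕ) : ℝ) + 2) := by positivity
    linarith
  · right
    push Not at hcase
    exact ⟨3 * C, n₀, by linarith, fun n hn => by linarith [hcase n hn]⟩

/-- The same for the inequality of second order: apply `seq_one` to `g n = h (n + 1) - h n / e`. If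
`g` is small then `h (n+1) ≤ h n / 2 + B log (n + 2)`, so `h` is small; if `g` grows like `d ^ n`
then so does `h (n + 1) ≥ g n` (as `h ≥ 0`). -/
theorem seq_two (d e : ℕ) (hd : 2 ≤ d) (he : 2 ≤ e) (h : ℕ → ℝ) (h0 : ∀ n, 0 ≤ h n) (C : ℝ)
    (hC : 0 ≤ C) (n₀ : ℕ)
    (hh : ∀ n, n₀ ≤ n → ((d : ℝ) * e + 1) * h (n + 1) ≤
      e * h (n + 2) + d * h n + C * Real.log ((n : ℝ) + 2)) :
    (∃ δ > 0, ∃ n₁ : ℕ, ∀ n, n₁ ≤ n → δ * (d : ℝ) ^ n ≤ h n) ∨
      ∃ (B : ℝ) (n₁ : ℕ), 0 ≤ B ∧ ∀ n, n₁ ≤ n → h n ≤ B * Real.log ((n : ℝ) + 2) := by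
  have hd' : (2 : ℝ) ≤ d := by exact_mod_cast hd
  have he' : (2 : ℝ) ≤ e := by exact_mod_cast he
  have he0 : (0 : ℝ) < e := by linarith
  have hdiv : ∀ n, 0 ≤ h n / e := fun n => div_nonneg (h0 n) he0.le
  rcases seq_one d hd (fun n => h (n + 1) - h n / e) C hC n₀ (by
    intro n hn
    have h1 := hh n hn
    have h2 := Seq_pos' n
    have h3 : 0 ≤ C * Real.log ((n : ℝ) + 2) := by positivity
    have h4 : C * Real.log ((n : ℝ) + 2) / e ≤ C * Real.log ((n : ℝ) + 2) :=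
      div_le_self h3 (by linarith)
    have h5 : (((d : ℝ) * e + 1) * h (n + 1)) / e ≤
        (e * h (n + 2) + d * h n + C * Real.log ((n : ℝ) + 2)) / e :=
      div_le_div_of_nonneg_right h1 he0.le
    have h6 : (((d : ℝ) * e + 1) * h (n + 1)) / e = d * h (n + 1) + h (n + 1) / e := by
      field_simp
    have h7 : (e * h (n + 2) + d * h n + C * Real.log ((n : ℝ) + 2)) / e =
        h (n + 2) + d * (h n / e) + C * Real.log ((n : ℝ) + 2) / e := by
      field_simp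
    rw [h6, h7] at h5
    show d * (h (n + 1) - h n / e) ≤ h (n + 1 + 1) - h (n + 1) / e +
      C * Real.log ((n : ℝ) + 2)
    have h8 : h (n + 1 + 1) = h (n + 2) := rfl
    rw [h8, mul_sub]
    linarith) with ⟨δ, hδ, n₁, h1⟩ | ⟨B, n₁, hB, h1⟩
  · left
    refine ⟨δ / d, by positivity, n₁ + 1, ?_⟩
    intro n hn
    obtain ⟨m, rfl⟩ : ∃ m, n = m + 1 := ⟨n - 1, by omega⟩
    have h2 : δ * (d : ℝ) ^ m ≤ h (m + 1) - h m / e := h1 m (by omega)
    have h3 := hdiv m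
    have h4 : δ / d * (d : ℝ) ^ (m + 1) = δ * (d : ℝ) ^ m := by
      rw [pow_succ]
      field_simp
    rw [h4]
    linarith
  · right
    have hl2 : 0 < Real.log 2 := Real.log_pos one_lt_two
    have hK : 0 ≤ h n₁ / Real.log 2 := div_nonneg (h0 _) hl2.le
    refine ⟨2 * B + h n₁ / Real.log 2, n₁, by positivity, ?_⟩
    intro n hn
    induction n, hn using Nat.le_induction with
    | base =>
      have h2 := Seq_pos n₁
      have h3 : h n₁ = h n₁ / Real.log 2 * Real.log 2 := by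
        field_simp
      have h4 : h n₁ / Real.log 2 * Real.log 2 ≤ h n₁ / Real.log 2 * Real.log ((n₁ : ℝ) + 2) :=
        mul_le_mul_of_nonneg_left h2 hK
      have h5 : 0 ≤ 2 * B * Real.log ((n₁ : ℝ) + 2) := by
        have := Seq_pos' n₁
        positivity
      rw [add_mul]
      linarith
    | succ n hn ih =>
      have h2 : h (n + 1) - h n / e ≤ B * Real.log ((n : ℝ) + 2) := h1 n hn
      have h3 : h n / e ≤ h n / 2 := div_le_div_of_nonneg_left (h0 n) two_pos he'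
      have h4 : Real.log ((n : ℝ) + 2) ≤ Real.log (((n + 1 : ℕ) : ℝ) + 2) :=
        Real.log_le_log (by positivity) (by push_cast; linarith)
      have h5 : (2 * B + h n₁ / Real.log 2) * Real.log ((n : ℝ) + 2) ≤
          (2 * B + h n₁ / Real.log 2) * Real.log (((n + 1 : ℕ) : ℝ) + 2) :=
        mul_le_mul_of_nonneg_left h4 (by positivity)
      have h6 : 0 ≤ h n₁ / Real.log 2 * Real.log ((n : ℝ) + 2) := by
        have := Seq_pos' n
        positivity
      nlinarith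

/-- The upper bound `h n ≤ B d ^ n`. -/
theorem seq_upper (d : ℕ) (hd : 2 ≤ d) (h : ℕ → ℝ) (C : ℝ) (hC : 0 ≤ C)
    (hh : ∀ n : ℕ, h (n + 1) ≤ d * h n + C * Real.log ((n : ℝ) + 2)) :
    ∃ B : ℝ, 0 ≤ B ∧ ∀ n, h n ≤ B * (d : ℝ) ^ n := by
  have hd' : (2 : ℝ) ≤ d := by exact_mod_cast hd
  have key : ∀ n : ℕ, h n + C * (n + 4) ≤ (|h 0| + 4 * C) * (d : ℝ) ^ n := by
    intro n
    induction n with
    | zero =>
      have := le_abs_self (h 0)
      simp only [Nat.cast_zero, zero_add, pow_zero, mul_one]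
      linarith
    | succ n ih =>
      have h1 := hh n
      have h2 : Real.log ((n : ℝ) + 2) ≤ n + 1 := by
        have := Real.log_le_sub_one_of_pos (x := (n : ℝ) + 2) (by positivity)
        linarith
      have h3 := mul_le_mul_of_nonneg_left h2 hC
      have h4 : d * (h n + C * (n + 4)) ≤ d * ((|h 0| + 4 * C) * (d : ℝ) ^ n) :=
        mul_le_mul_of_nonneg_left ih (by linarith)
      have h5 : 2 * (C * ((n : ℝ) + 4)) ≤ d * (C * (n + 4)) :=
        mul_le_mul_of_nonneg_right hd' (by positivity)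
      rw [pow_succ]
      push_cast
      nlinarith
  refine ⟨|h 0| + 4 * C, by positivity, fun n => ?_⟩
  have h1 := key n
  have h2 : 0 ≤ C * ((n : ℝ) + 4) := by positivity
  linarith

/-- Two-sided exponential bounds give the limit of the `n`-th roots. -/
theorem root_lim (d : ℕ) (hd : 2 ≤ d) (H : ℕ → ℝ) (δ B : ℝ) (hδ : 0 < δ) (n₁ : ℕ)
    (h1 : ∀ n, n₁ ≤ n → δ * (d : ℝ) ^ n ≤ H n) (h2 : ∀ n, H n ≤ B * (d : ℝ) ^ n) :
    Tendsto (fun n : ℕ => (max (H n) 1) ^ ((1 : ℝ) / n)) atTop (𝓝 (d : ℝ)) := by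
  have hd' : (2 : ℝ) ≤ d := by exact_mod_cast hd
  have hroot : ∀ c : ℝ, 0 < c →
      Tendsto (fun n : ℕ => c ^ ((1 : ℝ) / n) * (d : ℝ)) atTop (𝓝 (d : ℝ)) := by
    intro c hc
    have h3 : Tendsto (fun n : ℕ => c ^ ((1 : ℝ) / n)) atTop (𝓝 (c ^ (0 : ℝ))) :=
      tendsto_const_nhds.rpow tendsto_one_div_atTop_nhds_zero_nat (Or.inl hc.ne')
    rw [Real.rpow_zero] at h3
    have h4 := h3.mul_const (d : ℝ)
    rwa [one_mul] at h4
  have hval : ∀ (c : ℝ) (n : ℕ), 0 ≤ c → 1 ≤ n →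
      (c * (d : ℝ) ^ n) ^ ((1 : ℝ) / n) = c ^ ((1 : ℝ) / n) * (d : ℝ) := by
    intro c n hc hn
    have hn0 : (n : ℝ) ≠ 0 := by
      have : n ≠ 0 := by omega
      exact_mod_cast this
    rw [Real.mul_rpow hc (by positivity), ← Real.rpow_natCast (d : ℝ) n,
      ← Real.rpow_mul (by positivity), mul_one_div_cancel hn0, Real.rpow_one]
  have hB : 0 < max B 1 := lt_max_of_lt_right one_pos
  refine tendsto_of_tendsto_of_tendsto_of_le_of_le' (hroot δ hδ) (hroot _ hB) ?_ ?_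
  · filter_upwards [eventually_ge_atTop n₁, eventually_ge_atTop 1] with n hn hn1
    rw [← hval δ n hδ.le hn1]
    exact Real.rpow_le_rpow (by positivity) ((h1 n hn).trans (le_max_left _ _)) (by positivity)
  · filter_upwards [eventually_ge_atTop 1] with n hn1
    rw [← hval _ n hB.le hn1]
    refine Real.rpow_le_rpow (le_max_of_le_right zero_le_one) (max_le ?_ ?_) (by positivity)
    · exact (h2 n).trans (mul_le_mul_of_nonneg_right (le_max_left _ _) (by positivity))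
    · have h3 : (1 : ℝ) ≤ (d : ℝ) ^ n := one_le_pow₀ (by linarith)
      calc (1 : ℝ) = 1 * 1 := by ring
        _ ≤ max B 1 * (d : ℝ) ^ n :=
          mul_le_mul (le_max_right _ _) h3 zero_le_one hB.le

/-- Logarithms are bounded by powers with any positive exponent. -/
theorem log_le_pow (B γ : ℝ) (hγ : 0 < γ) :
    ∃ C : ℝ, 0 ≤ C ∧ ∀ n : ℕ, B * Real.log ((n : ℝ) + 2) ≤ C * ((n : ℝ) + 1) ^ γ := by
  refine ⟨|B| * (2 ^ γ / γ), by positivity, fun n => ?_⟩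
  have h1 := Seq_pos' n
  have h2 : Real.log ((n : ℝ) + 2) ≤ ((n : ℝ) + 2) ^ γ / γ :=
    Real.log_le_rpow_div (by positivity) hγ
  have h3 : ((n : ℝ) + 2) ^ γ ≤ 2 ^ γ * ((n : ℝ) + 1) ^ γ := by
    rw [← Real.mul_rpow (by norm_num) (by positivity)]
    refine Real.rpow_le_rpow (by positivity) ?_ hγ.le
    have := Nat.cast_nonneg (α := ℝ) n
    linarith
  calc B * Real.log ((n : ℝ) + 2) ≤ |B| * Real.log ((n : ℝ) + 2) :=
        mul_le_mul_of_nonneg_right (le_abs_self B) h1.le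
    _ ≤ |B| * (2 ^ γ * ((n : ℝ) + 1) ^ γ / γ) :=
        mul_le_mul_of_nonneg_left (h2.trans (div_le_div_of_nonneg_right h3 hγ.le)) (abs_nonneg B)
    _ = |B| * (2 ^ γ / γ) * ((n : ℝ) + 1) ^ γ := by ring

end Pool.Agent.H.MP_31a675_nt
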