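import Pool.Agent.H.MP_31a675_nt.Slow
import Pool.Agent.H.MP_31a675_nt.Reg
import Pool.Agent.H.MP_31a675_nt.Seq

/-!
# The arithmetic degree of a point with Zariski dense orbit
-/

namespace Pool.Agent.H.MP_31a675_nt

open MvPolynomial Filter Topology Height

variable {K : Type*} [Field K] [NumberField K] {k : ℕ}

/-- The height of a point of the orbit is at most that of its `y` coordinates plus `C log n`. -/
theorem Alpha_split (F : Fin k → MvPolynomial (Fin (k + 1)) K) (x : Fin (k + 1) → K) :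
    ∃ C : ℝ, 0 ≤ C ∧ ∀ n : ℕ, ht (orb (skew F) x n) ≤
      C * Real.log ((n : ℝ) + 2) + ht (yo F x n) := by
  obtain ⟨C, hC, h⟩ := ht_add_nat (x 0)
  refine ⟨C, hC, fun n => ?_⟩
  rw [orb_eq]
  have h1 := ht_cons (x 0 + n) (yo F x n)
  have h2 := h n
  linarith

/-- If the heights of the vectors `yo F x n` are at most `B log (n + 2)` for large `n`, then the
orbit satisfies the hypothesis of `slow` with `γ = 1 / 4`: `coord_le_ht`, `orb_eq`, `ht_cons`,
`ht_add_nat`, `log_le_pow`; the finitely many small `n` only change the constant. -/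
theorem slow_of_log (F : Fin k → MvPolynomial (Fin (k + 1)) K) (x : Fin (k + 1) → K) (B : ℝ)
    (hB : 0 ≤ B) (n₁ : ℕ) (h : ∀ n, n₁ ≤ n → ht (yo F x n) ≤ B * Real.log ((n : ℝ) + 2)) :
    ∃ C : ℝ, 0 ≤ C ∧ ∀ n i, logHeight₁ (orb (skew F) x n i) ≤ C * ((n : ℝ) + 1) ^ (1 / 4 : ℝ) := by
  obtain ⟨C1, hC1, h1⟩ := Alpha_split F x
  obtain ⟨C2, hC2, h2⟩ := log_le_pow (C1 + B) (1 / 4) (by norm_num)
  have hD : 0 ≤ ∑ m ∈ Finset.range n₁, ht (orb (skew F) x m) :=
    Finset.sum_nonneg fun m _ => ht_nonneg _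
  refine ⟨C2 + ∑ m ∈ Finset.range n₁, ht (orb (skew F) x m), add_nonneg hC2 hD, fun n i => ?_⟩
  have hpow : (1 : ℝ) ≤ ((n : ℝ) + 1) ^ (1 / 4 : ℝ) :=
    Real.one_le_rpow (by have : (0 : ℝ) ≤ n := n.cast_nonneg; linarith) (by norm_num)
  have h3 := coord_le_ht (orb (skew F) x n) i
  rcases le_or_gt n₁ n with hn | hn
  · have h4 := h1 n
    have h5 := h n hn
    have h6 := h2 n
    have h7 : (C1 + B) * Real.log ((n : ℝ) + 2) = C1 * Real.log ((n : ℝ) + 2) +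
      B * Real.log ((n : ℝ) + 2) := by ring
    have h8 : 0 ≤ (∑ m ∈ Finset.range n₁, ht (orb (skew F) x m)) *
      ((n : ℝ) + 1) ^ (1 / 4 : ℝ) := mul_nonneg hD (by linarith)
    rw [add_mul]
    linarith
  · have h4 : ht (orb (skew F) x n) ≤ ∑ m ∈ Finset.range n₁, ht (orb (skew F) x m) :=
      Finset.single_le_sum (f := fun m => ht (orb (skew F) x m)) (fun m _ => ht_nonneg _)
        (Finset.mem_range.2 hn)
    have h5 : (∑ m ∈ Finset.range n₁, ht (orb (skew F) x m)) * 1 ≤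
        (∑ m ∈ Finset.range n₁, ht (orb (skew F) x m)) * ((n : ℝ) + 1) ^ (1 / 4 : ℝ) :=
      mul_le_mul_of_nonneg_left hpow hD
    have h6 : 0 ≤ C2 * ((n : ℝ) + 1) ^ (1 / 4 : ℝ) := mul_nonneg hC2 (by linarith)
    rw [add_mul]
    linarith

/-- For a dense orbit the heights of the `y` coordinates are not `O (log n)`: `slow_of_log`, `slow`
with `N = k + 1 ≥ 2` and `γ = 1 / 4`. -/
theorem not_log (F : Fin k → MvPolynomial (Fin (k + 1)) K) (hk : 1 ≤ k) (x : Fin (k + 1) → K)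
    (hx : DenseOrbit (skew F) x) :
    ¬ ∃ (B : ℝ) (n₁ : ℕ), 0 ≤ B ∧ ∀ n, n₁ ≤ n → ht (yo F x n) ≤ B * Real.log ((n : ℝ) + 2) := by
  rintro ⟨B, n₁, hB, h⟩
  obtain ⟨C, hC, hs⟩ := slow_of_log F x B hB n₁ h
  have hk' : (1 : ℝ) ≤ k := by exact_mod_cast hk
  have hN : (1 / 4 : ℝ) + 1 / ((k + 1 : ℕ) : ℝ) < 1 := by
    have : 1 / ((k + 1 : ℕ) : ℝ) ≤ 1 / 2 := by
      apply one_div_le_one_div_of_le (by norm_num)
      push_cast
      linarith
    linarith
  obtain ⟨P, hP, h0⟩ := slow (by omega : 2 ≤ k + 1) (skew F) x hC (by norm_num) hN hs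
  exact hP (hx P h0)

/-- The heights of the `y` coordinates of a dense orbit grow like `d ^ n`: `seq_one` with
`polar_lower` or `seq_two` with `regular_lower`, and `not_log`. -/
theorem growth (F : Fin k → MvPolynomial (Fin (k + 1)) K) (d : ℕ) (hd : 2 ≤ d) (hk : 1 ≤ k)
    (hF : Polar F d ∨ Regular F d) (x : Fin (k + 1) → K) (hx : DenseOrbit (skew F) x) :
    ∃ δ > 0, ∃ n₁ : ℕ, ∀ n, n₁ ≤ n → δ * (d : ℝ) ^ n ≤ ht (yo F x n) := by
  rcases hF with hF | hF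
  · obtain ⟨C, n₀, hC, h⟩ := polar_lower F d hd hF x
    rcases seq_one d hd (fun n => ht (yo F x n)) C hC n₀ h with h1 | h1
    · exact h1
    · exact absurd h1 (not_log F hk x hx)
  · obtain ⟨e, C, n₀, he, hC, h⟩ := regular_lower F d hd hF x
    rcases seq_two d e hd he (fun n => ht (yo F x n)) (fun n => ht_nonneg _) C hC n₀ h with
      h1 | h1
    · exact h1
    · exact absurd h1 (not_log F hk x hx)

/-- The upper bound `ht (orb (skew F) x n) ≤ B d ^ n` for every point: `upper`, `seq_upper`,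
`ht_cons`, `ht_add_nat`, and `log (n + 2) ≤ 2 d ^ n`. -/
theorem ht_le (F : Fin k → MvPolynomial (Fin (k + 1)) K) (d : ℕ) (hd : 2 ≤ d)
    (hF : ∀ i, YLe d (F i)) (x : Fin (k + 1) → K) :
    ∃ B : ℝ, 0 ≤ B ∧ ∀ n, ht (orb (skew F) x n) ≤ B * (d : ℝ) ^ n := by
  obtain ⟨C, hC, h⟩ := upper F d hF x
  obtain ⟨B, hB, h1⟩ := seq_upper d hd (fun n => ht (yo F x n)) C hC h
  obtain ⟨C1, hC1, h2⟩ := Alpha_split F x
  refine ⟨C1 + B, add_nonneg hC1 hB, fun n => ?_⟩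
  have hlog : Real.log ((n : ℝ) + 2) ≤ (d : ℝ) ^ n := by
    have h3 : Real.log ((n : ℝ) + 2) ≤ (n : ℝ) + 2 - 1 :=
      Real.log_le_sub_one_of_pos (by positivity)
    have h4 : (n : ℝ) + 1 ≤ 2 ^ n := by
      exact_mod_cast Nat.succ_le_of_lt (Nat.lt_two_pow_self (n := n))
    have h5 : (2 : ℝ) ^ n ≤ (d : ℝ) ^ n := by
      apply pow_le_pow_left₀ (by norm_num)
      exact_mod_cast hd
    linarith
  have h6 : C1 * Real.log ((n : ℝ) + 2) ≤ C1 * (d : ℝ) ^ n := mul_le_mul_of_nonneg_left hlog hC1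
  have h7 := h2 n
  have h8 : ht (yo F x n) ≤ B * (d : ℝ) ^ n := h1 n
  rw [add_mul]
  linarith

/-- **The arithmetic degree of a point with dense orbit is `d`**: `root_lim` with `growth` (and
`ht_tail`) and `ht_le`. -/
theorem alpha (F : Fin k → MvPolynomial (Fin (k + 1)) K) (d : ℕ) (hd : 2 ≤ d) (hk : 1 ≤ k)
    (hF : Polar F d ∨ Regular F d) (x : Fin (k + 1) → K) (hx : DenseOrbit (skew F) x) :
    Tendsto (fun n : ℕ => (max (ht (orb (skew F) x n)) 1) ^ ((1 : ℝ) / n)) atTop (𝓝 (d : ℝ)) := by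
  have hle : ∀ i, YLe d (F i) := by
    rcases hF with hF | hF
    · exact hF.le
    · exact hF.le
  obtain ⟨δ, hδ, n₁, h1⟩ := growth F d hd hk hF x hx
  obtain ⟨B, -, h2⟩ := ht_le F d hd hle x
  refine root_lim d hd (fun n => ht (orb (skew F) x n)) δ B hδ n₁ (fun n hn => ?_) h2
  refine (h1 n hn).trans ?_
  show ht (yo F x n) ≤ ht (orb (skew F) x n)
  rw [orb_eq]
  exact ht_tail _ _

end Pool.Agent.H.MP_31a675_nt
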