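import Pool.Agent.H.MP_31a675_nt.Defs

/-!
# Evaluation of iterates
-/

namespace Pool.Agent.H.MP_31a675_nt

open MvPolynomial

/-- `eval x (P ∘ φ) = eval (φ x) P`. -/
theorem eval_aeval {R : Type*} [CommRing R] {N : ℕ} (φ : Fin N → MvPolynomial (Fin N) R)
    (x : Fin N → R) (P : MvPolynomial (Fin N) R) :
    eval x (aeval φ P) = eval (ev φ x) P := by
  induction P using MvPolynomial.induction_on with
  | C a => simp
  | add p q hp hq => rw [map_add, map_add, map_add, hp, hq]
  | mul_X p i hp =>
    rw [map_mul, map_mul, map_mul, hp, aeval_X, eval_X]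
    rfl

/-- The polynomials `itp φ n` represent the `n`-th iterate. Induction on `n` (generalising `x`),
with `Function.iterate_succ_apply'` for the algebra map, `Function.iterate_succ_apply` for `ev φ`
and `eval_aeval`. -/
theorem eval_itp {R : Type*} [CommRing R] {N : ℕ} (φ : Fin N → MvPolynomial (Fin N) R)
    (x : Fin N → R) (n : ℕ) (i : Fin N) :
    eval x (itp φ n i) = orb φ x n i := by
  induction n generalizing x with
  | zero =>
    unfold itp orb
    rw [Function.iterate_zero_apply, Function.iterate_zero_apply, eval_X]
  | succ n ih =>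
    have h1 : itp φ (n + 1) i = aeval φ (itp φ n i) := by
      unfold itp
      rw [Function.iterate_succ_apply']
    have h2 : orb φ x (n + 1) i = orb φ (ev φ x) n i := by
      unfold orb
      rw [Function.iterate_succ_apply]
    rw [h1, h2, eval_aeval, ih]

/-- The orbit of a point of the orbit. -/
theorem orb_add {R : Type*} [CommRing R] {N : ℕ} (φ : Fin N → MvPolynomial (Fin N) R)
    (x : Fin N → R) (m n : ℕ) : orb φ x (m + n) = orb φ (orb φ x m) n := by
  unfold orb
  rw [Nat.add_comm m n, Function.iterate_add_apply]

theorem itp_iterate {R : Type*} [CommRing R] {N : ℕ} (φ : Fin N → MvPolynomial (Fin N) R)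
    (n : ℕ) (P : MvPolynomial (Fin N) R) :
    (aeval φ : MvPolynomial (Fin N) R →ₐ[R] MvPolynomial (Fin N) R)^[n] P =
      aeval (itp φ n) P := by
  induction n with
  | zero =>
    have h : itp φ 0 = X := by
      funext i
      unfold itp
      rw [Function.iterate_zero_apply]
    rw [Function.iterate_zero_apply, h, aeval_X_left_apply]
  | succ n ih =>
    have h : itp φ (n + 1) = fun i => aeval φ (itp φ n i) := by
      funext i
      unfold itp
      rw [Function.iterate_succ_apply']
    rw [Function.iterate_succ_apply', ih, h, comp_aeval_apply]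

/-- `itp φ (n + 1) i = φ i ∘ (itp φ n)`: substitute the components of the `n`-th iterate in `φ i`.
Induction on `n` or: both sides are `(aeval φ)^[n] (φ i)`, and `(aeval φ)^[n]` is the algebra
homomorphism with values `itp φ n` at the variables. -/
theorem itp_succ {R : Type*} [CommRing R] {N : ℕ} (φ : Fin N → MvPolynomial (Fin N) R)
    (n : ℕ) (i : Fin N) : itp φ (n + 1) i = aeval (itp φ n) (φ i) := by
  rw [← itp_iterate]
  show (aeval φ : MvPolynomial (Fin N) R →ₐ[R] MvPolynomial (Fin N) R)^[n + 1] (X i) = _
  rw [Function.iterate_succ_apply, aeval_X]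

theorem map_eval_aux {R S : Type*} [CommRing R] [CommRing S] (g : R →+* S) {N : ℕ}
    (y : Fin N → R) (P : MvPolynomial (Fin N) R) :
    g (eval y P) = eval (fun j => g (y j)) (map g P) := by
  induction P using MvPolynomial.induction_on with
  | C a => simp
  | add p q hp hq => simp [hp, hq]
  | mul_X p i hp => simp [hp]

/-- Change of coefficients: a ring homomorphism maps orbits to orbits. -/
theorem map_orb {R S : Type*} [CommRing R] [CommRing S] (g : R →+* S) {N : ℕ}
    (φ : Fin N → MvPolynomial (Fin N) R) (x : Fin N → R) (n : ℕ) (i : Fin N) :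
    g (orb φ x n i) = orb (fun j => map g (φ j)) (fun j => g (x j)) n i := by
  induction n generalizing i with
  | zero => rfl
  | succ n ih =>
    unfold orb at ih ⊢
    rw [Function.iterate_succ_apply', Function.iterate_succ_apply']
    have h : (fun j => g ((ev φ)^[n] x j)) =
        (ev fun j => map g (φ j))^[n] (fun j => g (x j)) := funext ih
    rw [← h]
    exact map_eval_aux g _ _

end Pool.Agent.H.MP_31a675_nt
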