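import Mathlib

/-!
# Polynomial maps, orbits, heights and skew products over the translation: definitions
-/

namespace Pool.Agent.H.MP_31a675_nt

open MvPolynomial

/-- The polynomial map of affine `N`-space with components `φ i`. -/
noncomputable def ev {R : Type*} [CommSemiring R] {N : ℕ} (φ : Fin N → MvPolynomial (Fin N) R)
    (x : Fin N → R) : Fin N → R :=
  fun i => eval x (φ i)

/-- The `n`-th point of the orbit of `x` under the polynomial map `φ`. -/
noncomputable def orb {R : Type*} [CommSemiring R] {N : ℕ} (φ : Fin N → MvPolynomial (Fin N) R)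
    (x : Fin N → R) (n : ℕ) : Fin N → R :=
  (ev φ)^[n] x

/-- The orbit of `x` is Zariski dense: only the zero polynomial vanishes on it. -/
def DenseOrbit {K : Type*} [Field K] {N : ℕ} (φ : Fin N → MvPolynomial (Fin N) K)
    (x : Fin N → K) : Prop :=
  ∀ P : MvPolynomial (Fin N) K, (∀ n, eval (orb φ x n) P = 0) → P = 0

/-- The logarithmic Weil height of the point `(1 : x_1 : ... : x_N)`, relative to `K`. -/
noncomputable def ht {K : Type*} [Field K] [NumberField K] {N : ℕ} (x : Fin N → K) : ℝ :=
  Height.logHeight (Fin.cons 1 x : Fin (N + 1) → K)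

/-- The components of the `n`-th iterate of the polynomial map `φ`. -/
noncomputable def itp {R : Type*} [CommSemiring R] {N : ℕ} (φ : Fin N → MvPolynomial (Fin N) R)
    (n : ℕ) (i : Fin N) : MvPolynomial (Fin N) R :=
  (aeval φ : MvPolynomial (Fin N) R →ₐ[R] MvPolynomial (Fin N) R)^[n] (X i)

/-- The degree of the `n`-th iterate of the polynomial map `φ`. -/
noncomputable def degIt {R : Type*} [CommSemiring R] {N : ℕ} (φ : Fin N → MvPolynomial (Fin N) R)
    (n : ℕ) : ℕ :=
  Finset.univ.sup fun i => (itp φ n i).totalDegree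

section Skew

variable {K : Type*} [Field K] {k : ℕ}

/-- The polynomial map `(t, y) ↦ (t + 1, F (t, y))`; the variable with index `0` is `t`. -/
noncomputable def skew (F : Fin k → MvPolynomial (Fin (k + 1)) K) :
    Fin (k + 1) → MvPolynomial (Fin (k + 1)) K :=
  Fin.cons (X 0 + 1) F

/-- The degree in `y` of a monomial in `(t, y)`. -/
def yd (m : Fin (k + 1) →₀ ℕ) : ℕ := ∑ j : Fin k, m j.succ

/-- The degree of `P` in `y` is at most `d`. -/
def YLe (d : ℕ) (P : MvPolynomial (Fin (k + 1)) K) : Prop := ∀ m ∈ P.support, yd m ≤ d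

/-- The part of degree `d` in `y` of `P`. -/
noncomputable def lead (d : ℕ) (P : MvPolynomial (Fin (k + 1)) K) : MvPolynomial (Fin (k + 1)) K :=
  ∑ m ∈ P.support with yd m = d, monomial m (coeff m P)

variable (K) in
/-- An algebraic closure of the field `K(t)`. -/
abbrev Om := AlgebraicClosure (RatFunc K)

variable (K) in
/-- The element `t` of the algebraic closure of `K(t)`. -/
noncomputable def tau : Om K := algebraMap (RatFunc K) (Om K) RatFunc.X

/-- The polynomials `S i` in `(t, y)` have no common zero `y ≠ 0` over an algebraic closure of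
`K(t)`. -/
def NoZero {ι : Type*} (S : ι → MvPolynomial (Fin (k + 1)) K) : Prop :=
  ∀ η : Fin k → Om K,
    (∀ i, aeval (Fin.cons (tau K) η : Fin (k + 1) → Om K) (S i) = 0) → η = 0

/-- The map `F` has degree at most `d` in `y` and its parts of degree `d` have no common zero: for
generic `t` the map `F (t, ·)` extends to a morphism of degree `d` of projective space. -/
structure Polar (F : Fin k → MvPolynomial (Fin (k + 1)) K) (d : ℕ) : Prop where
  le : ∀ i, YLe d (F i)
  nz : NoZero fun i => lead d (F i)

/-- The map `(t, y) ↦ (t + 1, F (t, y))` has degree `d` in `y` and an inverse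
`(t, y) ↦ (t - 1, G (t, y) / c (t - 1))` of degree at most `e` in `y`, and the parts of degree `d`
of `F` and of degree `e` of `G` have no common zero: a regular automorphism for generic `t`. -/
structure Regular (F : Fin k → MvPolynomial (Fin (k + 1)) K) (d : ℕ) : Prop where
  le : ∀ i, YLe d (F i)
  ne : ∃ i, lead d (F i) ≠ 0
  inv : ∃ (e : ℕ) (G : Fin k → MvPolynomial (Fin (k + 1)) K) (c : Polynomial K),
    2 ≤ e ∧ (∀ i, YLe e (G i)) ∧ c ≠ 0 ∧
    (∀ i : Fin k, aeval (skew F) (G i) = Polynomial.aeval (X 0) c * X i.succ) ∧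
    NoZero (Sum.elim (fun i => lead d (F i)) (fun i => lead e (G i)))

end Skew

end Pool.Agent.H.MP_31a675_nt
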