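import Pool.Agent.H.MP_31a675_nt.DegSeq
import Pool.Agent.H.MP_31a675_nt.Seq

/-!
# The first dynamical degree
-/

namespace Pool.Agent.H.MP_31a675_nt

open MvPolynomial Filter Topology

variable {K : Type*} [Field K] {k : ℕ}

theorem degIt_ge (F : Fin k → MvPolynomial (Fin (k + 1)) K) (d : ℕ) (hd : 2 ≤ d) (hk : 1 ≤ k)
    (hF : Polar F d ∨ Regular F d) (n : ℕ) : d ^ n ≤ degIt (skew F) n := by
  rcases hF with hF | hF
  · obtain ⟨ζ, h0, h⟩ := seq_polar F d hk hF
    exact degIt_ge_of_seq F d hd hF.le ζ h0 h n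
  · obtain ⟨ζ, h0, h⟩ := seq_regular F d hd hF
    exact degIt_ge_of_seq F d hd hF.le ζ h0 h n

/-- The degrees of the iterates grow like `d ^ n`: `root_lim` with `degIt_ge` and `degIt_le`; the
degree is at least `1`, so the maximum with `1` is the degree. -/
theorem degIt_lim (F : Fin k → MvPolynomial (Fin (k + 1)) K) (d : ℕ) (hd : 2 ≤ d) (hk : 1 ≤ k)
    (hF : Polar F d ∨ Regular F d) :
    Tendsto (fun n : ℕ => (degIt (skew F) n : ℝ) ^ ((1 : ℝ) / n)) atTop (𝓝 (d : ℝ)) := by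
  have hle : ∀ i, YLe d (F i) := by
    rcases hF with hF | hF
    · exact hF.le
    · exact hF.le
  obtain ⟨B, _, hB⟩ := degIt_le F d hd hle
  have hge : ∀ n, ((d : ℝ) ^ n) ≤ (degIt (skew F) n : ℝ) := by
    intro n
    exact_mod_cast degIt_ge F d hd hk hF n
  have h := root_lim d hd (fun n => (degIt (skew F) n : ℝ)) 1 B one_pos 0
    (fun n _ => by rw [one_mul]; exact hge n) hB
  refine h.congr fun n => ?_
  have h1 : (1 : ℝ) ≤ (degIt (skew F) n : ℝ) := by
    have hd1 : (1 : ℝ) ≤ (d : ℝ) := by exact_mod_cast (by omega : 1 ≤ d)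
    exact (one_le_pow₀ hd1).trans (hge n)
  rw [max_eq_left h1]

end Pool.Agent.H.MP_31a675_nt
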