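import Pool.Agent.H.MP_31a675_nt.Lead

/-!
# The upper bound for the degrees of the iterates
-/

namespace Pool.Agent.H.MP_31a675_nt

open MvPolynomial

variable {K : Type*} [Field K] {k : ℕ}

/-- The first component of the `n`-th iterate is `t + n`. -/
theorem itp_zero (F : Fin k → MvPolynomial (Fin (k + 1)) K) (n : ℕ) :
    itp (skew F) n 0 = X 0 + C (n : K) := by
  induction n with
  | zero =>
    show (X 0 : MvPolynomial (Fin (k + 1)) K) = X 0 + C ((0 : ℕ) : K)
    rw [Nat.cast_zero, C_0, add_zero]
  | succ n ih =>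
    have h1 : skew F 0 = X 0 + 1 := rfl
    rw [itp_succ, h1, map_add, aeval_X, map_one, ih, Nat.cast_add, Nat.cast_one, C_add, C_1,
      add_assoc]

/-- The other components of the iterate: `itp_succ`. -/
theorem itp_succ_succ (F : Fin k → MvPolynomial (Fin (k + 1)) K) (n : ℕ) (j : Fin k) :
    itp (skew F) (n + 1) j.succ = aeval (itp (skew F) n) (F j) := by
  have h1 : skew F j.succ = F j := by
    unfold skew
    rw [Fin.cons_succ]
  rw [itp_succ, h1]

/-- Substituting polynomials of total degree at most `1` for `t` and at most `D` for the `y_j` in a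
polynomial of degree at most `d` in `y` gives a polynomial of total degree at most `E + d D`, where
`E` is the total degree of `P`. Sum over the monomials; `totalDegree_finset_sum`,
`totalDegree_mul`, `totalDegree_pow`. -/
theorem totalDegree_subst (P : MvPolynomial (Fin (k + 1)) K) (d D : ℕ) (hP : YLe d P)
    (q : Fin (k + 1) → MvPolynomial (Fin (k + 1)) K) (h0 : (q 0).totalDegree ≤ 1)
    (hq : ∀ j : Fin k, (q j.succ).totalDegree ≤ D) :
    (aeval q P).totalDegree ≤ P.totalDegree + d * D := by
  rw [aeval_def, eval₂_eq']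
  refine totalDegree_finsetSum_le fun m hm => ?_
  have h1 : (∑ i : Fin (k + 1), m i) ≤ P.totalDegree := by
    have := le_totalDegree hm
    rwa [Finsupp.sum_fintype _ _ (fun _ => rfl)] at this
  have h2 : m 0 ≤ P.totalDegree := by
    rw [Fin.sum_univ_succ] at h1
    omega
  have h3 : yd m ≤ d := hP m hm
  have h4 : (∏ i : Fin (k + 1), q i ^ m i).totalDegree ≤ m 0 + yd m * D := by
    refine (totalDegree_finsetProd _ _).trans ?_
    rw [Fin.sum_univ_succ]
    refine Nat.add_le_add ?_ ?_
    · refine (totalDegree_pow _ _).trans ?_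
      calc m 0 * (q 0).totalDegree ≤ m 0 * 1 := Nat.mul_le_mul_left _ h0
        _ = m 0 := Nat.mul_one _
    · unfold yd
      rw [Finset.sum_mul]
      refine Finset.sum_le_sum fun j _ => ?_
      exact (totalDegree_pow _ _).trans (Nat.mul_le_mul_left _ (hq j))
  calc ((algebraMap K (MvPolynomial (Fin (k + 1)) K)) (coeff m P) *
      ∏ i : Fin (k + 1), q i ^ m i).totalDegree
      ≤ ((algebraMap K (MvPolynomial (Fin (k + 1)) K)) (coeff m P)).totalDegree +
        (∏ i : Fin (k + 1), q i ^ m i).totalDegree := totalDegree_mul _ _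
    _ ≤ 0 + (m 0 + yd m * D) := by
        refine Nat.add_le_add ?_ h4
        rw [algebraMap_eq, totalDegree_C]
    _ ≤ P.totalDegree + d * D := by
        rw [Nat.zero_add]
        exact Nat.add_le_add h2 (Nat.mul_le_mul_right _ h3)

/-- The degree of the next iterate. -/
theorem degIt_succ (F : Fin k → MvPolynomial (Fin (k + 1)) K) (d : ℕ) (hF : ∀ i, YLe d (F i)) :
    ∃ E : ℕ, 1 ≤ E ∧ ∀ n, degIt (skew F) (n + 1) ≤ E + d * degIt (skew F) n := by
  refine ⟨1 + Finset.univ.sup fun j => (F j).totalDegree, Nat.le_add_right _ _, fun n => ?_⟩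
  have h0 : ∀ n, (itp (skew F) n 0).totalDegree ≤ 1 := by
    intro n
    rw [itp_zero]
    refine (totalDegree_add _ _).trans ?_
    rw [totalDegree_X, totalDegree_C]
    decide
  have hle : ∀ i, (itp (skew F) n i).totalDegree ≤ degIt (skew F) n := fun i =>
    Finset.le_sup (f := fun i => (itp (skew F) n i).totalDegree) (Finset.mem_univ i)
  refine Finset.sup_le fun i _ => ?_
  refine Fin.cases ?_ (fun j => ?_) i
  · have := h0 (n + 1)
    omega
  · rw [itp_succ_succ]
    have h1 := totalDegree_subst (F j) d (degIt (skew F) n) (hF j) (itp (skew F) n) (h0 n)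
      (fun j => hle j.succ)
    have h2 : (F j).totalDegree ≤ Finset.univ.sup fun j => (F j).totalDegree :=
      Finset.le_sup (f := fun j => (F j).totalDegree) (Finset.mem_univ j)
    omega

/-- The degree of the `n`-th iterate is at most `(E + 1) d ^ n`: by induction
`degIt n + E ≤ (E + 1) d ^ n`. -/
theorem degIt_le (F : Fin k → MvPolynomial (Fin (k + 1)) K) (d : ℕ) (hd : 2 ≤ d)
    (hF : ∀ i, YLe d (F i)) :
    ∃ B : ℝ, 0 ≤ B ∧ ∀ n, (degIt (skew F) n : ℝ) ≤ B * (d : ℝ) ^ n := by
  obtain ⟨E, _, hE⟩ := degIt_succ F d hF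
  have key : ∀ n, degIt (skew F) n + E ≤ (E + 1) * d ^ n := by
    intro n
    induction n with
    | zero =>
      have h1 : degIt (skew F) 0 ≤ 1 := by
        refine Finset.sup_le fun i _ => ?_
        exact (totalDegree_X i).le
      rw [pow_zero]
      omega
    | succ n ih =>
      calc degIt (skew F) (n + 1) + E ≤ E + d * degIt (skew F) n + E :=
            Nat.add_le_add_right (hE n) _
        _ = d * degIt (skew F) n + 2 * E := by ring
        _ ≤ d * degIt (skew F) n + d * E := Nat.add_le_add_left (Nat.mul_le_mul_right _ hd) _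
        _ = d * (degIt (skew F) n + E) := by ring
        _ ≤ d * ((E + 1) * d ^ n) := Nat.mul_le_mul_left _ ih
        _ = (E + 1) * d ^ (n + 1) := by ring
  refine ⟨(E : ℝ) + 1, by positivity, fun n => ?_⟩
  have h1 : degIt (skew F) n ≤ (E + 1) * d ^ n := le_trans (Nat.le_add_right _ _) (key n)
  calc (degIt (skew F) n : ℝ) ≤ (((E + 1) * d ^ n : ℕ) : ℝ) := by exact_mod_cast h1
    _ = ((E : ℝ) + 1) * (d : ℝ) ^ n := by push_cast; ring

end Pool.Agent.H.MP_31a675_nt
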