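import Pool.Agent.H.MP_31a675_nt.Null
import Pool.Agent.H.MP_31a675_nt.DegUp

/-!
# The lower bound for the degrees of the iterates
-/

namespace Pool.Agent.H.MP_31a675_nt

open MvPolynomial

variable {K : Type*} [Field K] {k : ℕ}

/-- Sum over the monomials, the variable `0` apart. -/
theorem deglow_aeval {A : Type*} [CommRing A] [Algebra K A] (θ : Fin (k + 1) → A)
    (Q : MvPolynomial (Fin (k + 1)) K) :
    aeval θ Q = ∑ m ∈ Q.support,
      algebraMap K A (coeff m Q) * (θ 0 ^ m 0 * ∏ j : Fin k, θ j.succ ^ m j.succ) := by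
  rw [aeval_def, eval₂_eq']
  refine Finset.sum_congr rfl fun m _ => ?_
  rw [Fin.prod_univ_succ]

theorem deglow_lead {A : Type*} [CommRing A] [Algebra K A] (θ : Fin (k + 1) → A) (d : ℕ)
    (Q : MvPolynomial (Fin (k + 1)) K) :
    aeval θ (lead d Q) = ∑ m ∈ Q.support, if yd m = d then
      algebraMap K A (coeff m Q) * (θ 0 ^ m 0 * ∏ j : Fin k, θ j.succ ^ m j.succ) else 0 := by
  rw [lead, map_sum, Finset.sum_filter]
  refine Finset.sum_congr rfl fun m _ => ?_
  split_ifs with h
  · rw [aeval_monomial, Finsupp.prod_fintype _ _ (fun i => pow_zero _), Fin.prod_univ_succ]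
  · rfl

theorem deglow_prod_natDegree {A : Type*} [CommRing A] {ι : Type*} (s : Finset ι)
    (f : ι → Polynomial A) (e : ι → ℕ) (h : ∀ i ∈ s, (f i).natDegree ≤ e i) :
    (∏ i ∈ s, f i).natDegree ≤ ∑ i ∈ s, e i :=
  (Polynomial.natDegree_prod_le s f).trans (Finset.sum_le_sum h)

theorem deglow_prod_coeff {A : Type*} [CommRing A] {ι : Type*} (s : Finset ι)
    (f : ι → Polynomial A) (e : ι → ℕ) (h : ∀ i ∈ s, (f i).natDegree ≤ e i) :
    (∏ i ∈ s, f i).coeff (∑ i ∈ s, e i) = ∏ i ∈ s, (f i).coeff (e i) := by
  classical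
  induction s using Finset.induction_on with
  | empty => simp
  | insert a s ha ih =>
    rw [Finset.prod_insert ha, Finset.sum_insert ha, Finset.prod_insert ha,
      Polynomial.coeff_mul_add_eq_of_natDegree_le (h a (Finset.mem_insert_self a s))
        (deglow_prod_natDegree s f e fun i hi => h i (Finset.mem_insert_of_mem hi)),
      ih fun i hi => h i (Finset.mem_insert_of_mem hi)]

theorem deglow_pow_natDegree {A : Type*} [CommRing A] (f : Polynomial A) (D m : ℕ)
    (h : f.natDegree ≤ D) : (f ^ m).natDegree ≤ m * D :=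
  Polynomial.natDegree_pow_le.trans (Nat.mul_le_mul_left m h)

theorem deglow_CX {A : Type*} [CommRing A] (a : A) :
    (Polynomial.C a * Polynomial.X : Polynomial A).natDegree ≤ 1 :=
  (Polynomial.natDegree_C_mul_le _ _).trans Polynomial.natDegree_X_le

/-- the degree of a term -/
theorem deglow_term {A : Type*} [Field A] (u a : A) (m : Fin (k + 1) →₀ ℕ) (D : ℕ)
    (p : Fin k → Polynomial A) (hp : ∀ j, (p j).natDegree ≤ D) :
    (Polynomial.C u * (Polynomial.C a ^ m 0 * ∏ j : Fin k, p j ^ m j.succ)).natDegree ≤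
        yd m * D ∧
      (Polynomial.C u * (Polynomial.C a ^ m 0 * ∏ j : Fin k, p j ^ m j.succ)).coeff (yd m * D) =
        u * (a ^ m 0 * ∏ j : Fin k, (p j).coeff D ^ m j.succ) := by
  have hsum : yd m * D = ∑ j : Fin k, m j.succ * D := by
    rw [yd, Finset.sum_mul]
  have hb : ∀ j ∈ (Finset.univ : Finset (Fin k)), (p j ^ m j.succ).natDegree ≤ m j.succ * D :=
    fun j _ => deglow_pow_natDegree _ _ _ (hp j)
  have hC : Polynomial.C u * (Polynomial.C a ^ m 0 * ∏ j : Fin k, p j ^ m j.succ) =
      Polynomial.C (u * a ^ m 0) * ∏ j : Fin k, p j ^ m j.succ := by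
    rw [Polynomial.C_mul, Polynomial.C_pow]
    ring
  rw [hC, hsum]
  refine ⟨(Polynomial.natDegree_C_mul_le _ _).trans (deglow_prod_natDegree _ _ _ hb), ?_⟩
  rw [Polynomial.coeff_C_mul, deglow_prod_coeff _ _ _ hb, mul_assoc]
  congr 2
  exact Finset.prod_congr rfl fun j _ => Polynomial.coeff_pow_of_natDegree_le (hp j)

/-- Substitute `a` for `t` and polynomials `p j` in one variable of degree at most `D` for the `y_j`
in a polynomial `Q` of degree at most `d` in `y`: the result has degree at most `d D`, and its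
coefficient of degree `d D` is the value of the leading part of `Q` at the coefficients of degree `D`.
Sum over the monomials of `Q`; a monomial of degree less than `d` in `y` gives a polynomial of degree
at most `(d - 1) D < d D`; `Polynomial.natDegree_prod_le`,
`Polynomial.coeff_prod_of_natDegree_le`, `Polynomial.coeff_pow_of_natDegree_le`. -/
theorem subst_coeff {A : Type*} [Field A] [Algebra K A] (Q : MvPolynomial (Fin (k + 1)) K)
    (d D : ℕ) (hD : 1 ≤ D) (hQ : YLe d Q) (a : A) (p : Fin k → Polynomial A)
    (hp : ∀ j, (p j).natDegree ≤ D) :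
    (aeval (Fin.cons (Polynomial.C a) p : Fin (k + 1) → Polynomial A) Q).natDegree ≤ d * D ∧
      (aeval (Fin.cons (Polynomial.C a) p : Fin (k + 1) → Polynomial A) Q).coeff (d * D) =
        aeval (Fin.cons a (fun j => (p j).coeff D) : Fin (k + 1) → A) (lead d Q) := by
  have hmon : ∀ m ∈ Q.support, yd m * D ≤ d * D := fun m hm => Nat.mul_le_mul_right D (hQ m hm)
  rw [deglow_aeval, deglow_lead]
  simp only [Fin.cons_zero, Fin.cons_succ, Polynomial.algebraMap_apply]
  constructor
  · refine Polynomial.natDegree_sum_le_of_forall_le _ _ fun m hm => ?_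
    exact (deglow_term (algebraMap K A (coeff m Q)) a m D p hp).1.trans (hmon m hm)
  · rw [Polynomial.finsetSum_coeff]
    refine Finset.sum_congr rfl fun m hm => ?_
    obtain ⟨h1, h2⟩ := deglow_term (algebraMap K A (coeff m Q)) a m D p hp
    split_ifs with h
    · rw [← h]
      exact h2
    · refine Polynomial.coeff_eq_zero_of_natDegree_lt (lt_of_le_of_lt h1 ?_)
      exact Nat.mul_lt_mul_of_pos_right (lt_of_le_of_ne (hQ m hm) h) hD

/-- A substitution of polynomials of degree at most `1` in one variable does not raise the degree. -/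
theorem subst_natDegree {A : Type*} [Field A] [Algebra K A] (Q : MvPolynomial (Fin (k + 1)) K)
    (p : Fin (k + 1) → Polynomial A) (hp : ∀ j, (p j).natDegree ≤ 1) :
    (aeval p Q).natDegree ≤ Q.totalDegree := by
  rw [aeval_def, eval₂_eq']
  refine Polynomial.natDegree_sum_le_of_forall_le _ _ fun m hm => ?_
  rw [Polynomial.algebraMap_apply]
  refine (Polynomial.natDegree_C_mul_le _ _).trans ?_
  refine (deglow_prod_natDegree _ _ (fun i => m i * 1) fun i _ =>
    deglow_pow_natDegree _ _ _ (hp i)).trans ?_
  have h1 := le_totalDegree hm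
  rw [Finsupp.sum_fintype _ _ (fun _ => rfl)] at h1
  simpa using h1

/-- A sequence of nonzero vectors given by the leading parts forces the degree of the `n`-th iterate
to be at least `d ^ n`. Let `θ = (C τ, ζ_0 X)` and `p_n = aeval θ (itp (skew F) n)`. By induction
`p_n` has first component `C (τ + n)` (`itp_zero`), the other components have degree at most `d ^ n`
and coefficients `ζ n` of degree `d ^ n` (`subst_coeff`, `itp_succ_succ`). Conclude by
`subst_natDegree`. -/
theorem degIt_ge_of_seq (F : Fin k → MvPolynomial (Fin (k + 1)) K) (d : ℕ) (hd : 2 ≤ d)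
    (hF : ∀ i, YLe d (F i)) (ζ : ℕ → Fin k → Om K) (h0 : ∀ n, ζ n ≠ 0)
    (h : ∀ n i, ζ (n + 1) i =
      aeval (Fin.cons (tau K + (n : Om K)) (ζ n) : Fin (k + 1) → Om K) (lead d (F i))) (n : ℕ) :
    d ^ n ≤ degIt (skew F) n := by
  have key : ∀ n : ℕ,
      aeval (Fin.cons (Polynomial.C (tau K)) (fun j => Polynomial.C (ζ 0 j) * Polynomial.X) :
        Fin (k + 1) → Polynomial (Om K)) (itp (skew F) n 0) =
          Polynomial.C (tau K + (n : Om K)) ∧
      ∀ j : Fin k,
        (aeval (Fin.cons (Polynomial.C (tau K)) (fun j => Polynomial.C (ζ 0 j) * Polynomial.X) :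
          Fin (k + 1) → Polynomial (Om K)) (itp (skew F) n j.succ)).natDegree ≤ d ^ n ∧
        (aeval (Fin.cons (Polynomial.C (tau K)) (fun j => Polynomial.C (ζ 0 j) * Polynomial.X) :
          Fin (k + 1) → Polynomial (Om K)) (itp (skew F) n j.succ)).coeff (d ^ n) = ζ n j := by
    intro n
    refine ⟨?_, ?_⟩
    · rw [itp_zero, map_add, aeval_X, Fin.cons_zero, aeval_C, Polynomial.algebraMap_apply,
        map_natCast, Polynomial.C_add]
    · induction n with
      | zero =>
        intro j
        have h1 : itp (skew F) 0 j.succ = X j.succ := rfl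
        rw [h1, aeval_X, Fin.cons_succ, pow_zero]
        refine ⟨deglow_CX _, ?_⟩
        rw [Polynomial.coeff_C_mul, Polynomial.coeff_X_one, mul_one]
      | succ n ih =>
        intro j
        have h1 : aeval (Fin.cons (Polynomial.C (tau K))
            (fun j => Polynomial.C (ζ 0 j) * Polynomial.X) : Fin (k + 1) → Polynomial (Om K))
            (itp (skew F) (n + 1) j.succ) =
            aeval (Fin.cons (Polynomial.C (tau K + (n : Om K))) (fun i : Fin k =>
              aeval (Fin.cons (Polynomial.C (tau K))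
                (fun j => Polynomial.C (ζ 0 j) * Polynomial.X) : Fin (k + 1) → Polynomial (Om K))
                (itp (skew F) n i.succ)) : Fin (k + 1) → Polynomial (Om K)) (F j) := by
          rw [itp_succ_succ, comp_aeval_apply]
          congr 2
          funext i
          refine Fin.cases ?_ (fun i => ?_) i
          · rw [Fin.cons_zero, itp_zero, map_add, aeval_X, Fin.cons_zero, aeval_C,
              Polynomial.algebraMap_apply, map_natCast, Polynomial.C_add]
          · rw [Fin.cons_succ]
        obtain ⟨h2, h3⟩ := subst_coeff (F j) d (d ^ n) (Nat.one_le_pow _ _ (by omega)) (hF j)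
          (tau K + (n : Om K)) (fun i : Fin k =>
              aeval (Fin.cons (Polynomial.C (tau K))
                (fun j => Polynomial.C (ζ 0 j) * Polynomial.X) : Fin (k + 1) → Polynomial (Om K))
                (itp (skew F) n i.succ)) (fun i => (ih i).1)
        rw [h1, pow_succ' d n]
        refine ⟨h2, ?_⟩
        rw [h3, h n j]
        congr 3
        funext i
        exact (ih i).2
  obtain ⟨j, hj⟩ : ∃ j, ζ n j ≠ 0 := by
    by_contra hcon
    push Not at hcon
    exact h0 n (funext hcon)
  obtain ⟨h1, h2⟩ := (key n).2 j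
  have h3 : d ^ n ≤ (aeval (Fin.cons (Polynomial.C (tau K))
      (fun j => Polynomial.C (ζ 0 j) * Polynomial.X) :
        Fin (k + 1) → Polynomial (Om K)) (itp (skew F) n j.succ)).natDegree := by
    refine Polynomial.le_natDegree_of_ne_zero ?_
    rw [h2]
    exact hj
  refine h3.trans ((subst_natDegree _ _ fun i => ?_).trans ?_)
  · refine Fin.cases ?_ (fun i => ?_) i
    · rw [Fin.cons_zero, Polynomial.natDegree_C]
      exact Nat.zero_le _
    · rw [Fin.cons_succ]
      exact deglow_CX _
  · exact Finset.le_sup (f := fun i => (itp (skew F) n i).totalDegree) (Finset.mem_univ j.succ)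

end Pool.Agent.H.MP_31a675_nt
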