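import Pool.Agent.H.MP_31a675_nt.Trans
import Pool.Agent.H.MP_31a675_nt.DegLow

/-!
# The sequences of leading coefficients
-/

namespace Pool.Agent.H.MP_31a675_nt

open MvPolynomial

variable {K : Type*} [Field K] {k : ℕ}

/-- The leading part of `G` vanishes at `(a + 1, lead d F (a, ζ))` if `G (t + 1, F (t, y)) = c (t) y`:
substitute `(C a, ζ X)` in this identity; the left side has coefficient
`lead e G (a + 1, lead d F (a, ζ))` in degree `d e` (`subst_coeff` twice) and the right side has
degree at most `1 < d e`. -/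
theorem lead_comp {A : Type*} [Field A] [Algebra K A]
    (F G : Fin k → MvPolynomial (Fin (k + 1)) K) (d e : ℕ) (hd : 2 ≤ d) (he : 2 ≤ e)
    (hF : ∀ i, YLe d (F i)) (hG : ∀ i, YLe e (G i)) (c : Polynomial K)
    (h : ∀ i : Fin k, aeval (skew F) (G i) = Polynomial.aeval (X 0) c * X i.succ)
    (a : A) (ζ : Fin k → A) (i : Fin k) :
    aeval (Fin.cons (a + 1) (fun j => aeval (Fin.cons a ζ : Fin (k + 1) → A) (lead d (F j))) :
      Fin (k + 1) → A) (lead e (G i)) = 0 := by
  set θ : Fin (k + 1) → Polynomial A :=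
    Fin.cons (Polynomial.C a) (fun j => Polynomial.C (ζ j) * Polynomial.X) with hθ
  have hdeg1 : ∀ j, (Polynomial.C (ζ j) * Polynomial.X : Polynomial A).natDegree ≤ 1 := fun j =>
    (Polynomial.natDegree_C_mul_le _ _).trans Polynomial.natDegree_X_le
  have h1 : ∀ j, (aeval θ (F j)).natDegree ≤ d ∧ (aeval θ (F j)).coeff d =
      aeval (Fin.cons a ζ : Fin (k + 1) → A) (lead d (F j)) := by
    intro j
    have h2 := subst_coeff (F j) d 1 le_rfl (hF j) a
      (fun j => Polynomial.C (ζ j) * Polynomial.X) hdeg1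
    rw [mul_one] at h2
    refine ⟨h2.1, h2.2.trans ?_⟩
    have h3 : (fun j => (Polynomial.C (ζ j) * Polynomial.X : Polynomial A).coeff 1) = ζ := by
      funext j
      simp
    rw [h3]
  have h4 := subst_coeff (G i) e d (by omega) (hG i) (a + 1) (fun j => aeval θ (F j))
    (fun j => (h1 j).1)
  have h5 : (fun j => (aeval θ (F j)).coeff d) =
      fun j => aeval (Fin.cons a ζ : Fin (k + 1) → A) (lead d (F j)) := by
    funext j
    exact (h1 j).2
  rw [h5] at h4
  rw [← h4.2]
  have h6 : (Fin.cons (Polynomial.C (a + 1)) (fun j => aeval θ (F j)) :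
      Fin (k + 1) → Polynomial A) = fun j => aeval θ (skew F j) := by
    funext j
    refine Fin.cases ?_ (fun j => ?_) j
    · simp [skew, hθ]
    · simp [skew]
  have h7 : aeval (fun j => aeval θ (skew F j)) (G i) = aeval θ (aeval (skew F) (G i)) := by
    have h8 : (aeval (fun j => aeval θ (skew F j)) : MvPolynomial (Fin (k + 1)) K →ₐ[K] _) =
        (aeval θ).comp (aeval (skew F)) := by
      apply MvPolynomial.algHom_ext
      intro j
      simp
    rw [h8]
    rfl
  have h9 : aeval θ (Polynomial.aeval (X 0) c * X i.succ : MvPolynomial (Fin (k + 1)) K) =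
      Polynomial.C (Polynomial.aeval a c * ζ i) * Polynomial.X := by
    rw [map_mul, ← Polynomial.aeval_algHom_apply]
    have h10 : Polynomial.aeval (Polynomial.C a) c = Polynomial.C (Polynomial.aeval a c) :=
      Polynomial.aeval_algHom_apply (Polynomial.CAlgHom : A →ₐ[K] Polynomial A) a c
    simp only [aeval_X, hθ, Fin.cons_zero, Fin.cons_succ]
    rw [h10, Polynomial.C_mul, mul_assoc]
  rw [h6, h7, h i, h9]
  have h11 : 1 < e * d := by nlinarith
  exact Polynomial.coeff_eq_zero_of_natDegree_lt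
    (lt_of_le_of_lt ((Polynomial.natDegree_C_mul_le _ _).trans Polynomial.natDegree_X_le) h11)

/-- the sequence with given first term -/
noncomputable def DegSeq_z (F : Fin k → MvPolynomial (Fin (k + 1)) K) (d : ℕ)
    (z : Fin k → Om K) : ℕ → Fin k → Om K
  | 0 => z
  | n + 1 => fun i =>
      aeval (Fin.cons (tau K + (n : Om K)) (DegSeq_z F d z n) : Fin (k + 1) → Om K) (lead d (F i))

/-- The polarised case: start with any `ζ 0 ≠ 0`; `noZero_shift`. -/
theorem seq_polar (F : Fin k → MvPolynomial (Fin (k + 1)) K) (d : ℕ) (hk : 1 ≤ k)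
    (hF : Polar F d) :
    ∃ ζ : ℕ → Fin k → Om K, (∀ n, ζ n ≠ 0) ∧ ∀ n i, ζ (n + 1) i =
      aeval (Fin.cons (tau K + (n : Om K)) (ζ n) : Fin (k + 1) → Om K) (lead d (F i)) := by
  refine ⟨DegSeq_z F d fun _ => 1, fun n => ?_, fun n i => rfl⟩
  induction n with
  | zero =>
    intro h
    have h1 := congrFun h ⟨0, hk⟩
    exact one_ne_zero h1
  | succ n ih =>
    intro h
    exact ih (noZero_shift (fun i => lead d (F i)) hF.nz n _ fun i => congrFun h i)

/-- The regular case: start with `ζ 0` such that `lead d (F i) (τ, ζ 0) ≠ 0` for some `i`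
(`exists_value_ne`). Then `ζ 0 ≠ 0` by homogeneity (`lead_smul`), and by induction for `n ≥ 1`
`ζ n ≠ 0` and all `lead e G (τ + n, ζ n)` vanish (`lead_comp`), so that the
`lead d F (τ + n, ζ n)` do not all vanish (`noZero_shift`). -/
theorem seq_regular (F : Fin k → MvPolynomial (Fin (k + 1)) K) (d : ℕ) (hd : 2 ≤ d)
    (hF : Regular F d) :
    ∃ ζ : ℕ → Fin k → Om K, (∀ n, ζ n ≠ 0) ∧ ∀ n i, ζ (n + 1) i =
      aeval (Fin.cons (tau K + (n : Om K)) (ζ n) : Fin (k + 1) → Om K) (lead d (F i)) := by
  obtain ⟨i₀, hi₀⟩ := hF.ne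
  obtain ⟨η, hη⟩ := exists_value_ne (lead d (F i₀)) hi₀
  obtain ⟨e, G, c, he, hG, hc, hFG, hnz⟩ := hF.inv
  refine ⟨DegSeq_z F d η, fun n => ?_, fun n i => rfl⟩
  have h1 : ∀ n i, aeval (Fin.cons (tau K + ((n + 1 : ℕ) : Om K)) (DegSeq_z F d η (n + 1)) :
      Fin (k + 1) → Om K) (lead e (G i)) = 0 := by
    intro n i
    have h2 := lead_comp F G d e hd he hF.le hG c hFG (tau K + (n : Om K)) (DegSeq_z F d η n) i
    have h3 : tau K + ((n + 1 : ℕ) : Om K) = tau K + (n : Om K) + 1 := by
      push_cast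
      ring
    rw [h3]
    exact h2
  have h4 : ∀ n, DegSeq_z F d η (n + 1) ≠ 0 := by
    intro n
    induction n with
    | zero =>
      intro h
      apply hη
      have h5 : aeval (Fin.cons (tau K + ((0 : ℕ) : Om K)) η : Fin (k + 1) → Om K)
          (lead d (F i₀)) = 0 := congrFun h i₀
      rw [Nat.cast_zero, add_zero] at h5
      exact h5
    | succ n ih =>
      intro h
      refine ih (noZero_shift (Sum.elim (fun i => lead d (F i)) (fun i => lead e (G i))) hnz
        (n + 1) _ ?_)
      rintro (i | i)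
      · exact congrFun h i
      · exact h1 n i
  rcases n with _ | n
  · intro h
    apply hη
    have h5 : η = 0 := h
    have h6 := lead_smul d (F i₀) (tau K) 0 η
    have h7 : (fun j => 0 * η j) = η := by
      rw [h5]
      funext j
      simp
    rw [h7, zero_pow (by omega), zero_mul] at h6
    exact h6
  · exact h4 n

end Pool.Agent.H.MP_31a675_nt
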