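import Pool.Agent.H.MP_31a675_nt.Rp

/-!
# Denominators, houses and heights; values of polynomials with integral coefficients
-/

namespace Pool.Agent.H.MP_31a675_nt

open MvPolynomial NumberField Height

variable {K : Type*} [Field K] [NumberField K]

/-- The polynomial with exponents at most `D` in each variable and coefficients `ξ`, evaluated at
`x`. -/
noncomputable def val {N D : ℕ} (ξ : (Fin N → Fin (D + 1)) → 𝓞 K) (x : Fin N → K) : K :=
  ∑ α, (ξ α : K) * ∏ i, x i ^ (α i : ℕ)

/-- The house is at most the height (relative to `K`): every archimedean absolute value of `x` is at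
most `mulHeight₁ x`. -/
theorem house_le_mulHeight (x : K) : house x ≤ mulHeight₁ x := by
  have key : ∀ φ : K →+* ℂ, ‖φ x‖ ≤ mulHeight₁ x := by
    intro φ
    have h1 : ‖φ x‖ = (InfinitePlace.mk φ) x := (InfinitePlace.apply φ x).symm
    have h2 : ∀ v : InfinitePlace K, (1 : ℝ) ≤ max (v x) 1 ^ v.mult :=
      fun v => one_le_pow₀ (le_max_right _ _)
    have h3 : (InfinitePlace.mk φ) x ≤ ∏ v : InfinitePlace K, max (v x) 1 ^ v.mult := by
      classical
      rw [← Finset.mul_prod_erase Finset.univ _ (Finset.mem_univ (InfinitePlace.mk φ))]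
      have h4 : (1 : ℝ) ≤ ∏ v ∈ Finset.univ.erase (InfinitePlace.mk φ), max (v x) 1 ^ v.mult :=
        Finset.prod_induction _ (fun y : ℝ => 1 ≤ y) (fun a b => one_le_mul_of_one_le_of_one_le)
          le_rfl (fun v _ => h2 v)
      have h5 : (InfinitePlace.mk φ) x ≤
          max ((InfinitePlace.mk φ) x) 1 ^ (InfinitePlace.mk φ).mult :=
        (le_max_left _ _).trans (le_self_pow₀ (le_max_right _ _) (InfinitePlace.mult_ne_zero))
      exact h5.trans (le_mul_of_one_le_right (by linarith [h2 (InfinitePlace.mk φ)]) h4)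
    have h6 : (1 : ℝ) ≤ ∏ᶠ v : FinitePlace K, max (v x) 1 :=
      finprod_induction (fun y : ℝ => 1 ≤ y) le_rfl (fun a b => one_le_mul_of_one_le_of_one_le)
        (fun v => le_max_right _ _)
    rw [h1, NumberField.mulHeight₁_eq]
    have h7 : (0 : ℝ) ≤ ∏ v : InfinitePlace K, max (v x) 1 ^ v.mult :=
      Finset.prod_nonneg fun v _ => by linarith [h2 v]
    exact h3.trans (le_mul_of_one_le_right h7 h6)
  rw [house_eq_sup']
  obtain ⟨φ, -, hφ⟩ := Finset.exists_mem_eq_sup' (Finset.univ_nonempty (α := K →+* ℂ))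
    (fun φ : K →+* ℂ => ‖φ x‖₊)
  rw [hφ]
  exact key φ

omit [NumberField K] in
theorem Den_natCast (n : ℕ) : IsIntegral ℤ (n : K) := by
  have := isIntegral_algebraMap (R := ℤ) (A := K) (x := (n : ℤ))
  simpa using this

/-- A common denominator: the product of the denominators from `exists_nat_le_mulHeight₁`. -/
theorem exists_den {N : ℕ} (x : Fin N → K) (E : ℝ) (hE : ∀ i, mulHeight₁ (x i) ≤ E) :
    ∃ q : ℕ, q ≠ 0 ∧ (q : ℝ) ≤ E ^ N ∧ ∀ i, IsIntegral ℤ ((q : K) * x i) := by
  classical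
  choose n hn0 hn1 hn2 using fun i => exists_nat_le_mulHeight₁ (x i)
  refine ⟨∏ i, n i, Finset.prod_ne_zero_iff.2 fun i _ => hn0 i, ?_, fun i => ?_⟩
  · push_cast
    calc ∏ i, (n i : ℝ) ≤ ∏ _i : Fin N, E :=
          Finset.prod_le_prod (fun i _ => Nat.cast_nonneg _) (fun i _ => (hn1 i).trans (hE i))
      _ = E ^ N := by rw [Finset.prod_const, Finset.card_univ, Fintype.card_fin]
  · have h : (((∏ i, n i : ℕ) : K)) * x i =
        ((∏ j ∈ Finset.univ.erase i, n j : ℕ) : K) * ((n i : K) * x i) := by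
      rw [← Finset.prod_erase_mul Finset.univ n (Finset.mem_univ i)]
      push_cast
      ring
    rw [h]
    exact (Den_natCast _).mul (hn2 i)

theorem Den_house_prod {ι : Type*} (s : Finset ι) (f : ι → K) :
    house (∏ i ∈ s, f i) ≤ ∏ i ∈ s, house (f i) := by
  simpa [house, map_prod] using Finset.norm_prod_le s fun i => canonicalEmbedding K (f i)

/-- If `q` is a common denominator of the coordinates, then `q ^ (N D)` is one of every monomial with
exponents at most `D`, with the bound for the house. -/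
theorem mon_house {N : ℕ} (D : ℕ) (x : Fin N → K) (E : ℝ) (h1 : 1 ≤ E)
    (hE : ∀ i, mulHeight₁ (x i) ≤ E) (q : ℕ) (hq : (q : ℝ) ≤ E ^ N)
    (hint : ∀ i, IsIntegral ℤ ((q : K) * x i)) (α : Fin N → Fin (D + 1)) :
    IsIntegral ℤ ((q : K) ^ (N * D) * ∏ i, x i ^ (α i : ℕ)) ∧
      house ((q : K) ^ (N * D) * ∏ i, x i ^ (α i : ℕ)) ≤ E ^ (N * (N + 1) * D) := by
  have hα : ∀ i, (α i : ℕ) ≤ D := fun i => Nat.lt_succ_iff.1 (α i).2
  have hE0 : (0 : ℝ) ≤ E := by linarith
  constructor
  · have h2 : (q : K) ^ (N * D) * ∏ i, x i ^ (α i : ℕ) =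
        ∏ i, ((q : K) ^ (D - (α i : ℕ)) * ((q : K) * x i) ^ (α i : ℕ)) := by
      have h3 : (q : K) ^ (N * D) = ∏ _i : Fin N, (q : K) ^ D := by
        rw [Finset.prod_const, Finset.card_univ, Fintype.card_fin, ← pow_mul, mul_comm]
      rw [h3, ← Finset.prod_mul_distrib]
      refine Finset.prod_congr rfl fun i _ => ?_
      rw [mul_pow, ← mul_assoc, ← pow_add, Nat.sub_add_cancel (hα i)]
    rw [h2]
    exact IsIntegral.prod _ fun i _ => ((Den_natCast q).pow _).mul ((hint i).pow _)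
  · have h2 : house ((q : K) ^ (N * D) * ∏ i, x i ^ (α i : ℕ)) =
        (q : ℝ) ^ (N * D) * house (∏ i, x i ^ (α i : ℕ)) := by
      have := house_nat_mul (K := K) (∏ i, x i ^ (α i : ℕ)) (q ^ (N * D))
      push_cast at this
      exact this
    rw [h2]
    have h3 : house (∏ i, x i ^ (α i : ℕ)) ≤ E ^ (N * D) := by
      refine (Den_house_prod _ _).trans ?_
      calc ∏ i, house (x i ^ (α i : ℕ)) ≤ ∏ _i : Fin N, E ^ D := by
            refine Finset.prod_le_prod (fun i _ => house_nonneg _) fun i _ => ?_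
            calc house (x i ^ (α i : ℕ)) ≤ house (x i) ^ (α i : ℕ) := house_pow_le _ _
              _ ≤ E ^ (α i : ℕ) :=
                  pow_le_pow_left₀ (house_nonneg _) ((house_le_mulHeight _).trans (hE i)) _
              _ ≤ E ^ D := pow_le_pow_right₀ h1 (hα i)
        _ = E ^ (N * D) := by
            rw [Finset.prod_const, Finset.card_univ, Fintype.card_fin, ← pow_mul, mul_comm]
    have h4 : (q : ℝ) ^ (N * D) ≤ (E ^ N) ^ (N * D) :=
      pow_le_pow_left₀ (Nat.cast_nonneg _) hq _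
    calc (q : ℝ) ^ (N * D) * house (∏ i, x i ^ (α i : ℕ)) ≤ (E ^ N) ^ (N * D) * E ^ (N * D) :=
          mul_le_mul h4 h3 (house_nonneg _) (pow_nonneg (pow_nonneg hE0 _) _)
      _ = E ^ (N * (N + 1) * D) := by
          rw [← pow_mul, ← pow_add]
          congr 1
          ring

/-- The value of a polynomial, times a power of a common denominator. -/
theorem val_house {N D : ℕ} (ξ : (Fin N → Fin (D + 1)) → 𝓞 K) (B : ℝ)
    (hB : ∀ α, house ((ξ α : 𝓞 K) : K) ≤ B) (x : Fin N → K) (E : ℝ) (h1 : 1 ≤ E)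
    (hE : ∀ i, mulHeight₁ (x i) ≤ E) :
    ∃ q : ℕ, q ≠ 0 ∧ IsIntegral ℤ ((q : K) * val ξ x) ∧
      house ((q : K) * val ξ x) ≤ ((D : ℝ) + 1) ^ N * B * E ^ (N * (N + 1) * D) := by
  obtain ⟨q, hq0, hq1, hq2⟩ := exists_den x E hE
  refine ⟨q ^ (N * D), pow_ne_zero _ hq0, ?_⟩
  have hmon := mon_house D x E h1 hE q hq1 hq2
  have hval : ((q ^ (N * D) : ℕ) : K) * val ξ x =
      ∑ α, (ξ α : K) * ((q : K) ^ (N * D) * ∏ i, x i ^ (α i : ℕ)) := by
    unfold val
    rw [Finset.mul_sum]
    refine Finset.sum_congr rfl fun α _ => ?_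
    push_cast
    ring
  have hE0 : (0 : ℝ) ≤ E := by linarith
  rw [hval]
  constructor
  · exact IsIntegral.sum _ fun α _ => (RingOfIntegers.isIntegral_coe (ξ α)).mul (hmon α).1
  · refine (house_sum_le_sum_house _ _).trans ?_
    calc ∑ α, house ((ξ α : K) * ((q : K) ^ (N * D) * ∏ i, x i ^ (α i : ℕ)))
        ≤ ∑ _α : (Fin N → Fin (D + 1)), B * E ^ (N * (N + 1) * D) := by
          refine Finset.sum_le_sum fun α _ => (house_mul_le _ _).trans ?_
          exact mul_le_mul (hB α) (hmon α).2 (house_nonneg _) ((house_nonneg _).trans (hB α))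
      _ = ((D : ℝ) + 1) ^ N * B * E ^ (N * (N + 1) * D) := by
          rw [Finset.sum_const, Finset.card_univ, Fintype.card_fun, Fintype.card_fin,
            Fintype.card_fin, nsmul_eq_mul]
          push_cast
          ring

end Pool.Agent.H.MP_31a675_nt
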