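import Pool.Agent.H.MP_31a675_nt.Loc

/-!
# Local bounds for the values of polynomials in `(t, y)`
-/

namespace Pool.Agent.H.MP_31a675_nt

open MvPolynomial NumberField Height

variable {K : Type*} [Field K] {k : ℕ}

/-- A polynomial of degree at most `d` in `y`: for suitable constants (the vector `a` of its
coefficients, the number `κ` of its monomials, a bound `E` for the degree in `t`), at every place
`|P (t, y)| ≤ κ |a| |t|^E |y|^d`, with the norms of `(1, a)`, `(1, t)`, `(1, y)`. -/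
theorem poly_bound (P : MvPolynomial (Fin (k + 1)) K) (d : ℕ) (hP : YLe d P) :
    ∃ (r : ℕ) (a : Fin r → K) (κ : ℝ) (E : ℕ), 1 ≤ κ ∧
      ∀ (v : AbsoluteValue K ℝ) (κ' : ℝ), Adm κ v κ' → ∀ (t : K) (y : Fin k → K),
        v (eval (Fin.cons t y) P) ≤ κ' * (nrm v a * nrm v (one t) ^ E * nrm v y ^ d) := by
  classical
  refine ⟨P.support.card, fun i => coeff ((P.support.equivFin.symm i : P.support) :
    Fin (k + 1) →₀ ℕ) P, max 1 (P.support.card : ℝ), P.support.sup fun m => m 0,
    le_max_left _ _, ?_⟩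
  intro v κ' ha t y
  set a : Fin P.support.card → K := fun i => coeff ((P.support.equivFin.symm i : P.support) :
    Fin (k + 1) →₀ ℕ) P with hadef
  have h1a : 1 ≤ nrm v a := one_le_nrm v a
  have h1t : 1 ≤ nrm v (one t) := one_le_nrm v (one t)
  have h1y : 1 ≤ nrm v y := one_le_nrm v y
  rw [eval_eq']
  apply sum_adm v ha P.support _ _ (by positivity) (le_max_right _ _)
  intro m hm
  have hc : v (coeff m P) ≤ nrm v a := by
    have h := le_nrm v a (P.support.equivFin ⟨m, hm⟩)
    rw [hadef] at h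
    simpa using h
  have ht : v t ^ m 0 ≤ nrm v (one t) ^ (P.support.sup fun m => m 0) := by
    have h0 : v t ≤ nrm v (one t) := le_nrm v (one t) 0
    have hE : m 0 ≤ P.support.sup fun m => m 0 :=
      Finset.le_sup (f := fun m : Fin (k + 1) →₀ ℕ => m 0) hm
    calc v t ^ m 0 ≤ nrm v (one t) ^ m 0 := pow_le_pow_left₀ (v.nonneg t) h0 _
      _ ≤ _ := pow_le_pow_right₀ h1t hE
  have hy : ∏ j : Fin k, v (y j) ^ m j.succ ≤ nrm v y ^ d := by
    calc ∏ j : Fin k, v (y j) ^ m j.succ ≤ ∏ j : Fin k, nrm v y ^ m j.succ := by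
          apply Finset.prod_le_prod
          · intro j _
            exact pow_nonneg (v.nonneg _) _
          · intro j _
            exact pow_le_pow_left₀ (v.nonneg _) (le_nrm v y j) _
      _ = nrm v y ^ yd m := by
          rw [Finset.prod_pow_eq_pow_sum]
          rfl
      _ ≤ _ := pow_le_pow_right₀ h1y (hP m hm)
  rw [map_mul, Fin.prod_univ_succ]
  simp only [Fin.cons_zero, Fin.cons_succ, map_mul, map_pow, map_prod]
  rw [mul_assoc]
  have hy0 : 0 ≤ ∏ j : Fin k, v (y j) ^ m j.succ :=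
    Finset.prod_nonneg fun j _ => pow_nonneg (v.nonneg _) _
  apply mul_le_mul hc _ (mul_nonneg (pow_nonneg (v.nonneg _) _) hy0) (by linarith)
  exact mul_le_mul ht hy hy0 (by positivity)

/-- The same with common constants for a finite family (concatenate the vectors, take the maxima of
the other constants; all norms are at least `1`). -/
theorem poly_bound_family {ι : Type} [Fintype ι] (P : ι → MvPolynomial (Fin (k + 1)) K) (d : ι → ℕ)
    (hP : ∀ i, YLe (d i) (P i)) :
    ∃ (r : ℕ) (a : Fin r → K) (κ : ℝ) (E : ℕ), 1 ≤ κ ∧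
      ∀ (v : AbsoluteValue K ℝ) (κ' : ℝ), Adm κ v κ' → ∀ (i : ι) (t : K) (y : Fin k → K),
        v (eval (Fin.cons t y) (P i)) ≤ κ' * (nrm v a * nrm v (one t) ^ E * nrm v y ^ (d i)) := by
  classical
  choose r a κ E hκ h using fun i => poly_bound (P i) (d i) (hP i)
  set e : (Σ i, Fin (r i)) ≃ Fin (Fintype.card (Σ i, Fin (r i))) :=
    Fintype.equivFin (Σ i, Fin (r i)) with he
  refine ⟨Fintype.card (Σ i, Fin (r i)), fun x => a (e.symm x).1 (e.symm x).2,
    1 + ∑ i, κ i, ∑ i, E i, ?_, ?_⟩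
  · have : 0 ≤ ∑ i, κ i := Finset.sum_nonneg fun i _ => by linarith [hκ i]
    linarith
  intro v κ' ha i t y
  have hκ'0 : 0 ≤ κ' := by linarith [ha.1]
  have hi : Adm (κ i) v κ' := by
    refine ⟨ha.1, ha.2.imp (fun h1 => ?_) id⟩
    have h2 : κ i ≤ ∑ i, κ i :=
      Finset.single_le_sum (f := κ) (fun j _ => by linarith [hκ j]) (Finset.mem_univ i)
    linarith
  refine (h i v κ' hi t y).trans ?_
  have h1t : 1 ≤ nrm v (one t) := one_le_nrm v (one t)
  have h1y : 1 ≤ nrm v y := one_le_nrm v y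
  have hna : nrm v (a i) ≤ nrm v (fun x => a (e.symm x).1 (e.symm x).2) := by
    apply nrm_le v (a i) _ (one_le_nrm v _)
    intro j
    have h3 := le_nrm v (fun x => a (e.symm x).1 (e.symm x).2) (e ⟨i, j⟩)
    have h4 : ∀ x : Σ i, Fin (r i), x = ⟨i, j⟩ → v (a x.1 x.2) = v (a i j) := by
      rintro x rfl
      rfl
    rwa [h4 _ (e.symm_apply_apply _)] at h3
  have hE : nrm v (one t) ^ E i ≤ nrm v (one t) ^ ∑ i, E i :=
    pow_le_pow_right₀ h1t
      (Finset.single_le_sum (f := E) (fun j _ => Nat.zero_le _) (Finset.mem_univ i))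
  have h1a : 1 ≤ nrm v (a i) := one_le_nrm v (a i)
  apply mul_le_mul_of_nonneg_left _ hκ'0
  apply mul_le_mul_of_nonneg_right _ (by positivity)
  exact mul_le_mul hna hE (by positivity) (by linarith)

end Pool.Agent.H.MP_31a675_nt
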