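import Pool.Agent.H.MP_31a675_nt.Loc

/-!
# Heights along the orbit of the translation
-/

namespace Pool.Agent.H.MP_31a675_nt

open MvPolynomial NumberField Height

variable {K : Type*} [Field K] {k : ℕ}

private theorem ht_one_eq [NumberField K] (t : K) : ht (one t) = logHeight₁ t := by
  rw [logHeight₁_eq_logHeight, logHeight_swap]
  unfold ht
  congr 1
  funext i
  refine Fin.cases ?_ (fun j => ?_) i
  · rfl
  · have hj : j = 0 := Subsingleton.elim _ _
    subst hj
    rfl

/-- The height of `c (t)` and of its inverse, for a polynomial `c` in one variable. -/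
theorem ht_inv_poly [NumberField K] (c : Polynomial K) :
    ∃ (C : ℝ) (E : ℕ), 0 ≤ C ∧ ∀ t : K, ht (one (c.eval t)⁻¹) ≤ C + E * ht (one t) := by
  classical
  refine ⟨(totalWeight K) * Real.log (Finset.range (c.natDegree + 1)).card +
    ∑ i ∈ Finset.range (c.natDegree + 1), logHeight₁ (c.coeff i),
    ∑ i ∈ Finset.range (c.natDegree + 1), i, ?_, ?_⟩
  · refine add_nonneg (mul_nonneg (Nat.cast_nonneg _) (Real.log_natCast_nonneg _)) ?_
    exact Finset.sum_nonneg fun i _ => zero_le_logHeight₁ _
  · intro t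
    rw [ht_one_eq, ht_one_eq, logHeight₁_inv, Polynomial.eval_eq_sum_range]
    refine (logHeight₁_sum_le _ _).trans ?_
    have h1 : ∑ i ∈ Finset.range (c.natDegree + 1), logHeight₁ (c.coeff i * t ^ i) ≤
        ∑ i ∈ Finset.range (c.natDegree + 1), (logHeight₁ (c.coeff i) + i * logHeight₁ t) := by
      refine Finset.sum_le_sum fun i _ => ?_
      refine (logHeight₁_mul_le _ _).trans ?_
      rw [logHeight₁_pow]
    rw [Finset.sum_add_distrib, ← Finset.sum_mul] at h1
    push_cast
    linarith

/-- The height of `t + n` grows like `log n`. -/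
theorem ht_add_nat [NumberField K] (t : K) :
    ∃ C : ℝ, 0 ≤ C ∧ ∀ n : ℕ, ht (one (t + n)) ≤ C * Real.log ((n : ℝ) + 2) := by
  have hl2 : 0 < Real.log 2 := Real.log_pos (by norm_num)
  have hT : 0 ≤ (totalWeight K : ℝ) := Nat.cast_nonneg _
  have hh : 0 ≤ logHeight₁ t := zero_le_logHeight₁ t
  refine ⟨2 * (totalWeight K : ℝ) + logHeight₁ t / Real.log 2, ?_, ?_⟩
  · positivity
  · intro n
    have hn : logHeight₁ (n : K) ≤ (totalWeight K : ℝ) * Real.log n := by
      have h1 := logHeight₁_sum_le (K := K) (Finset.range n) (fun _ => (1 : K))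
      simpa using h1
    have hlog : Real.log 2 ≤ Real.log ((n : ℝ) + 2) :=
      Real.log_le_log (by norm_num) (by linarith [(Nat.cast_nonneg n : (0 : ℝ) ≤ n)])
    have hlog' : Real.log (n : ℝ) ≤ Real.log ((n : ℝ) + 2) := by
      rcases Nat.eq_zero_or_pos n with h0 | h0
      · subst h0
        simp only [Nat.cast_zero, Real.log_zero, zero_add]
        exact hl2.le
      · exact Real.log_le_log (by exact_mod_cast h0) (by linarith)
    rw [ht_one_eq]
    have h2 := logHeight₁_add_le t (n : K)
    have h3 : logHeight₁ t ≤ logHeight₁ t / Real.log 2 * Real.log ((n : ℝ) + 2) := by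
      rw [div_mul_eq_mul_div, le_div_iff₀ hl2]
      exact mul_le_mul_of_nonneg_left hlog hh
    have h4 : (totalWeight K : ℝ) * Real.log 2 ≤ (totalWeight K : ℝ) * Real.log ((n : ℝ) + 2) :=
      mul_le_mul_of_nonneg_left hlog hT
    have h5 : (totalWeight K : ℝ) * Real.log n ≤ (totalWeight K : ℝ) * Real.log ((n : ℝ) + 2) :=
      mul_le_mul_of_nonneg_left hlog' hT
    nlinarith [h2, h3, h4, h5, hn]

/-- The norm at one place of `t + 1`. -/
theorem nrm_add_one (v : AbsoluteValue K ℝ) {κ' : ℝ} (ha : Adm 2 v κ') (t : K) :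
    nrm v (one (t + 1)) ≤ κ' * nrm v (one t) := by
  have h1 : 1 ≤ nrm v (one t) := one_le_nrm v (one t)
  have hk : 1 ≤ κ' := ha.1
  refine nrm_le v _ _ ?_ ?_
  · nlinarith
  · intro i
    have hs : (∑ m : Fin 2, (![t, 1] : Fin 2 → K) m) = t + 1 := by
      rw [Fin.sum_univ_two]
      rfl
    have h2 := sum_adm v ha (Finset.univ : Finset (Fin 2)) (![t, 1] : Fin 2 → K)
      (nrm v (one t)) (by linarith) (by simp) (by
        intro m _
        refine Fin.cases ?_ (fun j => ?_) m
        · exact le_nrm v (one t) 0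
        · have hj : j = 0 := Subsingleton.elim _ _
          subst hj
          have : (![t, 1] : Fin 2 → K) (Fin.succ 0) = 1 := rfl
          rw [this, map_one]
          exact h1)
    rw [hs] at h2
    exact h2

/-- The height of a vector is at most the sum of the height of its first coordinate and that of the
others. -/
theorem ht_cons [NumberField K] (t : K) (y : Fin k → K) :
    ht (Fin.cons t y : Fin (k + 1) → K) ≤ ht (one t) + ht y := by
  have hx : (Fin.cons 1 (one t) : Fin 2 → K) ≠ 0 := by
    intro h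
    have := congrFun h 0
    simp at this
  have hy : (Fin.cons 1 y : Fin (k + 1) → K) ≠ 0 := by
    intro h
    have := congrFun h 0
    simp at this
  unfold ht
  rw [← logHeight_fun_mul_eq hx hy]
  have hf : (Fin.cons 1 (Fin.cons t y : Fin (k + 1) → K) : Fin (k + 2) → K) =
      (fun a : Fin 2 × Fin (k + 1) => (Fin.cons 1 (one t) : Fin 2 → K) a.1 *
        (Fin.cons 1 y : Fin (k + 1) → K) a.2) ∘
      (Fin.cons (0, 0) (Fin.cons (1, 0) fun j : Fin k => ((0 : Fin 2), j.succ)) :
        Fin (k + 2) → Fin 2 × Fin (k + 1)) := by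
    funext i
    refine Fin.cases ?_ (fun j => ?_) i
    · simp
    · refine Fin.cases ?_ (fun l => ?_) j
      · simp [one]
      · simp
  rw [hf]
  exact logHeight_comp_le _ _

/-- The height of the vector without its first coordinate. -/
theorem ht_tail [NumberField K] (t : K) (y : Fin k → K) :
    ht y ≤ ht (Fin.cons t y : Fin (k + 1) → K) := by
  unfold ht
  have hf : (Fin.cons 1 y : Fin (k + 1) → K) =
      (Fin.cons 1 (Fin.cons t y : Fin (k + 1) → K) : Fin (k + 2) → K) ∘
      (Fin.cons 0 (fun j : Fin k => j.succ.succ) : Fin (k + 1) → Fin (k + 2)) := by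
    funext i
    refine Fin.cases ?_ (fun j => ?_) i
    · simp
    · simp
  rw [hf]
  exact logHeight_comp_le _ _

end Pool.Agent.H.MP_31a675_nt
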