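import Pool.Agent.H.MP_31a675_nt.Null
import Pool.Agent.H.MP_31a675_nt.PolyB
import Pool.Agent.H.MP_31a675_nt.PolyC

/-!
# The local dichotomy
-/

namespace Pool.Agent.H.MP_31a675_nt

open MvPolynomial NumberField Height

variable {K : Type*} [Field K] {k : ℕ}

/-- If the norm is larger than `1`, it is attained at a coordinate. -/
private theorem exists_coord (v : AbsoluteValue K ℝ) (y : Fin k → K) (h : 1 < nrm v y) :
    ∃ j, v (y j) = nrm v y := by
  obtain ⟨i, hi⟩ := exists_eq_ciSup_of_finite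
    (f := fun i => v ((Fin.cons 1 y : Fin (k + 1) → K) i))
  change v ((Fin.cons 1 y : Fin (k + 1) → K) i) = nrm v y at hi
  rcases Fin.eq_zero_or_eq_succ i with h0 | ⟨j, hj⟩
  · subst h0
    rw [Fin.cons_zero, map_one] at hi
    linarith
  · subst hj
    rw [Fin.cons_succ] at hi
    exact ⟨j, hi⟩

/-- Finitely many numbers smaller than `B` are bounded by some `B' < B`. -/
private theorem exists_lt_bound {α : Type*} [Fintype α] [Nonempty α] (f : α → ℝ) (B : ℝ)
    (h : ∀ a, f a < B) : ∃ B', B' < B ∧ ∀ a, f a ≤ B' := by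
  obtain ⟨a, -, ha⟩ := Finset.exists_max_image (Finset.univ : Finset α) f Finset.univ_nonempty
  exact ⟨f a, h a, fun b => ha b (Finset.mem_univ b)⟩

/-- The computation at one point: `c y_j^M = ∑ A_ji s_i + T_j`, with `|c|⁻¹ ≤ u`, `|A_ji| ≤ b Y^(M - d_i)`,
`|T_j| ≤ b Y^(M-1)`, where `Y = max (1, |y|)`. If `|s_i| W < Y^(d_i)` for all `i` and `Y > W`,
`W = κ' b u`, then for the `j` with `|y_j| = Y` the right hand side is smaller than `|c| Y^M`. -/
theorem point_dich (v : AbsoluteValue K ℝ) {κ κ' : ℝ} (ha : Adm κ v κ') {ι : Type} [Fintype ι]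
    (hκ : (Fintype.card ι : ℝ) + 1 ≤ κ) (d : ι → ℕ) (M : ℕ) (hM : 1 ≤ M) (hd : ∀ i, d i ≤ M)
    (c : K) (hc : c ≠ 0) (A : Fin k → ι → K) (T : Fin k → K) (s : ι → K) (y : Fin k → K)
    (b u : ℝ) (hb : 1 ≤ b) (hu : 1 ≤ u) (hcu : v c⁻¹ ≤ u)
    (hA : ∀ j i, v (A j i) ≤ b * nrm v y ^ (M - d i)) (hT : ∀ j, v (T j) ≤ b * nrm v y ^ (M - 1))
    (hid : ∀ j, c * y j ^ M = (∑ i, A j i * s i) + T j) :
    nrm v y ≤ κ' * (b * u) ∨ ∃ i, nrm v y ^ (d i) ≤ κ' * (b * u) * v (s i) := by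
  by_contra hcon
  push Not at hcon
  obtain ⟨h1, h2⟩ := hcon
  have hκ' : 1 ≤ κ' := ha.1
  have hκ0 : 0 < κ' := lt_of_lt_of_le one_pos hκ'
  have hb0 : 0 < b := lt_of_lt_of_le one_pos hb
  have hu0 : 0 < u := lt_of_lt_of_le one_pos hu
  have hW : 1 ≤ κ' * (b * u) :=
    one_le_mul_of_one_le_of_one_le hκ' (one_le_mul_of_one_le_of_one_le hb hu)
  have hY1 : 1 < nrm v y := lt_of_le_of_lt hW h1
  have hY0 : 0 < nrm v y := lt_trans one_pos hY1
  obtain ⟨j, hj⟩ := exists_coord v y hY1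
  set Y := nrm v y with hYdef
  have hYM : 0 < Y ^ M := pow_pos hY0 M
  have hsplit : ∀ i, Y ^ M = Y ^ (M - d i) * Y ^ (d i) := fun i => by
    rw [← pow_add, Nat.sub_add_cancel (hd i)]
  have hsplit1 : Y ^ M = Y ^ (M - 1) * Y := by
    rw [← pow_succ, Nat.sub_add_cancel hM]
  -- the terms
  set z : Option ι → K := fun o => o.elim (T j) (fun i => A j i * s i) with hz
  have hsum : ∑ o, z o = (∑ i, A j i * s i) + T j := by
    rw [Fintype.sum_option, add_comm]
    rfl
  have hterm : ∀ o, v (z o) < Y ^ M / (κ' * u) := by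
    intro o
    rw [lt_div_iff₀ (mul_pos hκ0 hu0)]
    cases o with
    | none =>
      change v (T j) * (κ' * u) < Y ^ M
      calc v (T j) * (κ' * u) ≤ (b * Y ^ (M - 1)) * (κ' * u) :=
            mul_le_mul_of_nonneg_right (hT j) (mul_pos hκ0 hu0).le
        _ = Y ^ (M - 1) * (κ' * (b * u)) := by ring
        _ < Y ^ (M - 1) * Y := mul_lt_mul_of_pos_left h1 (pow_pos hY0 _)
        _ = Y ^ M := hsplit1.symm
    | some i =>
      change v (A j i * s i) * (κ' * u) < Y ^ M
      rw [map_mul]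
      calc v (A j i) * v (s i) * (κ' * u) ≤ (b * Y ^ (M - d i)) * v (s i) * (κ' * u) :=
            mul_le_mul_of_nonneg_right (mul_le_mul_of_nonneg_right (hA j i) (v.nonneg _))
              (mul_pos hκ0 hu0).le
        _ = Y ^ (M - d i) * (κ' * (b * u) * v (s i)) := by ring
        _ < Y ^ (M - d i) * Y ^ (d i) := mul_lt_mul_of_pos_left (h2 i) (pow_pos hY0 _)
        _ = Y ^ M := (hsplit i).symm
  obtain ⟨B', hB', hle⟩ := exists_lt_bound (fun o => v (z o)) _ hterm
  have hB0 : 0 ≤ B' := le_trans (v.nonneg (z none)) (hle none)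
  have hcard : ((Finset.univ : Finset (Option ι)).card : ℝ) ≤ κ := by
    rw [Finset.card_univ, Fintype.card_option]
    push_cast
    exact hκ
  have hS := sum_adm v ha (Finset.univ : Finset (Option ι)) z B' hB0 hcard (fun m _ => hle m)
  rw [hsum, ← hid j] at hS
  have hval : Y ^ M = v c⁻¹ * v (c * y j ^ M) := by
    rw [← map_mul, ← mul_assoc, inv_mul_cancel₀ hc, one_mul, map_pow, hj]
  have hfin : Y ^ M < Y ^ M := by
    calc Y ^ M = v c⁻¹ * v (c * y j ^ M) := hval
      _ ≤ u * (κ' * B') := mul_le_mul hcu hS (v.nonneg _) hu0.le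
      _ = (κ' * u) * B' := by ring
      _ < (κ' * u) * (Y ^ M / (κ' * u)) := mul_lt_mul_of_pos_left hB' (mul_pos hκ0 hu0)
      _ = Y ^ M := mul_div_cancel₀ _ (mul_pos hκ0 hu0).ne'
  exact lt_irrefl _ hfin

/-- The local dichotomy for a family of polynomials whose leading parts have no common zero: at every
place either `y` is small or one of the `S i` is large at `(t, y)`. Combine `null_identity`,
`poly_bound_family` (for the `A j i` and `T j`) and `point_dich`. -/
theorem loc_dich {ι : Type} [Fintype ι] (S : ι → MvPolynomial (Fin (k + 1)) K) (d : ι → ℕ)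
    (hd : ∀ i, 1 ≤ d i) (hS1 : ∀ i, YLe (d i) (S i)) (hS : NoZero fun i => lead (d i) (S i)) :
    ∃ (c : Polynomial K) (r : ℕ) (a : Fin r → K) (κ : ℝ) (E : ℕ), c ≠ 0 ∧ 1 ≤ κ ∧
      ∀ (v : AbsoluteValue K ℝ) (κ' : ℝ), Adm κ v κ' → ∀ (t : K) (y : Fin k → K), c.eval t ≠ 0 →
        nrm v y ≤ κ' ^ 2 * (nrm v a * nrm v (one t) ^ E * nrm v (one (c.eval t)⁻¹)) ∨
        ∃ i, nrm v y ^ (d i) ≤
          κ' ^ 2 * (nrm v a * nrm v (one t) ^ E * nrm v (one (c.eval t)⁻¹)) *
            v (eval (Fin.cons t y) (S i)) := by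
  obtain ⟨c, M, A, T, hc, hM, hdM, hA, hT, hid⟩ := null_identity S d hd hS1 hS
  obtain ⟨r, a, κ₁, E, hκ₁, hbd⟩ := poly_bound_family
    (ι := (Fin k × ι) ⊕ Fin k) (Sum.elim (fun p => A p.1 p.2) T)
    (Sum.elim (fun p => M - d p.2) (fun _ => M - 1))
    (by rintro (p | j) <;> simp only [Sum.elim_inl, Sum.elim_inr] <;> [exact hA _ _; exact hT _])
  refine ⟨c, r, a, max κ₁ ((Fintype.card ι : ℝ) + 1), E, hc, le_max_of_le_left hκ₁, ?_⟩
  intro v κ' hadm t y hct
  have hadm1 : Adm κ₁ v κ' :=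
    ⟨hadm.1, hadm.2.imp (fun h => le_trans (le_max_left _ _) h) id⟩
  have hadm2 : Adm ((Fintype.card ι : ℝ) + 1) v κ' :=
    ⟨hadm.1, hadm.2.imp (fun h => le_trans (le_max_right _ _) h) id⟩
  have hid' : ∀ j : Fin k, c.eval t * y j ^ M =
      (∑ i, eval (Fin.cons t y) (A j i) * eval (Fin.cons t y) (S i)) +
        eval (Fin.cons t y) (T j) := by
    intro j
    have h := congrArg (eval (Fin.cons t y : Fin (k + 1) → K)) (hid j)
    rw [map_mul, map_pow, eval_X, Fin.cons_succ, map_add, map_sum] at h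
    simp only [map_mul] at h
    have h2 : eval (Fin.cons t y : Fin (k + 1) → K) (Polynomial.aeval (X 0) c) = c.eval t := by
      rw [Polynomial.aeval_def, Polynomial.hom_eval₂, eval_X, Fin.cons_zero]
      have h3 : (eval (Fin.cons t y : Fin (k + 1) → K)).comp
          (algebraMap K (MvPolynomial (Fin (k + 1)) K)) = RingHom.id K := by
        ext x
        simp [MvPolynomial.algebraMap_eq]
      rw [h3, Polynomial.eval₂_id]
    rw [h2] at h
    exact h
  have hb : 1 ≤ κ' * (nrm v a * nrm v (one t) ^ E) :=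
    one_le_mul_of_one_le_of_one_le hadm.1
      (one_le_mul_of_one_le_of_one_le (one_le_nrm v a) (one_le_pow₀ (one_le_nrm v _)))
  have key := point_dich v hadm2 le_rfl d M hM hdM (c.eval t) hct
    (fun j i => eval (Fin.cons t y) (A j i)) (fun j => eval (Fin.cons t y) (T j))
    (fun i => eval (Fin.cons t y) (S i)) y
    (κ' * (nrm v a * nrm v (one t) ^ E)) (nrm v (one (c.eval t)⁻¹)) hb (one_le_nrm v _)
    (le_nrm v (one (c.eval t)⁻¹) 0)
    (fun j i => by
      have h := hbd v κ' hadm1 (Sum.inl (j, i)) t y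
      simp only [Sum.elim_inl] at h
      calc _ ≤ _ := h
        _ = _ := by ring)
    (fun j => by
      have h := hbd v κ' hadm1 (Sum.inr j) t y
      simp only [Sum.elim_inr] at h
      calc _ ≤ _ := h
        _ = _ := by ring)
    hid'
  have hconst : κ' * (κ' * (nrm v a * nrm v (one t) ^ E) * nrm v (one (c.eval t)⁻¹)) =
      κ' ^ 2 * (nrm v a * nrm v (one t) ^ E * nrm v (one (c.eval t)⁻¹)) := by ring
  rw [hconst] at key
  exact key

end Pool.Agent.H.MP_31a675_nt
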