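import Mathlib

/-!
# Operators that are idempotent modulo `p`
-/

namespace Pool.Agent.H.MP_31a675_nt

private theorem idem_mul_pow {R A : Type*} [CommRing R] [AddCommGroup A] [Module R A]
    (T : Module.End R A) (p : R) (h : ∀ a, ∃ b, T a = p • b) (k : ℕ) (a : A) :
    ∃ b, (T ^ k) a = p ^ k • b := by
  induction k generalizing a with
  | zero => exact ⟨a, by simp⟩
  | succ k ih =>
    obtain ⟨b, hb⟩ := h a
    obtain ⟨c, hc⟩ := ih b
    refine ⟨c, ?_⟩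
    rw [pow_succ, Module.End.mul_apply, hb, map_smul, hc, smul_smul, pow_succ, mul_comm]

/-- If `Ψ ∘ Ψ = Ψ` modulo `p` then `Ψ ^ n ∘ (Ψ - 1) ^ j = 0` modulo `p ^ min n j`. Indeed
`Ψ ^ i (Ψ - 1) ^ i = (Ψ (Ψ - 1)) ^ i` is divisible by `p ^ i`, and the operators commute. -/
theorem pow_sub_one_dvd {R A : Type*} [CommRing R] [AddCommGroup A] [Module R A]
    (Ψ : Module.End R A) (p : R) (h : ∀ a, ∃ b, Ψ (Ψ a) - Ψ a = p • b) (n j : ℕ) (a : A) :
    ∃ b, ((Ψ - 1) ^ j * Ψ ^ n) a = p ^ (min n j) • b := by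
  have hT : ∀ a, ∃ b, ((Ψ - 1) * Ψ) a = p • b := by
    intro a
    obtain ⟨b, hb⟩ := h a
    refine ⟨b, ?_⟩
    rw [Module.End.mul_apply, LinearMap.sub_apply, Module.End.one_apply, hb]
  have hcomm : Commute (Ψ - 1) Ψ := (Commute.refl Ψ).sub_left (Commute.one_left Ψ)
  have hfac : (Ψ - 1) ^ j * Ψ ^ n =
      ((Ψ - 1) * Ψ) ^ (min n j) * ((Ψ - 1) ^ (j - min n j) * Ψ ^ (n - min n j)) := by
    have hj : j = min n j + (j - min n j) := by omega
    have hn : n = min n j + (n - min n j) := by omega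
    have h1 : Commute (Ψ ^ (min n j)) ((Ψ - 1) ^ (j - min n j)) :=
      (hcomm.symm.pow_pow _ _)
    calc (Ψ - 1) ^ j * Ψ ^ n
        = (Ψ - 1) ^ (min n j + (j - min n j)) * Ψ ^ (min n j + (n - min n j)) := by
          rw [← hj, ← hn]
      _ = (Ψ - 1) ^ (min n j) * ((Ψ - 1) ^ (j - min n j) * Ψ ^ (min n j)) *
            Ψ ^ (n - min n j) := by
          rw [pow_add, pow_add]; simp only [mul_assoc]
      _ = (Ψ - 1) ^ (min n j) * (Ψ ^ (min n j) * (Ψ - 1) ^ (j - min n j)) *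
            Ψ ^ (n - min n j) := by rw [h1.eq]
      _ = _ := by rw [hcomm.mul_pow]; simp only [mul_assoc]
  obtain ⟨b, hb⟩ := idem_mul_pow ((Ψ - 1) * Ψ) p hT (min n j)
    (((Ψ - 1) ^ (j - min n j) * Ψ ^ (n - min n j)) a)
  exact ⟨b, by rw [hfac, Module.End.mul_apply, hb]⟩

/-- The `j`-th difference of `n ↦ ε (Ψ ^ n a)` is `ε ((Ψ - 1) ^ j (Ψ ^ n a))`. -/
theorem fwdDiff_end {R A : Type*} [CommRing R] [AddCommGroup A] [Module R A]
    (Ψ : Module.End R A) (ε : A →ₗ[R] R) (a : A) (n j : ℕ) :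
    (fwdDiff (1 : ℕ))^[j] (fun n => ε ((Ψ ^ n) a)) n = ε (((Ψ - 1) ^ j * Ψ ^ n) a) := by
  induction j generalizing n with
  | zero => simp
  | succ j ih =>
    rw [Function.iterate_succ_apply', fwdDiff, ih, ih, ← map_sub]
    congr 1
    have e : (Ψ - 1) ^ (j + 1) * Ψ ^ n = (Ψ - 1) ^ j * Ψ ^ (n + 1) - (Ψ - 1) ^ j * Ψ ^ n := by
      rw [pow_succ (Ψ - 1) j, pow_succ' Ψ n]
      noncomm_ring
    rw [e, LinearMap.sub_apply]

theorem fwd_dvd {R A : Type*} [CommRing R] [AddCommGroup A] [Module R A]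
    (Ψ : Module.End R A) (p : R) (h : ∀ a, ∃ b, Ψ (Ψ a) - Ψ a = p • b) (ε : A →ₗ[R] R) (a : A)
    (n j : ℕ) :
    p ^ (min n j) ∣ (fwdDiff (1 : ℕ))^[j] (fun n => ε ((Ψ ^ n) a)) n := by
  obtain ⟨b, hb⟩ := pow_sub_one_dvd Ψ p h n j a
  rw [fwdDiff_end, hb, map_smul, smul_eq_mul]
  exact Dvd.intro _ rfl

/-- If the `j`-th difference of `u` at `n` is divisible by `p ^ min n j` for all `n, j`, and `u`
vanishes on `[m, 2m)`, then `p ^ m` divides all `u n`, `n ≥ m`. Newton's formula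
`shift_eq_sum_fwdDiff_iter`: `u (m + r) = ∑_j C(r, j) (Δ^j u)(m)`; the terms with `j < m` vanish
(`fwdDiff_iter_eq_sum_shift`), the others are divisible by `p ^ m`. -/
theorem zeros_dvd {R : Type*} [CommRing R] (p : R) (u : ℕ → R)
    (h : ∀ n j, p ^ (min n j) ∣ (fwdDiff (1 : ℕ))^[j] u n) (m : ℕ)
    (hz : ∀ n, m ≤ n → n < 2 * m → u n = 0) : ∀ n, m ≤ n → p ^ m ∣ u n := by
  intro n hn
  obtain ⟨r, rfl⟩ : ∃ r, n = m + r := ⟨n - m, by omega⟩
  have h1 := shift_eq_sum_fwdDiff_iter (1 : ℕ) u r m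
  rw [smul_eq_mul, mul_one] at h1
  rw [h1]
  refine Finset.dvd_sum fun j _ => ?_
  rw [nsmul_eq_mul]
  refine Dvd.dvd.mul_left ?_ _
  rcases lt_or_ge j m with hj | hj
  · rw [fwdDiff_iter_eq_sum_shift, Finset.sum_eq_zero]
    · exact dvd_zero _
    · intro k hk
      have hk' : k ≤ j := Nat.lt_succ_iff.1 (Finset.mem_range.1 hk)
      rw [smul_eq_mul, mul_one, hz (m + k) (by omega) (by omega), smul_zero]
  · have h2 := h m j
    rwa [min_eq_left hj] at h2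

end Pool.Agent.H.MP_31a675_nt
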