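import Mathlib

/-!
# The inequality between the parameters
-/

namespace Pool.Agent.H.MP_31a675_nt

/-- Powers with exponent less than `1` and logarithms are eventually smaller than a linear function. -/
theorem param_ineq (b c' δ : ℝ) (hδ : δ < 1) :
    ∃ n₁ : ℕ, ∀ n : ℕ, n₁ ≤ n →
      b + 2 * Real.log ((n : ℝ) + 1) + c' * ((n : ℝ) + 1) ^ δ <
        ((n / 2 : ℕ) : ℝ) * Real.log 2 := by
  have hl2 : 0 < Real.log 2 := Real.log_pos (by norm_num)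
  have h1 : (fun _ : ℝ => b) =o[Filter.atTop] fun x : ℝ => x :=
    Asymptotics.isLittleO_const_id_atTop b
  have h2 : (fun x : ℝ => 2 * Real.log x) =o[Filter.atTop] fun x : ℝ => x :=
    Real.isLittleO_log_id_atTop.const_mul_left 2
  have h3 : (fun x : ℝ => c' * x ^ δ) =o[Filter.atTop] fun x : ℝ => x := by
    have h : (fun x : ℝ => x ^ δ) =o[Filter.atTop] fun x : ℝ => x := by
      rw [Asymptotics.isLittleO_iff_tendsto' (by
        filter_upwards [Filter.eventually_gt_atTop (0 : ℝ)] with x hx h0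
        exact absurd h0 hx.ne')]
      refine (tendsto_rpow_neg_atTop (show (0 : ℝ) < 1 - δ by linarith)).congr' ?_
      filter_upwards [Filter.eventually_gt_atTop (0 : ℝ)] with x hx
      rw [neg_sub, Real.rpow_sub hx, Real.rpow_one]
    exact h.const_mul_left c'
  have h4 := (h1.add h2).add h3
  have h5 := h4.bound (show (0 : ℝ) < Real.log 2 / 4 by positivity)
  obtain ⟨X, hX⟩ := Filter.eventually_atTop.1 (h5.and (Filter.eventually_ge_atTop (5 : ℝ)))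
  obtain ⟨k, hk⟩ := exists_nat_ge X
  refine ⟨k, fun n hn => ?_⟩
  have hnX : X ≤ (n : ℝ) + 1 := by
    have : (k : ℝ) ≤ n := by exact_mod_cast hn
    linarith
  obtain ⟨e1, e2⟩ := hX _ hnX
  have e3 := (le_abs_self _).trans (Real.norm_eq_abs _ ▸ e1)
  rw [Real.norm_eq_abs, abs_of_nonneg (show (0 : ℝ) ≤ (n : ℝ) + 1 by positivity)] at e3
  have e4 : ((n : ℝ) - 1) / 2 ≤ ((n / 2 : ℕ) : ℝ) := by
    have h : n ≤ 2 * (n / 2) + 1 := by omega
    have h' : (n : ℝ) ≤ 2 * ((n / 2 : ℕ) : ℝ) + 1 := by exact_mod_cast h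
    linarith
  have e5 : ((n : ℝ) - 1) / 2 * Real.log 2 ≤ ((n / 2 : ℕ) : ℝ) * Real.log 2 :=
    mul_le_mul_of_nonneg_right e4 hl2.le
  refine lt_of_le_of_lt e3 (lt_of_lt_of_le ?_ e5)
  nlinarith

/-- The parameters `D` and `m = (D + 1) ^ N / 2` are compatible: for `n ≥ 2 m`, the degree satisfies
`D ≤ (n + 1) ^ (1 / N)` and the number of monomials is at most `n + 1`; and `2 m` is as large as we
like. -/
theorem param_choice (N : ℕ) (hN : 2 ≤ N) (n₁ : ℕ) :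
    ∃ D m : ℕ, 1 ≤ m ∧ 2 * m ≤ (D + 1) ^ N ∧ n₁ ≤ 2 * m ∧
      ∀ n : ℕ, 2 * m ≤ n → ((D : ℝ) + 1) ^ N ≤ (n : ℝ) + 1 ∧
        (D : ℝ) ≤ ((n : ℝ) + 1) ^ ((1 : ℝ) / N) := by
  have hp : n₁ + 2 ≤ (n₁ + 1 + 1) ^ N := by
    calc n₁ + 2 = (n₁ + 1 + 1) ^ 1 := by ring
      _ ≤ (n₁ + 1 + 1) ^ N := Nat.pow_le_pow_right (by omega) (by omega)
  refine ⟨n₁ + 1, (n₁ + 1 + 1) ^ N / 2, by omega, by omega, by omega, fun n hn => ?_⟩
  have h1 : (n₁ + 1 + 1) ^ N ≤ n + 1 := by omega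
  have h2 : (((n₁ + 1 : ℕ) : ℝ) + 1) ^ N ≤ (n : ℝ) + 1 := by exact_mod_cast h1
  refine ⟨h2, ?_⟩
  have hN0 : (N : ℝ) ≠ 0 := by
    have : N ≠ 0 := by omega
    exact_mod_cast this
  have h3 : ((((n₁ + 1 : ℕ) : ℝ) + 1) ^ N) ^ ((1 : ℝ) / N) = ((n₁ + 1 : ℕ) : ℝ) + 1 := by
    rw [← Real.rpow_natCast, ← Real.rpow_mul (by positivity), mul_one_div_cancel hN0,
      Real.rpow_one]
  have h4 : ((((n₁ + 1 : ℕ) : ℝ) + 1) ^ N) ^ ((1 : ℝ) / N) ≤ ((n : ℝ) + 1) ^ ((1 : ℝ) / N) :=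
    Real.rpow_le_rpow (by positivity) h2 (by positivity)
  rw [h3] at h4
  linarith

end Pool.Agent.H.MP_31a675_nt
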