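import Pool.Agent.H.MP_31a675_nt.Sieg
import Pool.Agent.H.MP_31a675_nt.Param
import Pool.Agent.H.MP_31a675_nt.Idem

/-!
# Extrapolation
-/

namespace Pool.Agent.H.MP_31a675_nt

open MvPolynomial NumberField Height

private theorem fwdDiff_iter_subring {K : Type*} [Field K] (S : Subring K) (u : ℕ → S) (j : ℕ) :
    ∀ n : ℕ, (((fwdDiff (1 : ℕ))^[j] u n : S) : K) =
      (fwdDiff (1 : ℕ))^[j] (fun n => (u n : K)) n := by
  induction j with
  | zero => intro n; rfl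
  | succ j ih =>
    intro n
    rw [Function.iterate_succ_apply', Function.iterate_succ_apply', fwdDiff, fwdDiff,
      AddSubgroupClass.coe_sub, ih, ih]

/-- One step: if `val ξ (X n)` vanishes on `[m', 2 m')` and `n ≥ m'`, then `val ξ (X n)` is divisible
by `p ^ m'` in `Rp K p` (`zeros_dvd` in the ring `Rp K p`, whose elements `val ξ (X n)` are by the
case `j = 0`), so if it is nonzero then `house_ge` and `val_house` give the inequality. -/
theorem step {K : Type*} [Field K] [NumberField K] {p : ℕ} (hp : p.Prime) {N D : ℕ}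
    (X : ℕ → Fin N → K) (ξ : (Fin N → Fin (D + 1)) → 𝓞 K)
    (hdiv : ∀ n j : ℕ, ∃ r ∈ Rp K p,
      (fwdDiff (1 : ℕ))^[j] (fun n => val ξ (X n)) n = (p : K) ^ (min n j) * r)
    (m' : ℕ) (hz : ∀ n, m' ≤ n → n < 2 * m' → val ξ (X n) = 0) (n : ℕ) (hn : m' ≤ n)
    (B : ℝ) (hB : ∀ α, house ((ξ α : 𝓞 K) : K) ≤ B) (E : ℝ) (h1 : 1 ≤ E)
    (hE : ∀ i, mulHeight₁ (X n i) ≤ E) (hne : val ξ (X n) ≠ 0) :
    (p : ℝ) ^ m' ≤ ((D : ℝ) + 1) ^ N * B * E ^ (N * (N + 1) * D) := by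
  have hmem : ∀ n, val ξ (X n) ∈ Rp K p := by
    intro n
    obtain ⟨r, hr, h⟩ := hdiv n 0
    rw [Function.iterate_zero, id_eq, Nat.min_zero, pow_zero, one_mul] at h
    rw [h]
    exact hr
  set u : ℕ → Rp K p := fun n => ⟨val ξ (X n), hmem n⟩ with hu
  have hdvd : ∀ n j, (p : Rp K p) ^ (min n j) ∣ (fwdDiff (1 : ℕ))^[j] u n := by
    intro n j
    obtain ⟨r, hr, h⟩ := hdiv n j
    refine ⟨⟨r, hr⟩, ?_⟩
    apply Subtype.ext
    rw [fwdDiff_iter_subring]
    change (fwdDiff (1 : ℕ))^[j] (fun n => val ξ (X n)) n = _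
    rw [h]
    simp
  have hzu : ∀ n, m' ≤ n → n < 2 * m' → u n = 0 := by
    intro n h1 h2
    apply Subtype.ext
    exact hz n h1 h2
  obtain ⟨r, hr⟩ := zeros_dvd (p : Rp K p) u hdvd m' hzu n hn
  have hval : val ξ (X n) = (p : K) ^ m' * (r : K) := by
    have := congrArg (fun z : Rp K p => (z : K)) hr
    simpa [hu] using this
  obtain ⟨q, hq0, hqint, hqh⟩ := val_house ξ B hB (X n) E h1 hE
  refine le_trans (house_ge K hp m' ((q : K) * val ξ (X n)) hqint ?_ ?_) hqh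
  · exact mul_ne_zero (by exact_mod_cast hq0) hne
  · refine ⟨(q : K) * (r : K), ?_, ?_⟩
    · exact Subring.mul_mem _ (natCast_mem _ q) r.2
    · rw [hval]; ring

/-- Extrapolation: a sequence of points with small heights and `p`-adically small differences
satisfies a polynomial equation. Let `e = N (N + 1)` and `E n = exp (C (n + 1) ^ γ)`. Choose `n₁`
from `param_ineq` with `b = log c` (`c` from `aux_poly`), `c' = 2 e C`, `δ = γ + 1 / N`, then `D`,
`m` from `param_choice`, and `ξ` from `aux_poly` with `E = exp (C (2 m) ^ γ)`. By strong induction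
`val ξ (X n) = 0` for all `n ≥ m`: for `n ≥ 2 m` use `step` with `m' = n / 2`. -/
theorem extrapolate {K : Type*} [Field K] [NumberField K] {p : ℕ} (hp : p.Prime) {N : ℕ}
    (hN : 2 ≤ N) (X : ℕ → Fin N → K)
    (hdiv : ∀ (D : ℕ) (ξ : (Fin N → Fin (D + 1)) → 𝓞 K) (n j : ℕ), ∃ r ∈ Rp K p,
      (fwdDiff (1 : ℕ))^[j] (fun n => val ξ (X n)) n = (p : K) ^ (min n j) * r)
    {C γ : ℝ} (hC : 0 ≤ C) (hγ : 0 ≤ γ) (hγN : γ + 1 / N < 1)
    (hh : ∀ n i, logHeight₁ (X n i) ≤ C * ((n : ℝ) + 1) ^ γ) :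
    ∃ (D : ℕ) (ξ : (Fin N → Fin (D + 1)) → 𝓞 K) (m : ℕ), ξ ≠ 0 ∧
      ∀ n, m ≤ n → val ξ (X n) = 0 := by
  obtain ⟨c, hc1, haux⟩ := aux_poly K
  obtain ⟨n₁, hn₁⟩ := param_ineq (Real.log c) (2 * ((N * (N + 1) : ℕ) : ℝ) * C) (γ + 1 / N) hγN
  obtain ⟨D, m, hm1, hmD, hnm, hpar⟩ := param_choice N hN n₁
  have hmul : ∀ (n : ℕ) (i : Fin N) (t : ℝ), C * ((n : ℝ) + 1) ^ γ ≤ t → mulHeight₁ (X n i) ≤ Real.exp t := by
    intro n i t ht
    have h1 : Real.log (mulHeight₁ (X n i)) ≤ t := le_trans (hh n i) ht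
    have hpos : 0 < mulHeight₁ (X n i) := mulHeight₁_pos _
    calc mulHeight₁ (X n i) = Real.exp (Real.log (mulHeight₁ (X n i))) := (Real.exp_log hpos).symm
      _ ≤ Real.exp t := Real.exp_le_exp.mpr h1
  have hE0 : 0 ≤ C * (2 * (m : ℝ)) ^ γ := by positivity
  obtain ⟨ξ, hξ0, hξz, hξh⟩ := haux N D m X (Real.exp (C * (2 * (m : ℝ)) ^ γ))
    (Real.one_le_exp hE0) hm1 hmD (by
      intro n h1 h2 i
      apply hmul
      apply mul_le_mul_of_nonneg_left _ hC
      apply Real.rpow_le_rpow (by positivity) _ hγ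
      have : n + 1 ≤ 2 * m := h2
      exact_mod_cast this)
  refine ⟨D, ξ, m, hξ0, ?_⟩
  intro n
  induction n using Nat.strong_induction_on with
  | _ n ih =>
  intro hmn
  by_cases hn2 : n < 2 * m
  · exact hξz n hmn hn2
  push Not at hn2
  by_contra hne
  have hnn1 : n₁ ≤ n := le_trans hnm hn2
  obtain ⟨hpar1, hpar2⟩ := hpar n hn2
  have hE1 : 0 ≤ C * ((n : ℝ) + 1) ^ γ := by positivity
  have hst := step hp X ξ (hdiv D ξ) (n / 2) (by
      intro k h1 h2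
      exact ih k (by omega) (by omega)) n (by omega) _ hξh
      (Real.exp (C * ((n : ℝ) + 1) ^ γ)) (Real.one_le_exp hE1)
      (fun i => hmul n i _ le_rfl) hne
  have hineq := hn₁ n hnn1
  -- logarithms
  set e : ℕ := N * (N + 1) with he
  have hcpos : 0 < c := lt_of_lt_of_le one_pos hc1
  have hDpos : (0 : ℝ) < ((D : ℝ) + 1) ^ N := by positivity
  have hn1pos : (0 : ℝ) < (n : ℝ) + 1 := by positivity
  have hp2 : (2 : ℝ) ≤ (p : ℝ) := by exact_mod_cast hp.two_le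
  have hlog := Real.log_le_log (by positivity) hst
  rw [Real.log_mul (by positivity) (by positivity), Real.log_mul (by positivity) (by positivity),
    Real.log_mul (by positivity) (by positivity), Real.log_mul (by positivity) (by positivity)] at hlog
  rw [Real.log_pow (p : ℝ) (n / 2), Real.log_pow (Real.exp (C * (2 * (m : ℝ)) ^ γ)) (e * D),
    Real.log_pow (Real.exp (C * ((n : ℝ) + 1) ^ γ)) (e * D), Real.log_exp, Real.log_exp] at hlog
  have h1 : Real.log (((D : ℝ) + 1) ^ N) ≤ Real.log ((n : ℝ) + 1) := Real.log_le_log hDpos hpar1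
  have h2 : ((n / 2 : ℕ) : ℝ) * Real.log 2 ≤ ((n / 2 : ℕ) : ℝ) * Real.log p := by
    apply mul_le_mul_of_nonneg_left _ (by positivity)
    exact Real.log_le_log (by norm_num) hp2
  have h3 : (D : ℝ) * ((n : ℝ) + 1) ^ γ ≤ ((n : ℝ) + 1) ^ (γ + 1 / N) := by
    rw [Real.rpow_add hn1pos, mul_comm]
    exact mul_le_mul_of_nonneg_left hpar2 (by positivity)
  have h4 : (2 * (m : ℝ)) ^ γ ≤ ((n : ℝ) + 1) ^ γ := by
    apply Real.rpow_le_rpow (by positivity) _ hγ
    have : 2 * m ≤ n + 1 := by omega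
    exact_mod_cast this
  have h5 : (D : ℝ) * (2 * (m : ℝ)) ^ γ ≤ ((n : ℝ) + 1) ^ (γ + 1 / N) :=
    le_trans (mul_le_mul_of_nonneg_left h4 (by positivity)) h3
  have heC : 0 ≤ (e : ℝ) * C := by positivity
  have h6 : ((e * D : ℕ) : ℝ) * (C * (2 * (m : ℝ)) ^ γ) ≤
      (e : ℝ) * C * ((n : ℝ) + 1) ^ (γ + 1 / N) := by
    have := mul_le_mul_of_nonneg_left h5 heC
    push_cast
    linarith
  have h7 : ((e * D : ℕ) : ℝ) * (C * ((n : ℝ) + 1) ^ γ) ≤
      (e : ℝ) * C * ((n : ℝ) + 1) ^ (γ + 1 / N) := by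
    have := mul_le_mul_of_nonneg_left h3 heC
    push_cast
    linarith
  linarith

end Pool.Agent.H.MP_31a675_nt
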