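import Pool.Agent.H.MP_31a675_nt.LeadA

/-!
# Leading parts of products
-/

namespace Pool.Agent.H.MP_31a675_nt

open MvPolynomial

variable {K : Type*} [Field K] {k : ℕ}

/-- The coefficients of the part of degree `d`. -/
theorem Lead_coeff (d : ℕ) (P : MvPolynomial (Fin (k + 1)) K) (m : Fin (k + 1) →₀ ℕ) :
    coeff m (lead d P) = if yd m = d then coeff m P else 0 := by
  classical
  unfold lead
  rw [coeff_sum]
  simp only [coeff_monomial]
  rw [Finset.sum_ite_eq']
  by_cases h : yd m = d
  · rw [if_pos h]
    by_cases h2 : m ∈ P.support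
    · rw [if_pos (Finset.mem_filter.2 ⟨h2, h⟩)]
    · rw [if_neg fun h3 => h2 (Finset.mem_filter.1 h3).1]
      exact (notMem_support_iff.1 h2).symm
  · have h3 : ¬ m ∈ P.support.filter (fun m => yd m = d) := fun h3 =>
      h (Finset.mem_filter.1 h3).2
    rw [if_neg h, if_neg h3]

theorem Lead_yd_add (a b : Fin (k + 1) →₀ ℕ) : yd (a + b) = yd a + yd b := by
  unfold yd
  simp only [Finsupp.add_apply]
  exact Finset.sum_add_distrib

/-- The part of degree `d + e` of the product with a polynomial homogeneous of degree `e`. -/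
theorem lead_mul_lead (d e : ℕ) (P Q : MvPolynomial (Fin (k + 1)) K) :
    lead (d + e) (P * lead e Q) = lead d P * lead e Q := by
  classical
  ext m
  rw [Lead_coeff, coeff_mul, coeff_mul]
  by_cases h : yd m = d + e
  · rw [if_pos h]
    refine Finset.sum_congr rfl fun x hx => ?_
    have hx' : x.1 + x.2 = m := Finset.HasAntidiagonal.mem_antidiagonal.1 hx
    have h1 : yd x.1 + yd x.2 = d + e := by rw [← Lead_yd_add, hx', h]
    rw [Lead_coeff, Lead_coeff]
    by_cases h2 : yd x.2 = e
    · rw [if_pos h2, if_pos (by omega)]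
    · rw [if_neg h2, mul_zero, mul_zero]
  · rw [if_neg h]
    symm
    refine Finset.sum_eq_zero fun x hx => ?_
    have hx' : x.1 + x.2 = m := Finset.HasAntidiagonal.mem_antidiagonal.1 hx
    have h1 : yd x.1 + yd x.2 = yd m := by rw [← Lead_yd_add, hx']
    rw [Lead_coeff, Lead_coeff]
    by_cases h2 : yd x.2 = e
    · rw [if_neg (by omega : ¬ yd x.1 = d), zero_mul]
    · rw [if_neg h2, mul_zero]

/-- If `e < M`... the part of degree `M` of `A * lead e Q` vanishes when `M < e`. -/
theorem lead_mul_lead_zero (M e : ℕ) (h : M < e) (P Q : MvPolynomial (Fin (k + 1)) K) :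
    lead M (P * lead e Q) = 0 := by
  classical
  ext m
  rw [Lead_coeff, coeff_mul, coeff_zero]
  by_cases hm : yd m = M
  · rw [if_pos hm]
    refine Finset.sum_eq_zero fun x hx => ?_
    have hx' : x.1 + x.2 = m := Finset.HasAntidiagonal.mem_antidiagonal.1 hx
    have h1 : yd x.1 + yd x.2 = yd m := by rw [← Lead_yd_add, hx']
    rw [Lead_coeff, if_neg (by omega : ¬ yd x.2 = e), mul_zero]
  · rw [if_neg hm]

/-- The leading part of `c (t) y_j ^ M`. -/
theorem lead_monomial (c : Polynomial K) (j : Fin k) (M : ℕ) :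
    lead M (Polynomial.aeval (X 0) c * X j.succ ^ M : MvPolynomial (Fin (k + 1)) K) =
      Polynomial.aeval (X 0) c * X j.succ ^ M := by
  classical
  induction c using Polynomial.induction_on' with
  | add p q hp hq =>
    rw [map_add, add_mul, lead_add, hp, hq]
  | monomial n a =>
    have e : (Polynomial.aeval (X 0) (Polynomial.monomial n a) * X j.succ ^ M :
        MvPolynomial (Fin (k + 1)) K) =
        monomial (Finsupp.single 0 n + Finsupp.single j.succ M) a := by
      rw [Polynomial.aeval_monomial, X_pow_eq_monomial, X_pow_eq_monomial, algebraMap_eq,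
        C_mul_monomial, monomial_mul, mul_one, mul_one]
    have h : yd (Finsupp.single (0 : Fin (k + 1)) n + Finsupp.single j.succ M) = M := by
      rw [Lead_yd_add]
      unfold yd
      have h1 : ∑ i : Fin k, (Finsupp.single (0 : Fin (k + 1)) n) i.succ = 0 :=
        Finset.sum_eq_zero fun i _ => Finsupp.single_eq_of_ne (Fin.succ_ne_zero i)
      have h2 : ∑ i : Fin k, (Finsupp.single j.succ M) i.succ = M := by
        simp only [Finsupp.single_apply, Fin.succ_inj]
        rw [Finset.sum_ite_eq]
        exact if_pos (Finset.mem_univ _)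
      rw [h1, h2, zero_add]
    rw [e]
    ext m
    rw [Lead_coeff, coeff_monomial]
    by_cases hm : yd m = M
    · rw [if_pos hm]
    · rw [if_neg hm, if_neg fun h3 => hm (by rw [← h3, h])]

end Pool.Agent.H.MP_31a675_nt
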