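import Pool.Agent.H.MP_31a675_nt.Basic

/-!
# Degrees in `y` and leading parts
-/

namespace Pool.Agent.H.MP_31a675_nt

open MvPolynomial

variable {K : Type*} [Field K] {k : ℕ}

theorem yle_add {d : ℕ} {P Q : MvPolynomial (Fin (k + 1)) K} (hP : YLe d P) (hQ : YLe d Q) :
    YLe d (P + Q) := by
  classical
  intro m hm
  rcases Finset.mem_union.mp (support_add hm) with h | h
  · exact hP m h
  · exact hQ m h

theorem yle_mul {d e : ℕ} {P Q : MvPolynomial (Fin (k + 1)) K} (hP : YLe d P) (hQ : YLe e Q) :
    YLe (d + e) (P * Q) := by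
  classical
  intro m hm
  obtain ⟨a, ha, b, hb, rfl⟩ := Finset.mem_add.mp (support_mul P Q hm)
  have h1 := hP a ha
  have h2 := hQ b hb
  have h3 : yd (a + b) = yd a + yd b := by
    simp [yd, Finset.sum_add_distrib]
  omega

theorem yle_mono {d e : ℕ} (h : d ≤ e) {P : MvPolynomial (Fin (k + 1)) K} (hP : YLe d P) :
    YLe e P :=
  fun m hm => (hP m hm).trans h

private theorem coeff_lead (d : ℕ) (P : MvPolynomial (Fin (k + 1)) K) (m : Fin (k + 1) →₀ ℕ) :
    coeff m (lead d P) = if yd m = d then coeff m P else 0 := by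
  classical
  rw [lead, coeff_sum]
  simp only [coeff_monomial]
  rw [Finset.sum_ite_eq']
  by_cases h : yd m = d
  · rw [if_pos h]
    by_cases hm : m ∈ P.support
    · rw [if_pos (Finset.mem_filter.mpr ⟨hm, h⟩)]
    · rw [if_neg (fun h' => hm (Finset.mem_filter.mp h').1)]
      exact (notMem_support_iff.mp hm).symm
  · rw [if_neg h]
    have h2 : m ∉ P.support.filter (fun m => yd m = d) := by
      rw [Finset.mem_filter]
      exact fun h' => h h'.2
    rw [if_neg h2]

/-- `P` minus its part of degree `d` has degree at most `d - 1` in `y`. -/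
theorem yle_sub_lead {d : ℕ} (hd : 1 ≤ d) {P : MvPolynomial (Fin (k + 1)) K} (hP : YLe d P) :
    YLe (d - 1) (P - lead d P) := by
  intro m hm
  rw [mem_support_iff, coeff_sub, coeff_lead] at hm
  by_cases h : yd m = d
  · rw [if_pos h, sub_self] at hm
    exact absurd rfl hm
  · rw [if_neg h, sub_zero] at hm
    have := hP m (mem_support_iff.mpr hm)
    omega

theorem lead_add (d : ℕ) (P Q : MvPolynomial (Fin (k + 1)) K) :
    lead d (P + Q) = lead d P + lead d Q := by
  ext m
  rw [coeff_add, coeff_lead, coeff_lead, coeff_lead, coeff_add]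
  split_ifs <;> simp

/-- The leading part is homogeneous in `y`: evaluate at `(t, s y)` in any extension. -/
theorem lead_smul {A : Type*} [CommRing A] [Algebra K A] (d : ℕ)
    (P : MvPolynomial (Fin (k + 1)) K) (t s : A) (y : Fin k → A) :
    aeval (Fin.cons t (fun j => s * y j) : Fin (k + 1) → A) (lead d P) =
      s ^ d * aeval (Fin.cons t y : Fin (k + 1) → A) (lead d P) := by
  rw [lead, map_sum, map_sum, Finset.mul_sum]
  apply Finset.sum_congr rfl
  intro m hm
  have hd : yd m = d := (Finset.mem_filter.mp hm).2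
  rw [aeval_monomial, aeval_monomial, Finsupp.prod_fintype _ _ (fun i => pow_zero _),
    Finsupp.prod_fintype _ _ (fun i => pow_zero _), Fin.prod_univ_succ, Fin.prod_univ_succ]
  simp only [Fin.cons_zero, Fin.cons_succ, mul_pow]
  rw [Finset.prod_mul_distrib, Finset.prod_pow_eq_pow_sum]
  rw [← hd, yd]
  ring

end Pool.Agent.H.MP_31a675_nt
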