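import Pool.Agent.H.MP_31a675_nt.LocA

/-!
# The passage from local to global inequalities
-/

namespace Pool.Agent.H.MP_31a675_nt

open NumberField Height

variable {K : Type*} [Field K]

theorem Loc_ne {n : ℕ} (x : Fin n → K) : (Fin.cons 1 x : Fin (n + 1) → K) ≠ 0 := by
  intro h
  have := congrFun h 0
  simp at this

theorem Loc_pos (v : AbsoluteValue K ℝ) {n : ℕ} (x : Fin n → K) : 0 < nrm v x :=
  lt_of_lt_of_le one_pos (one_le_nrm v x)

theorem Loc_eq [NumberField K] {n : ℕ} (x : Fin n → K) :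
    mulHeight (Fin.cons 1 x : Fin (n + 1) → K) =
      ((AdmissibleAbsValues.archAbsVal (K := K)).map fun v => nrm v x).prod *
        ∏ᶠ v : AdmissibleAbsValues.nonarchAbsVal (K := K), nrm v.val x :=
  mulHeight_eq (Loc_ne x)

theorem Loc_fin [NumberField K] {n : ℕ} (x : Fin n → K) :
    (fun v : AdmissibleAbsValues.nonarchAbsVal (K := K) =>
      nrm v.val x).HasFiniteMulSupport := by
  have := Loc_ne x
  unfold nrm
  fun_prop (disch := assumption)

theorem Loc_prod_pos [NumberField K] {n : ℕ} (x : Fin n → K) :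
    0 < ((AdmissibleAbsValues.archAbsVal (K := K)).map fun v => nrm v x).prod := by
  refine Multiset.prod_induction (fun t : ℝ => 0 < t) _ (fun a b ha hb => mul_pos ha hb) one_pos ?_
  intro a ha
  obtain ⟨v, -, rfl⟩ := Multiset.mem_map.1 ha
  exact Loc_pos v x

theorem Loc_fprod_pos [NumberField K] {n : ℕ} (x : Fin n → K) :
    0 < ∏ᶠ v : AdmissibleAbsValues.nonarchAbsVal (K := K), nrm v.val x :=
  finprod_induction (fun t : ℝ => 0 < t) one_pos (fun _ _ ha hb => mul_pos ha hb)
    fun v => Loc_pos v.val x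

/-- From local to global: an inequality between local norms with constants admissible at all places
gives an inequality of heights. Write the right hand side as the local norm of the tensor product of
powers of the vectors (`Height.mulHeight_fun_mul_eq`, `Height.mulHeight_pow`), or compare the
products over the places in the definition `Height.mulHeight_eq` directly: the archimedean places
contribute at most `κ ^ (s * totalWeight K)`, and the products over the non-archimedean places are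
finite. -/
theorem glob [NumberField K] {n₀ n₁ n₂ n₃ n₄ n₅ : ℕ} (x₀ : Fin n₀ → K) (x₁ : Fin n₁ → K)
    (x₂ : Fin n₂ → K) (x₃ : Fin n₃ → K) (x₄ : Fin n₄ → K) (x₅ : Fin n₅ → K)
    (e₀ e₁ e₂ e₃ e₄ e₅ s : ℕ) (κ : ℝ) (hκ : 1 ≤ κ)
    (h : ∀ (v : AbsoluteValue K ℝ) (κ' : ℝ), Adm κ v κ' →
      nrm v x₀ ^ e₀ ≤ κ' ^ s * (nrm v x₁ ^ e₁ * nrm v x₂ ^ e₂ * nrm v x₃ ^ e₃ *
        nrm v x₄ ^ e₄ * nrm v x₅ ^ e₅)) :
    (e₀ : ℝ) * ht x₀ ≤ (s : ℝ) * totalWeight K * Real.log κ +
      ((e₁ : ℝ) * ht x₁ + e₂ * ht x₂ + e₃ * ht x₃ + e₄ * ht x₄ + e₅ * ht x₅) := by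
  have hκ0 : 0 < κ := lt_of_lt_of_le one_pos hκ
  -- the archimedean places
  have hA : ((AdmissibleAbsValues.archAbsVal (K := K)).map fun v => nrm v x₀).prod ^ e₀ ≤
      (κ ^ s) ^ totalWeight K *
        (((AdmissibleAbsValues.archAbsVal (K := K)).map fun v => nrm v x₁).prod ^ e₁ *
        ((AdmissibleAbsValues.archAbsVal (K := K)).map fun v => nrm v x₂).prod ^ e₂ *
        ((AdmissibleAbsValues.archAbsVal (K := K)).map fun v => nrm v x₃).prod ^ e₃ *
        ((AdmissibleAbsValues.archAbsVal (K := K)).map fun v => nrm v x₄).prod ^ e₄ *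
        ((AdmissibleAbsValues.archAbsVal (K := K)).map fun v => nrm v x₅).prod ^ e₅) := by
    rw [← Multiset.prod_map_pow, ← Multiset.prod_map_pow, ← Multiset.prod_map_pow,
      ← Multiset.prod_map_pow, ← Multiset.prod_map_pow, ← Multiset.prod_map_pow,
      ← Multiset.prod_map_mul, ← Multiset.prod_map_mul, ← Multiset.prod_map_mul,
      ← Multiset.prod_map_mul, totalWeight, ← Multiset.prod_replicate, ← Multiset.map_const',
      ← Multiset.prod_map_mul]
    refine Multiset.prod_map_le_prod_map₀ _ _ (fun v _ => pow_nonneg (Loc_pos v x₀).le _)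
      fun v _ => ?_
    exact h v κ ⟨hκ, Or.inl le_rfl⟩
  -- the other places
  have hB : (∏ᶠ v : AdmissibleAbsValues.nonarchAbsVal (K := K), nrm v.val x₀) ^ e₀ ≤
      (∏ᶠ v : AdmissibleAbsValues.nonarchAbsVal (K := K), nrm v.val x₁) ^ e₁ *
      (∏ᶠ v : AdmissibleAbsValues.nonarchAbsVal (K := K), nrm v.val x₂) ^ e₂ *
      (∏ᶠ v : AdmissibleAbsValues.nonarchAbsVal (K := K), nrm v.val x₃) ^ e₃ *
      (∏ᶠ v : AdmissibleAbsValues.nonarchAbsVal (K := K), nrm v.val x₄) ^ e₄ *
      (∏ᶠ v : AdmissibleAbsValues.nonarchAbsVal (K := K), nrm v.val x₅) ^ e₅ := by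
    have f0 := (Loc_fin x₀)
    have f1 := (Loc_fin x₁)
    have f2 := (Loc_fin x₂)
    have f3 := (Loc_fin x₃)
    have f4 := (Loc_fin x₄)
    have f5 := (Loc_fin x₅)
    rw [finprod_pow f0, finprod_pow f1, finprod_pow f2, finprod_pow f3, finprod_pow f4,
      finprod_pow f5, ← finprod_mul_distrib (f1.fun_pow _) (f2.fun_pow _),
      ← finprod_mul_distrib ((f1.fun_pow _).fun_mul (f2.fun_pow _)) (f3.fun_pow _),
      ← finprod_mul_distrib (((f1.fun_pow _).fun_mul (f2.fun_pow _)).fun_mul (f3.fun_pow _))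
        (f4.fun_pow _),
      ← finprod_mul_distrib ((((f1.fun_pow _).fun_mul (f2.fun_pow _)).fun_mul
        (f3.fun_pow _)).fun_mul (f4.fun_pow _)) (f5.fun_pow _)]
    refine finprod_le_finprod (f0.fun_pow _) (fun v => pow_nonneg (Loc_pos v.val x₀).le _)
      (((((f1.fun_pow _).fun_mul (f2.fun_pow _)).fun_mul (f3.fun_pow _)).fun_mul
        (f4.fun_pow _)).fun_mul (f5.fun_pow _)) fun v => ?_
    have h1 := h v.val 1 ⟨le_rfl, Or.inr (AdmissibleAbsValues.isNonarchimedean _ v.prop)⟩
    rw [one_pow, one_mul] at h1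
    exact h1
  have hht : ∀ {n : ℕ} (x : Fin n → K), ht x =
      Real.log ((AdmissibleAbsValues.archAbsVal (K := K)).map fun v => nrm v x).prod +
        Real.log (∏ᶠ v : AdmissibleAbsValues.nonarchAbsVal (K := K), nrm v.val x) := by
    intro n x
    unfold ht
    rw [logHeight_eq_log_mulHeight, Loc_eq, Real.log_mul (Loc_prod_pos x).ne'
      (Loc_fprod_pos x).ne']
  have hA' := Real.log_le_log (pow_pos (Loc_prod_pos x₀) _) hA
  have hB' := Real.log_le_log (pow_pos (Loc_fprod_pos x₀) _) hB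
  have a1 := pow_pos (Loc_prod_pos x₁) e₁
  have a2 := pow_pos (Loc_prod_pos x₂) e₂
  have a3 := pow_pos (Loc_prod_pos x₃) e₃
  have a4 := pow_pos (Loc_prod_pos x₄) e₄
  have a5 := pow_pos (Loc_prod_pos x₅) e₅
  have b1 := pow_pos (Loc_fprod_pos x₁) e₁
  have b2 := pow_pos (Loc_fprod_pos x₂) e₂
  have b3 := pow_pos (Loc_fprod_pos x₃) e₃
  have b4 := pow_pos (Loc_fprod_pos x₄) e₄
  have b5 := pow_pos (Loc_fprod_pos x₅) e₅
  rw [Real.log_mul (by positivity) (by positivity), Real.log_mul (by positivity) a5.ne',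
    Real.log_mul (by positivity) a4.ne', Real.log_mul (by positivity) a3.ne',
    Real.log_mul a1.ne' a2.ne', Real.log_pow, Real.log_pow, Real.log_pow, Real.log_pow,
    Real.log_pow, Real.log_pow, Real.log_pow, Real.log_pow] at hA'
  rw [Real.log_mul (by positivity) b5.ne',
    Real.log_mul (by positivity) b4.ne', Real.log_mul (by positivity) b3.ne',
    Real.log_mul b1.ne' b2.ne', Real.log_pow, Real.log_pow, Real.log_pow, Real.log_pow,
    Real.log_pow, Real.log_pow] at hB'
  rw [hht, hht, hht, hht, hht, hht]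
  linarith

end Pool.Agent.H.MP_31a675_nt
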