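import Pool.Agent.H.MP_31a675_nt.Defs

/-!
# Local norms and the passage from local to global inequalities
-/

namespace Pool.Agent.H.MP_31a675_nt

open NumberField Height

variable {K : Type*} [Field K]

/-- The local norm of the vector `(1, x_1, ..., x_n)` for the absolute value `v`. -/
noncomputable def nrm (v : AbsoluteValue K ℝ) {n : ℕ} (x : Fin n → K) : ℝ :=
  ⨆ i, v ((Fin.cons 1 x : Fin (n + 1) → K) i)

/-- `κ'` is an admissible constant for `v`: at least `κ`, or at least `1` if `v` is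
non-archimedean. -/
def Adm (κ : ℝ) (v : AbsoluteValue K ℝ) (κ' : ℝ) : Prop :=
  1 ≤ κ' ∧ (κ ≤ κ' ∨ IsNonarchimedean v)

theorem one_le_nrm (v : AbsoluteValue K ℝ) {n : ℕ} (x : Fin n → K) : 1 ≤ nrm v x := by
  have h := Finite.le_ciSup (fun i => v ((Fin.cons 1 x : Fin (n + 1) → K) i)) 0
  simp only [Fin.cons_zero, map_one] at h
  exact h

theorem le_nrm (v : AbsoluteValue K ℝ) {n : ℕ} (x : Fin n → K) (i : Fin n) :
    v (x i) ≤ nrm v x := by
  have h := Finite.le_ciSup (fun i => v ((Fin.cons 1 x : Fin (n + 1) → K) i)) i.succ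
  simp only [Fin.cons_succ] at h
  exact h

theorem nrm_le (v : AbsoluteValue K ℝ) {n : ℕ} (x : Fin n → K) (B : ℝ) (h1 : 1 ≤ B)
    (h : ∀ i, v (x i) ≤ B) : nrm v x ≤ B := by
  refine ciSup_le fun i => ?_
  induction i using Fin.cases with
  | zero => simpa using h1
  | succ i => simpa using h i

/-- Sums of at most `κ` terms: for archimedean `v` by the triangle inequality, for non-archimedean
`v` by the ultrametric inequality. -/
theorem sum_adm (v : AbsoluteValue K ℝ) {κ κ' : ℝ} (ha : Adm κ v κ') {ι : Type*} (S : Finset ι)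
    (z : ι → K) (B : ℝ) (hB : 0 ≤ B) (hS : (S.card : ℝ) ≤ κ) (h : ∀ m ∈ S, v (z m) ≤ B) :
    v (∑ m ∈ S, z m) ≤ κ' * B := by
  rcases ha with ⟨h1, h2 | h2⟩
  · calc v (∑ m ∈ S, z m) ≤ ∑ m ∈ S, v (z m) := v.sum_le S z
      _ ≤ ∑ _m ∈ S, B := Finset.sum_le_sum h
      _ = (S.card : ℝ) * B := by rw [Finset.sum_const, nsmul_eq_mul]
      _ ≤ κ' * B := mul_le_mul_of_nonneg_right (hS.trans h2) hB
  · have h3 : ∀ T : Finset ι, (∀ m ∈ T, v (z m) ≤ B) → v (∑ m ∈ T, z m) ≤ B := by
      intro T
      induction T using Finset.cons_induction with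
      | empty => intro _; simpa using hB
      | cons a T ha ih =>
        intro hT
        rw [Finset.sum_cons]
        refine (h2 _ _).trans (max_le (hT a (Finset.mem_cons_self a T)) (ih fun m hm => ?_))
        exact hT m (Finset.mem_cons_of_mem hm)
    calc v (∑ m ∈ S, z m) ≤ B := h3 S h
      _ = 1 * B := (one_mul B).symm
      _ ≤ κ' * B := mul_le_mul_of_nonneg_right h1 hB

theorem ht_nonneg [NumberField K] {n : ℕ} (x : Fin n → K) : 0 ≤ ht x := by
  exact Height.logHeight_nonneg _

/-- A coordinate has height at most that of the vector (`Height.logHeight_comp_le`,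
`Height.logHeight₁_eq_logHeight`). -/
theorem coord_le_ht [NumberField K] {n : ℕ} (x : Fin n → K) (i : Fin n) :
    logHeight₁ (x i) ≤ ht x := by
  rw [logHeight₁_eq_logHeight]
  have h : (![x i, 1] : Fin 2 → K) = (Fin.cons 1 x : Fin (n + 1) → K) ∘ ![i.succ, 0] := by
    funext j
    fin_cases j <;> simp
  rw [h]
  exact logHeight_comp_le _ _

/-- The vector of length one with entry `t`. -/
def one (t : K) : Fin 1 → K := fun _ => t

end Pool.Agent.H.MP_31a675_nt
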