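import Pool.Agent.H.MP_31a675_nt.Taylor
import Pool.Agent.H.MP_31a675_nt.Idem

/-!
# Differences along an orbit of a polynomial map, `p`-adically
-/

namespace Pool.Agent.H.MP_31a675_nt

open MvPolynomial

private lemma Local_iter {S : Type*} [Finite S] (f : S → S) :
    ∃ M, 1 ≤ M ∧ f^[M + M] = f^[M] := by
  obtain ⟨i, j, hij, hf⟩ : ∃ i j, i < j ∧ f^[i] = f^[j] := by
    by_contra h
    push Not at h
    have hinj : Function.Injective fun n : ℕ => (f^[n] : S → S) := by
      intro a b hab
      rcases lt_trichotomy a b with h1 | h1 | h1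
      · exact absurd hab (h a b h1)
      · exact h1
      · exact absurd hab.symm (h b a h1)
    exact not_injective_infinite_finite _ hinj
  obtain ⟨p, rfl⟩ : ∃ p, j = i + p := ⟨j - i, by omega⟩
  have hp : 1 ≤ p := by omega
  have h1 : ∀ n, i ≤ n → f^[n + p] = f^[n] := by
    intro n hn
    obtain ⟨m, rfl⟩ : ∃ m, n = m + i := ⟨n - i, by omega⟩
    rw [add_assoc, Function.iterate_add, ← hf, ← Function.iterate_add]
  have h2 : ∀ k n, i ≤ n → f^[n + k * p] = f^[n] := by
    intro k
    induction k with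
    | zero => intro n _; rw [zero_mul, add_zero]
    | succ k ih =>
      intro n hn
      rw [add_mul, one_mul, ← add_assoc, h1 _ (by omega), ih n hn]
  refine ⟨(i + 1) * p, Nat.mul_pos (Nat.succ_pos i) hp, h2 (i + 1) _ ?_⟩
  calc i ≤ i + 1 := Nat.le_succ i
    _ = (i + 1) * 1 := (mul_one _).symm
    _ ≤ (i + 1) * p := Nat.mul_le_mul_left _ hp

/-- Some iterate of `φ` is idempotent modulo `q`: `φ` acts on the finite set `(R / q) ^ N`, and some
power of an element of a finite monoid is idempotent. -/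
theorem exists_idem {R : Type*} [CommRing R] {N : ℕ} (φ : Fin N → MvPolynomial (Fin N) R) (q : R)
    [Finite (R ⧸ Ideal.span {q})] :
    ∃ M, 1 ≤ M ∧ ∀ (x : Fin N → R) (i : Fin N), q ∣ orb φ x (M + M) i - orb φ x M i := by
  set g : R →+* R ⧸ Ideal.span {q} := Ideal.Quotient.mk _ with hg
  obtain ⟨M, hM, hf⟩ := Local_iter (ev fun j => map g (φ j))
  refine ⟨M, hM, fun x i => ?_⟩
  have h1 : g (orb φ x (M + M) i) = g (orb φ x M i) := by
    rw [map_orb, map_orb, orb, hf, ← orb]
  rw [← sub_eq_zero, ← map_sub, hg, Ideal.Quotient.eq_zero_iff_mem,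
    Ideal.mem_span_singleton] at h1
  exact h1

/-- Let `γ` be a polynomial map with `γ (γ x) = γ x` modulo `p ^ 2` for all `x`, and `γ z = z` modulo
`p ^ 2`. Then the Jacobian matrix `A` of `γ` at `z` satisfies `A ^ 2 = A` modulo `p`: apply
`taylor_point` to `γ` at `z + p e_k` (`e_k` the unit vector): `γ (z + p e_k) = z + p A e_k` modulo
`p ^ 2`, and again `γ (z + p A e_k) = z + p A A e_k` modulo `p ^ 2` (`eval_congr`). Cancel `p`. -/
theorem jac_idem {R : Type*} [CommRing R] [IsDomain R] {N : ℕ}
    (γ : Fin N → MvPolynomial (Fin N) R) (p : R) (hp : p ≠ 0)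
    (hγ : ∀ (x : Fin N → R) (i : Fin N), p ^ 2 ∣ ev γ (ev γ x) i - ev γ x i)
    (z : Fin N → R) (hz : ∀ i, p ^ 2 ∣ ev γ z i - z i) (i k : Fin N) :
    p ∣ (∑ j, eval z (pderiv j (γ i)) * eval z (pderiv k (γ j))) - eval z (pderiv k (γ i)) := by
  classical
  -- the point `z + p e_k`
  have hx : ∀ i, p ^ 2 ∣ ev γ (fun j => z j + p * (Pi.single k 1 : Fin N → R) j) i -
      (z i + p * eval z (pderiv k (γ i))) := by
    intro i
    obtain ⟨r, hr⟩ := taylor_point (γ i) z (Pi.single k 1 : Fin N → R) p
    obtain ⟨s, hs⟩ := hz i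
    have hsum : ∑ j, eval z (pderiv j (γ i)) * (Pi.single k 1 : Fin N → R) j =
        eval z (pderiv k (γ i)) := by
      rw [Finset.sum_eq_single k]
      · rw [Pi.single_eq_same, mul_one]
      · intro j _ hj
        rw [Pi.single_eq_of_ne hj, mul_zero]
      · intro h
        exact absurd (Finset.mem_univ k) h
    rw [hsum] at hr
    refine ⟨r + s, ?_⟩
    have h1 : ev γ (fun j => z j + p * (Pi.single k 1 : Fin N → R) j) i =
      eval z (γ i) + p * eval z (pderiv k (γ i)) + p ^ 2 * r := hr
    have h2 : eval z (γ i) - z i = p ^ 2 * s := hs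
    rw [h1]
    linear_combination h2
  have h1 := hγ (fun j => z j + p * (Pi.single k 1 : Fin N → R) j) i
  have h2 := eval_congr (γ i) _ (fun i => z i + p * eval z (pderiv k (γ i))) (p ^ 2) hx
  obtain ⟨r, hr⟩ := taylor_point (γ i) z (fun j => eval z (pderiv k (γ j))) p
  obtain ⟨s, hs⟩ := hz i
  obtain ⟨a, ha⟩ := h1
  obtain ⟨b, hb⟩ := h2
  obtain ⟨c, hc⟩ := hx i
  have hs' : eval z (γ i) - z i = p ^ 2 * s := hs
  have ha' : eval (ev γ (fun j => z j + p * (Pi.single k 1 : Fin N → R) j)) (γ i) -
    ev γ (fun j => z j + p * (Pi.single k 1 : Fin N → R) j) i = p ^ 2 * a := ha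
  refine ⟨a + c - b - r - s, mul_left_cancel₀ hp ?_⟩
  linear_combination ha' - hb + hc - hr - hs'

/-- The lift of `γ` at the point `z`: there are polynomials `g i` with `z + p g (w) = γ (z + p w)`
and `g i = ∑ A i j w_j` modulo `p`. From `taylor` and `γ z = z` modulo `p ^ 2`. -/
theorem exists_lift {R : Type*} [CommRing R] [IsDomain R] {N : ℕ}
    (γ : Fin N → MvPolynomial (Fin N) R) (p : R)
    (z : Fin N → R) (hz : ∀ i, p ^ 2 ∣ ev γ z i - z i) :
    ∃ g T : Fin N → MvPolynomial (Fin N) R,
      (∀ i, aeval (fun j => C (z j) + C p * X j) (γ i) = C (z i) + C p * g i) ∧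
      ∀ i, g i = (∑ j, C (eval z (pderiv j (γ i))) * X j) + C p * T i := by
  choose s hs using hz
  choose T hT using fun i => taylor (γ i) z p
  refine ⟨fun i => (∑ j, C (eval z (pderiv j (γ i))) * X j) + C p * (T i + C (s i)),
    fun i => T i + C (s i), fun i => ?_, fun i => rfl⟩
  rw [hT i]
  have h1 : eval z (γ i) = z i + p ^ 2 * s i := by
    have : eval z (γ i) - z i = p ^ 2 * s i := hs i
    linear_combination this
  rw [h1]
  simp only [map_add, map_mul, map_pow]
  ring

/-- The substitution `w ↦ g (w)` is idempotent modulo `p`. Both `aeval g ∘ aeval g` and `aeval g` are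
algebra homomorphisms; they agree modulo `p` on the variables by `jac_idem`, hence everywhere
(`eval_congr` for polynomials: `P ↦ aeval a P` respects congruences; or pass to the coefficients in
`R / p`). -/
theorem lift_idem {R : Type*} [CommRing R] [IsDomain R] {N : ℕ}
    (γ : Fin N → MvPolynomial (Fin N) R) (p : R) (hp : p ≠ 0)
    (hγ : ∀ (x : Fin N → R) (i : Fin N), p ^ 2 ∣ ev γ (ev γ x) i - ev γ x i)
    (z : Fin N → R) (hz : ∀ i, p ^ 2 ∣ ev γ z i - z i) (g T : Fin N → MvPolynomial (Fin N) R)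
    (hg : ∀ i, g i = (∑ j, C (eval z (pderiv j (γ i))) * X j) + C p * T i)
    (Q : MvPolynomial (Fin N) R) :
    ∃ Q' : MvPolynomial (Fin N) R,
      (aeval g : MvPolynomial (Fin N) R →ₐ[R] MvPolynomial (Fin N) R) (aeval g Q) - aeval g Q =
        p • Q' := by
  -- `aeval g (g i) = g i` modulo `p`
  have hvar : ∀ i, ∃ B : MvPolynomial (Fin N) R,
      (aeval g : MvPolynomial (Fin N) R →ₐ[R] MvPolynomial (Fin N) R) (g i) - g i = C p * B := by
    intro i
    choose a ha using fun k => jac_idem γ p hp hγ z hz i k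
    have e1 : (aeval g : MvPolynomial (Fin N) R →ₐ[R] MvPolynomial (Fin N) R) (g i) =
        (∑ j, C (eval z (pderiv j (γ i))) * g j) + C p * aeval g (T i) := by
      conv_lhs => rw [hg i]
      rw [map_add, map_sum, map_mul]
      congr 1
      · refine Finset.sum_congr rfl fun j _ => ?_
        rw [map_mul, aeval_X, aeval_C]
        rfl
      · rw [aeval_C]
        rfl
    have e2 : (∑ j, C (eval z (pderiv j (γ i))) * g j : MvPolynomial (Fin N) R) =
        (∑ k, C (∑ j, eval z (pderiv j (γ i)) * eval z (pderiv k (γ j))) * X k) +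
          C p * ∑ j, C (eval z (pderiv j (γ i))) * T j := by
      have e3 : ∀ j, (C (eval z (pderiv j (γ i))) * g j : MvPolynomial (Fin N) R) =
          (∑ k, C (eval z (pderiv j (γ i)) * eval z (pderiv k (γ j))) * X k) +
            C p * (C (eval z (pderiv j (γ i))) * T j) := by
        intro j
        rw [hg j, mul_add, Finset.mul_sum]
        congr 1
        · refine Finset.sum_congr rfl fun k _ => ?_
          rw [map_mul]
          ring
        · ring
      rw [Finset.sum_congr rfl fun j _ => e3 j, Finset.sum_add_distrib, Finset.sum_comm,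
        ← Finset.mul_sum]
      congr 1
      refine Finset.sum_congr rfl fun k _ => ?_
      rw [map_sum, Finset.sum_mul]
    have e4 : (∑ k, C (∑ j, eval z (pderiv j (γ i)) * eval z (pderiv k (γ j))) * X k :
        MvPolynomial (Fin N) R) =
        (∑ k, C (eval z (pderiv k (γ i))) * X k) + C p * ∑ k, C (a k) * X k := by
      rw [Finset.mul_sum, ← Finset.sum_add_distrib]
      refine Finset.sum_congr rfl fun k _ => ?_
      have h1 : ∑ j, eval z (pderiv j (γ i)) * eval z (pderiv k (γ j)) =
          eval z (pderiv k (γ i)) + p * a k := by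
        linear_combination ha k
      rw [h1, map_add, map_mul]
      ring
    refine ⟨(∑ k, C (a k) * X k) + (∑ j, C (eval z (pderiv j (γ i))) * T j) +
      aeval g (T i) - T i, ?_⟩
    rw [e1, e2, e4]
    conv_lhs => rw [hg i]
    ring
  have key : ∃ Q' : MvPolynomial (Fin N) R,
      (aeval g : MvPolynomial (Fin N) R →ₐ[R] MvPolynomial (Fin N) R) (aeval g Q) - aeval g Q =
        C p * Q' := by
    induction Q using MvPolynomial.induction_on with
    | C a =>
      refine ⟨0, ?_⟩
      rw [aeval_C]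
      change (aeval g : MvPolynomial (Fin N) R →ₐ[R] MvPolynomial (Fin N) R) (C a) - C a = _
      rw [aeval_C, mul_zero]
      exact sub_self _
    | add P Q hP hQ =>
      obtain ⟨A, hA⟩ := hP
      obtain ⟨B, hB⟩ := hQ
      refine ⟨A + B, ?_⟩
      rw [map_add, map_add]
      linear_combination hA + hB
    | mul_X P i hP =>
      obtain ⟨A, hA⟩ := hP
      obtain ⟨B, hB⟩ := hvar i
      refine ⟨A * aeval g (g i) + aeval g P * B, ?_⟩
      rw [map_mul, map_mul, aeval_X]
      linear_combination (aeval g (g i)) * hA + (aeval g P) * hB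
  obtain ⟨Q', hQ'⟩ := key
  exact ⟨Q', by rw [hQ', ← smul_eq_C_mul]⟩

end Pool.Agent.H.MP_31a675_nt
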