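import Pool.Agent.H.MP_31a675_nt.Lead

/-!
# The Nullstellensatz for the leading parts
-/

namespace Pool.Agent.H.MP_31a675_nt

open MvPolynomial

variable {K : Type*} [Field K] {k : ℕ}

/-- Nullstellensatz over the algebraically closed field `Om K`: some power of each variable lies in
the ideal generated by the polynomials `S i (τ, ·)`, whose only common zero is `0`
(`MvPolynomial.vanishingIdeal_zeroLocus_eq_radical`). -/
theorem null_om {ι : Type} [Fintype ι] (S : ι → MvPolynomial (Fin (k + 1)) K) (hS : NoZero S) :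
    ∃ M : ℕ, ∀ j : Fin k, (X j : MvPolynomial (Fin k) (Om K)) ^ M ∈
      Ideal.span (Set.range fun i =>
        aeval (Fin.cons (C (tau K)) X : Fin (k + 1) → MvPolynomial (Fin k) (Om K)) (S i)) := by
  set f : ι → MvPolynomial (Fin k) (Om K) := fun i =>
    aeval (Fin.cons (C (tau K)) X : Fin (k + 1) → MvPolynomial (Fin k) (Om K)) (S i) with hf
  have key : ∀ j : Fin k, ∃ n : ℕ, (X j : MvPolynomial (Fin k) (Om K)) ^ n ∈
      Ideal.span (Set.range f) := by
    intro j
    have h1 : (X j : MvPolynomial (Fin k) (Om K)) ∈ (Ideal.span (Set.range f)).radical := by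
      rw [← vanishingIdeal_zeroLocus_eq_radical (K := Om K)]
      intro x hx
      have hx0 : x = 0 := by
        apply hS
        intro i
        have h2 := hx (f i) (Ideal.subset_span ⟨i, rfl⟩)
        have h3 : ((aeval x : MvPolynomial (Fin k) (Om K) →ₐ[Om K] Om K).restrictScalars K).comp
            (aeval (Fin.cons (C (tau K)) X : Fin (k + 1) → MvPolynomial (Fin k) (Om K))) =
            (aeval (Fin.cons (tau K) x : Fin (k + 1) → Om K) :
              MvPolynomial (Fin (k + 1)) K →ₐ[K] Om K) := by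
          apply MvPolynomial.algHom_ext
          intro i
          refine Fin.cases ?_ (fun i => ?_) i
          · simp
          · simp
        have h4 := DFunLike.congr_fun h3 (S i)
        rw [← h4]
        exact h2
      rw [hx0]
      simp
    exact h1
  choose n hn using key
  refine ⟨∑ j, n j, fun j => ?_⟩
  have hle : n j ≤ ∑ j, n j := Finset.single_le_sum (fun _ _ => Nat.zero_le _) (Finset.mem_univ j)
  exact Ideal.pow_mem_of_pow_mem _ (hn j) hle

/-- Coefficientwise application of a linear map. -/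
private noncomputable def cmap {L Ω : Type*} [Field L] [Field Ω] [Algebra L Ω] {σ : Type*}
    (l : Ω →ₗ[L] L) (p : MvPolynomial σ Ω) : MvPolynomial σ L :=
  p.support.sum fun m => monomial m (l (coeff m p))

private theorem coeff_cmap {L Ω : Type*} [Field L] [Field Ω] [Algebra L Ω] {σ : Type*}
    (l : Ω →ₗ[L] L) (p : MvPolynomial σ Ω) (m : σ →₀ ℕ) :
    coeff m (cmap l p) = l (coeff m p) := by
  classical
  unfold cmap
  rw [coeff_sum]
  simp only [coeff_monomial]
  by_cases h : m ∈ p.support
  · rw [Finset.sum_eq_single m]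
    · simp
    · intro b _ hb
      simp [hb]
    · intro h'
      exact absurd h h'
  · rw [Finset.sum_eq_zero]
    · rw [notMem_support_iff.mp h]
      simp
    · intro b hb
      have : b ≠ m := by
        rintro rfl
        exact h hb
      simp [this]

private theorem cmap_mul {L Ω : Type*} [Field L] [Field Ω] [Algebra L Ω] {σ : Type*}
    (l : Ω →ₗ[L] L) (p : MvPolynomial σ Ω) (q : MvPolynomial σ L) :
    cmap l (p * map (algebraMap L Ω) q) = cmap l p * q := by
  classical
  ext m
  rw [coeff_cmap, coeff_mul, coeff_mul, map_sum]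
  apply Finset.sum_congr rfl
  intro x _
  rw [coeff_map, coeff_cmap, mul_comm, ← Algebra.smul_def, map_smul, smul_eq_mul, mul_comm]

private theorem cmap_sum {L Ω : Type*} [Field L] [Field Ω] [Algebra L Ω] {σ ι : Type*}
    (l : Ω →ₗ[L] L) (s : Finset ι) (p : ι → MvPolynomial σ Ω) :
    cmap l (∑ i ∈ s, p i) = ∑ i ∈ s, cmap l (p i) := by
  classical
  ext m
  rw [coeff_cmap, coeff_sum, coeff_sum, map_sum]
  apply Finset.sum_congr rfl
  intro x _
  rw [coeff_cmap]

/-- Descent from `Om K` to `K(t)`: apply to the coefficients of the identity a `K(t)`-linear map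
`Om K → K(t)` which is the identity on `K(t)`. -/
theorem null_ratfunc {ι : Type} [Fintype ι] (S : ι → MvPolynomial (Fin (k + 1)) K) (hS : NoZero S) :
    ∃ M : ℕ, ∀ j : Fin k, (X j : MvPolynomial (Fin k) (RatFunc K)) ^ M ∈
      Ideal.span (Set.range fun i =>
        aeval (Fin.cons (C RatFunc.X) X : Fin (k + 1) → MvPolynomial (Fin k) (RatFunc K)) (S i)) := by
  obtain ⟨M, hM⟩ := null_om S hS
  refine ⟨M, fun j => ?_⟩
  have h1 := hM j
  rw [Ideal.mem_span_range_iff_exists_fun] at h1 ⊢
  obtain ⟨a, ha⟩ := h1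
  obtain ⟨l, hl⟩ : ∃ l : Om K →ₗ[RatFunc K] RatFunc K, l 1 = 1 := by
    obtain ⟨l, hl⟩ := LinearMap.exists_leftInverse_of_injective
      (Algebra.linearMap (RatFunc K) (Om K))
      (LinearMap.ker_eq_bot.mpr (algebraMap (RatFunc K) (Om K)).injective)
    refine ⟨l, ?_⟩
    have := DFunLike.congr_fun hl 1
    simpa using this
  refine ⟨fun i => cmap l (a i), ?_⟩
  have hmap : ∀ i, aeval (Fin.cons (C (tau K)) X : Fin (k + 1) → MvPolynomial (Fin k) (Om K))
      (S i) = map (algebraMap (RatFunc K) (Om K))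
      (aeval (Fin.cons (C RatFunc.X) X : Fin (k + 1) → MvPolynomial (Fin k) (RatFunc K)) (S i)) := by
    intro i
    have h3 : (((MvPolynomial.mapAlgHom (IsScalarTower.toAlgHom K (RatFunc K) (Om K)) :
        MvPolynomial (Fin k) (RatFunc K) →ₐ[K] MvPolynomial (Fin k) (Om K))).comp
            (aeval (Fin.cons (C RatFunc.X) X : Fin (k + 1) → MvPolynomial (Fin k) (RatFunc K)))) =
            (aeval (Fin.cons (C (tau K)) X : Fin (k + 1) → MvPolynomial (Fin k) (Om K))) := by
      apply MvPolynomial.algHom_ext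
      intro i
      refine Fin.cases ?_ (fun i => ?_) i
      · simp [tau]
      · simp
    have h4 := DFunLike.congr_fun h3 (S i)
    rw [← h4]
    rfl
  have h5 : cmap l (X j ^ M) = (X j : MvPolynomial (Fin k) (RatFunc K)) ^ M := by
    have h6 := cmap_mul l (1 : MvPolynomial (Fin k) (Om K))
      ((X j : MvPolynomial (Fin k) (RatFunc K)) ^ M)
    have h7 : cmap l (1 : MvPolynomial (Fin k) (Om K)) = 1 := by
      classical
      ext m
      rw [coeff_cmap, coeff_one, coeff_one]
      split_ifs
      · exact hl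
      · simp
    rw [h7] at h6
    simpa using h6
  rw [← h5, ← ha, cmap_sum]
  apply Finset.sum_congr rfl
  intro i _
  rw [hmap i, cmap_mul]


/-- The map to `K(t)[y]`. -/
private noncomputable def toRat : MvPolynomial (Fin (k + 1)) K →ₐ[K] MvPolynomial (Fin k) (RatFunc K) :=
  aeval (Fin.cons (C RatFunc.X) X : Fin (k + 1) → MvPolynomial (Fin k) (RatFunc K))

private theorem toRat_inj : Function.Injective (toRat : MvPolynomial (Fin (k + 1)) K →ₐ[K] _) := by
  have h1 : (toRat : MvPolynomial (Fin (k + 1)) K →ₐ[K] _) =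
      (MvPolynomial.mapAlgHom (IsScalarTower.toAlgHom K (Polynomial K) (RatFunc K)) :
        MvPolynomial (Fin k) (Polynomial K) →ₐ[K] MvPolynomial (Fin k) (RatFunc K)).comp
      (((renameEquiv K (_root_.finSuccEquiv k)).trans (optionEquivRight K (Fin k)) :
        MvPolynomial (Fin (k + 1)) K ≃ₐ[K] MvPolynomial (Fin k) (Polynomial K)) :
        MvPolynomial (Fin (k + 1)) K →ₐ[K] MvPolynomial (Fin k) (Polynomial K)) := by
    apply MvPolynomial.algHom_ext
    intro i
    refine Fin.cases ?_ (fun i => ?_) i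
    · simp [toRat]
    · simp [toRat]
  rw [h1]
  have h2 : Function.Injective (MvPolynomial.map (σ := Fin k)
      (algebraMap (Polynomial K) (RatFunc K))) :=
    MvPolynomial.map_injective _ (RatFunc.algebraMap_injective K)
  intro a b hab
  have h3 := h2 hab
  exact (((renameEquiv K (_root_.finSuccEquiv k)).trans (optionEquivRight K (Fin k)) :
        MvPolynomial (Fin (k + 1)) K ≃ₐ[K] MvPolynomial (Fin k) (Polynomial K))).injective h3

private theorem toRat_poly (c : Polynomial K) :
    toRat (Polynomial.aeval (X 0) c : MvPolynomial (Fin (k + 1)) K) =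
      C (algebraMap (Polynomial K) (RatFunc K) c) := by
  have h1 : (toRat : MvPolynomial (Fin (k + 1)) K →ₐ[K] _).comp
      (Polynomial.aeval (X 0) : Polynomial K →ₐ[K] MvPolynomial (Fin (k + 1)) K) =
      (IsScalarTower.toAlgHom K (RatFunc K) (MvPolynomial (Fin k) (RatFunc K))).comp
        (IsScalarTower.toAlgHom K (Polynomial K) (RatFunc K)) := by
    apply Polynomial.algHom_ext
    simp [toRat]
  exact DFunLike.congr_fun h1 c

private theorem clear_one (g : MvPolynomial (Fin k) (RatFunc K)) :
    ∃ (c : Polynomial K) (G : MvPolynomial (Fin (k + 1)) K), c ≠ 0 ∧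
      C (algebraMap (Polynomial K) (RatFunc K) c) * g = toRat G := by
  induction g using MvPolynomial.induction_on with
  | C a =>
    obtain ⟨p, q, hq, rfl⟩ := IsFractionRing.div_surjective (A := Polynomial K) a
    have hq0 : q ≠ 0 := nonZeroDivisors.ne_zero hq
    refine ⟨q, Polynomial.aeval (X 0) p, hq0, ?_⟩
    rw [toRat_poly, ← C_mul]
    congr 1
    have : algebraMap (Polynomial K) (RatFunc K) q ≠ 0 := by
      intro h
      exact hq0 (RatFunc.algebraMap_injective K (by simpa using h))
    field_simp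
  | add p q hp hq =>
    obtain ⟨c, G, hc, h1⟩ := hp
    obtain ⟨d, H, hd, h2⟩ := hq
    refine ⟨c * d, Polynomial.aeval (X 0) d * G + Polynomial.aeval (X 0) c * H,
      mul_ne_zero hc hd, ?_⟩
    rw [map_add, map_mul toRat, map_mul toRat, toRat_poly, toRat_poly, ← h1, ← h2, map_mul, C_mul]
    ring
  | mul_X p i hp =>
    obtain ⟨c, G, hc, h1⟩ := hp
    refine ⟨c, G * X i.succ, hc, ?_⟩
    rw [map_mul, ← h1]
    simp [toRat, mul_assoc]

private theorem clear_fam {ι : Type*} [Fintype ι] (g : ι → MvPolynomial (Fin k) (RatFunc K)) :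
    ∃ (c : Polynomial K) (G : ι → MvPolynomial (Fin (k + 1)) K), c ≠ 0 ∧
      ∀ i, C (algebraMap (Polynomial K) (RatFunc K) c) * g i = toRat (G i) := by
  classical
  choose c G hc hG using fun i => clear_one (g i)
  have hdvd : ∀ i, ∃ r, ∏ j, c j = c i * r := fun i =>
    Finset.dvd_prod_of_mem c (Finset.mem_univ i)
  choose r hr using hdvd
  refine ⟨∏ j, c j, fun i => Polynomial.aeval (X 0) (r i) * G i,
    Finset.prod_ne_zero_iff.mpr fun i _ => hc i, fun i => ?_⟩
  rw [hr i, map_mul, map_mul toRat, toRat_poly, ← hG i, C_mul]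
  ring

/-- Clearing denominators: some `c (t) y_j ^ M` with `c ≠ 0` lies in the ideal of `K[t, y]` generated
by the `S i`; `M` may be taken as large as we like. The ring `K(t)[y]` is a localisation of
`K[t, y]`. -/
theorem null_poly {ι : Type} [Fintype ι] (S : ι → MvPolynomial (Fin (k + 1)) K) (hS : NoZero S)
    (M₀ : ℕ) :
    ∃ (c : Polynomial K) (M : ℕ) (A : Fin k → ι → MvPolynomial (Fin (k + 1)) K), c ≠ 0 ∧ M₀ ≤ M ∧
      ∀ j : Fin k, Polynomial.aeval (X 0) c * X j.succ ^ M = ∑ i, A j i * S i := by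
  obtain ⟨M, hM⟩ := null_ratfunc S hS
  have h1 : ∀ j : Fin k, ∃ a : ι → MvPolynomial (Fin k) (RatFunc K),
      ∑ i, a i * toRat (S i) = (X j : MvPolynomial (Fin k) (RatFunc K)) ^ (M + M₀) := by
    intro j
    have h2 : (X j : MvPolynomial (Fin k) (RatFunc K)) ^ (M + M₀) ∈
        Ideal.span (Set.range fun i => toRat (S i)) :=
      Ideal.pow_mem_of_pow_mem _ (hM j) (Nat.le_add_right _ _)
    rw [Ideal.mem_span_range_iff_exists_fun] at h2
    exact h2
  choose a ha using h1
  obtain ⟨c, G, hc, hG⟩ := clear_fam (fun x : Fin k × ι => a x.1 x.2)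
  refine ⟨c, M + M₀, fun j i => G (j, i), hc, Nat.le_add_left _ _, fun j => ?_⟩
  apply toRat_inj
  rw [map_mul, toRat_poly, map_pow, map_sum]
  have h3 : toRat (X j.succ : MvPolynomial (Fin (k + 1)) K) = X j := by simp [toRat]
  rw [h3, ← ha j, Finset.mul_sum]
  apply Finset.sum_congr rfl
  intro i _
  rw [map_mul, ← hG (j, i), mul_assoc]

private theorem yle_zero (d : ℕ) : YLe d (0 : MvPolynomial (Fin (k + 1)) K) := by
  intro m hm
  simp at hm

private theorem yle_neg {d : ℕ} {P : MvPolynomial (Fin (k + 1)) K} (hP : YLe d P) :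
    YLe d (-P) := by
  intro m hm
  apply hP
  rw [mem_support_iff] at hm ⊢
  simpa using hm

private theorem yle_sum {ι : Type*} {d : ℕ} (s : Finset ι) (P : ι → MvPolynomial (Fin (k + 1)) K)
    (hP : ∀ i ∈ s, YLe d (P i)) : YLe d (∑ i ∈ s, P i) := by
  classical
  induction s using Finset.induction_on with
  | empty => simpa using yle_zero d
  | insert a s ha ih =>
    rw [Finset.sum_insert ha]
    exact yle_add (hP a (Finset.mem_insert_self _ _))
      (ih fun i hi => hP i (Finset.mem_insert_of_mem hi))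

private theorem yle_lead (d : ℕ) (P : MvPolynomial (Fin (k + 1)) K) : YLe d (lead d P) := by
  classical
  apply yle_sum
  intro m hm m' hm'
  rw [mem_support_iff, coeff_monomial] at hm'
  have h1 : m = m' := by
    by_contra h
    rw [if_neg h] at hm'
    exact hm' rfl
  rw [← h1]
  exact (Finset.mem_filter.mp hm).2.le

private theorem lead_zero (d : ℕ) : lead d (0 : MvPolynomial (Fin (k + 1)) K) = 0 := by
  simp [lead]

private theorem lead_sum {ι : Type*} (d : ℕ) (s : Finset ι)
    (P : ι → MvPolynomial (Fin (k + 1)) K) :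
    lead d (∑ i ∈ s, P i) = ∑ i ∈ s, lead d (P i) := by
  classical
  induction s using Finset.induction_on with
  | empty => simpa using lead_zero d
  | insert a s ha ih =>
    rw [Finset.sum_insert ha, Finset.sum_insert ha, lead_add, ih]

/-- The identity with leading parts: from `null_poly` for `lead (d i) (S i)` take the parts of degree
`M` in `y` (`lead_mul_lead`, `lead_monomial`), so that `A j i` is of degree at most `M - d i`. -/
theorem null_lead {ι : Type} [Fintype ι] (S : ι → MvPolynomial (Fin (k + 1)) K) (d : ι → ℕ)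
    (hS : NoZero fun i => lead (d i) (S i)) :
    ∃ (c : Polynomial K) (M : ℕ) (A : Fin k → ι → MvPolynomial (Fin (k + 1)) K), c ≠ 0 ∧ 1 ≤ M ∧
      (∀ i, d i ≤ M) ∧ (∀ j i, YLe (M - d i) (A j i)) ∧
      ∀ j : Fin k, Polynomial.aeval (X 0) c * X j.succ ^ M = ∑ i, A j i * lead (d i) (S i) := by
  obtain ⟨c, M, A, hc, hM, hA⟩ := null_poly _ hS (1 + ∑ i, d i)
  have hd : ∀ i, d i ≤ M := by
    intro i
    have : d i ≤ ∑ i, d i := Finset.single_le_sum (fun _ _ => Nat.zero_le _) (Finset.mem_univ i)
    omega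
  refine ⟨c, M, fun j i => lead (M - d i) (A j i), hc, by omega, hd, fun j i => yle_lead _ _,
    fun j => ?_⟩
  rw [← lead_monomial c j M, hA j, lead_sum]
  apply Finset.sum_congr rfl
  intro i _
  have h1 := lead_mul_lead (M - d i) (d i) (A j i) (S i)
  rw [Nat.sub_add_cancel (hd i)] at h1
  exact h1

/-- The identity with the polynomials `S i` themselves and a remainder of degree at most `M - 1`:
write `lead (d i) (S i) = S i - (S i - lead (d i) (S i))` in `null_lead`. -/
theorem null_identity {ι : Type} [Fintype ι] (S : ι → MvPolynomial (Fin (k + 1)) K) (d : ι → ℕ)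
    (hd : ∀ i, 1 ≤ d i) (hS1 : ∀ i, YLe (d i) (S i)) (hS : NoZero fun i => lead (d i) (S i)) :
    ∃ (c : Polynomial K) (M : ℕ) (A : Fin k → ι → MvPolynomial (Fin (k + 1)) K)
      (T : Fin k → MvPolynomial (Fin (k + 1)) K), c ≠ 0 ∧ 1 ≤ M ∧
      (∀ i, d i ≤ M) ∧ (∀ j i, YLe (M - d i) (A j i)) ∧ (∀ j, YLe (M - 1) (T j)) ∧
      ∀ j : Fin k, Polynomial.aeval (X 0) c * X j.succ ^ M = (∑ i, A j i * S i) + T j := by
  obtain ⟨c, M, A, hc, hM, hdM, hAd, hA⟩ := null_lead S d hS
  refine ⟨c, M, A, fun j => ∑ i, -(A j i * (S i - lead (d i) (S i))), hc, hM, hdM, hAd,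
    fun j => ?_, fun j => ?_⟩
  · apply yle_sum
    intro i _
    apply yle_neg
    have h1 := yle_mul (hAd j i) (yle_sub_lead (hd i) (hS1 i))
    have h2 := hd i
    have h3 := hdM i
    exact yle_mono (by omega) h1
  · rw [hA j, ← Finset.sum_add_distrib]
    apply Finset.sum_congr rfl
    intro i _
    ring

end Pool.Agent.H.MP_31a675_nt
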