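import Pool.Agent.H.MP_31a675_nt.Basic

/-!
# The orbit of a skew product
-/

namespace Pool.Agent.H.MP_31a675_nt

open MvPolynomial

variable {K : Type*} [Field K] {k : ℕ}

/-- The `y` coordinates of the `n`-th point of the orbit of `x` under `skew F`. -/
noncomputable def yo (F : Fin k → MvPolynomial (Fin (k + 1)) K) (x : Fin (k + 1) → K) (n : ℕ) :
    Fin k → K :=
  Fin.tail (orb (skew F) x n)

/-- The first coordinate of the `n`-th point is `x 0 + n`. -/
theorem orb_zero (F : Fin k → MvPolynomial (Fin (k + 1)) K) (x : Fin (k + 1) → K) (n : ℕ) :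
    orb (skew F) x n 0 = x 0 + n := by
  induction n with
  | zero => simp [orb]
  | succ n ih =>
    have h : orb (skew F) x (n + 1) = ev (skew F) (orb (skew F) x n) :=
      Function.iterate_succ_apply' _ _ _
    rw [h]
    show eval (orb (skew F) x n) (X 0 + 1) = x 0 + ((n + 1 : ℕ) : K)
    rw [map_add, eval_X, map_one, ih]
    push_cast
    ring

theorem orb_eq (F : Fin k → MvPolynomial (Fin (k + 1)) K) (x : Fin (k + 1) → K) (n : ℕ) :
    orb (skew F) x n = Fin.cons (x 0 + n) (yo F x n) := by
  rw [← orb_zero F x n]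
  exact (Fin.cons_self_tail _).symm

theorem yo_succ (F : Fin k → MvPolynomial (Fin (k + 1)) K) (x : Fin (k + 1) → K) (n : ℕ)
    (i : Fin k) : yo F x (n + 1) i = eval (Fin.cons (x 0 + n) (yo F x n)) (F i) := by
  have h : orb (skew F) x (n + 1) = ev (skew F) (orb (skew F) x n) :=
    Function.iterate_succ_apply' _ _ _
  rw [← orb_eq]
  show orb (skew F) x (n + 1) i.succ = _
  rw [h]
  show eval (orb (skew F) x n) (skew F i.succ) = _
  unfold skew
  rw [Fin.cons_succ]

/-- A nonzero polynomial `c` vanishes at only finitely many of the points `t + n`. -/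
theorem eventually_ne [CharZero K] (c : Polynomial K) (hc : c ≠ 0) (t : K) :
    ∃ n₀ : ℕ, ∀ n : ℕ, n₀ ≤ n → c.eval (t + n) ≠ 0 := by
  have hinj : Function.Injective (fun n : ℕ => t + (n : K)) := by
    intro a b hab
    exact Nat.cast_injective (add_left_cancel hab)
  have hfin : {n : ℕ | c.eval (t + n) = 0}.Finite := by
    have h1 : {z : K | c.IsRoot z}.Finite := Polynomial.finite_setOf_isRoot hc
    exact h1.preimage hinj.injOn
  obtain ⟨B, hB⟩ := hfin.bddAbove
  refine ⟨B + 1, fun n hn h => ?_⟩
  have := hB h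
  omega

end Pool.Agent.H.MP_31a675_nt
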