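import Pool.Agent.H.MP_31a675_nt.Local

/-!
# A uniform period for which the differences along orbits are `p`-adically small
-/

namespace Pool.Agent.H.MP_31a675_nt

open MvPolynomial

theorem Period_eval_iter {R : Type*} [CommRing R] {N : ℕ}
    (γ : Fin N → MvPolynomial (Fin N) R) (n : ℕ) :
    ∀ (z : Fin N → R) (Q : MvPolynomial (Fin N) R),
      eval z ((aeval γ : MvPolynomial (Fin N) R →ₐ[R] MvPolynomial (Fin N) R)^[n] Q) =
        eval (orb γ z n) Q := by
  induction n with
  | zero => intro z Q; rfl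
  | succ n ih =>
    intro z Q
    rw [Function.iterate_succ_apply', eval_aeval, ih]
    have h : orb γ z (n + 1) = orb γ (ev γ z) n := by
      unfold orb
      rw [Function.iterate_succ_apply]
    rw [h]

theorem Period_comm {R : Type*} [CommRing R] {N : ℕ}
    (γ g s : Fin N → MvPolynomial (Fin N) R)
    (h : ∀ i, (aeval s : MvPolynomial (Fin N) R →ₐ[R] MvPolynomial (Fin N) R) (γ i) =
      (aeval g : MvPolynomial (Fin N) R →ₐ[R] MvPolynomial (Fin N) R) (s i))
    (Q : MvPolynomial (Fin N) R) :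
    (aeval s : MvPolynomial (Fin N) R →ₐ[R] MvPolynomial (Fin N) R)
      ((aeval γ : MvPolynomial (Fin N) R →ₐ[R] MvPolynomial (Fin N) R) Q) =
    (aeval g : MvPolynomial (Fin N) R →ₐ[R] MvPolynomial (Fin N) R)
      ((aeval s : MvPolynomial (Fin N) R →ₐ[R] MvPolynomial (Fin N) R) Q) := by
  have e : ((aeval s : MvPolynomial (Fin N) R →ₐ[R] MvPolynomial (Fin N) R).comp (aeval γ)) =
      ((aeval g : MvPolynomial (Fin N) R →ₐ[R] MvPolynomial (Fin N) R).comp (aeval s)) := by
    apply MvPolynomial.algHom_ext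
    intro i
    simp only [AlgHom.comp_apply, aeval_X]
    exact h i
  exact DFunLike.congr_fun e Q

theorem Period_comm_iter {R : Type*} [CommRing R] {N : ℕ}
    (γ g s : Fin N → MvPolynomial (Fin N) R)
    (h : ∀ i, (aeval s : MvPolynomial (Fin N) R →ₐ[R] MvPolynomial (Fin N) R) (γ i) =
      (aeval g : MvPolynomial (Fin N) R →ₐ[R] MvPolynomial (Fin N) R) (s i))
    (Q : MvPolynomial (Fin N) R) (n : ℕ) :
    (aeval s : MvPolynomial (Fin N) R →ₐ[R] MvPolynomial (Fin N) R)
      ((aeval γ : MvPolynomial (Fin N) R →ₐ[R] MvPolynomial (Fin N) R)^[n] Q) =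
    (((aeval g : MvPolynomial (Fin N) R →ₐ[R] MvPolynomial (Fin N) R).toLinearMap :
      Module.End R (MvPolynomial (Fin N) R)) ^ n)
      ((aeval s : MvPolynomial (Fin N) R →ₐ[R] MvPolynomial (Fin N) R) Q) := by
  induction n with
  | zero => rfl
  | succ n ih =>
    rw [Function.iterate_succ_apply', Period_comm γ g s h, ih, pow_succ', Module.End.mul_apply]
    rfl

/-- Let `z` be a point with `γ z = z` modulo `p ^ 2`, `γ` idempotent modulo `p ^ 2`. With `g` from
`exists_lift`, `Ψ = aeval g`, `ε = eval 0`, `a = Q (z + p w)`: `Q (γ^n z) = ε (Ψ^n a)`, because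
`(Q ∘ γ) (z + p w) = Ψ (Q (z + p w))`. Conclude with `fwd_dvd` and `lift_idem`. -/
theorem diff_dvd_point {R : Type*} [CommRing R] [IsDomain R] {N : ℕ}
    (γ : Fin N → MvPolynomial (Fin N) R) (p : R) (hp : p ≠ 0)
    (hγ : ∀ (x : Fin N → R) (i : Fin N), p ^ 2 ∣ ev γ (ev γ x) i - ev γ x i)
    (z : Fin N → R) (hz : ∀ i, p ^ 2 ∣ ev γ z i - z i) (Q : MvPolynomial (Fin N) R) (n j : ℕ) :
    p ^ (min n j) ∣ (fwdDiff (1 : ℕ))^[j] (fun n => eval (orb γ z n) Q) n := by
  obtain ⟨g, T, hg1, hg2⟩ := exists_lift γ p z hz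
  have hs : ∀ i, (aeval (fun j => C (z j) + C p * X j) :
      MvPolynomial (Fin N) R →ₐ[R] MvPolynomial (Fin N) R) (γ i) =
      (aeval g : MvPolynomial (Fin N) R →ₐ[R] MvPolynomial (Fin N) R)
        ((fun j => C (z j) + C p * X j : Fin N → MvPolynomial (Fin N) R) i) := by
    intro i
    rw [hg1 i]
    simp only [map_add, map_mul, aeval_X, algHom_C, algebraMap_eq]
  have key := fwd_dvd
    ((aeval g : MvPolynomial (Fin N) R →ₐ[R] MvPolynomial (Fin N) R).toLinearMap :
      Module.End R (MvPolynomial (Fin N) R)) p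
    (fun a => lift_idem γ p hp hγ z hz g T hg2 a)
    (aeval (0 : Fin N → R) : MvPolynomial (Fin N) R →ₐ[R] R).toLinearMap
    ((aeval (fun j => C (z j) + C p * X j) :
      MvPolynomial (Fin N) R →ₐ[R] MvPolynomial (Fin N) R) Q) n j
  have e : (fun n : ℕ => eval (orb γ z n) Q) = fun n : ℕ =>
      (aeval (0 : Fin N → R) : MvPolynomial (Fin N) R →ₐ[R] R).toLinearMap
        ((((aeval g : MvPolynomial (Fin N) R →ₐ[R] MvPolynomial (Fin N) R).toLinearMap :
          Module.End R (MvPolynomial (Fin N) R)) ^ n)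
        ((aeval (fun j => C (z j) + C p * X j) :
          MvPolynomial (Fin N) R →ₐ[R] MvPolynomial (Fin N) R) Q)) := by
    funext m
    rw [← Period_comm_iter γ g _ hs Q m, ← Period_eval_iter γ m z Q]
    have h1 := eval_aeval (fun j => C (z j) + C p * X j : Fin N → MvPolynomial (Fin N) R)
      (0 : Fin N → R)
      ((aeval γ : MvPolynomial (Fin N) R →ₐ[R] MvPolynomial (Fin N) R)^[m] Q)
    have h2 : ev (fun j => C (z j) + C p * X j : Fin N → MvPolynomial (Fin N) R)
        (0 : Fin N → R) = z := by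
      funext j
      simp [ev]
    rw [h2] at h1
    rw [← h1]
    rfl
  rw [e]
  exact key

/-- For a suitable `M ≥ 1` and every `x`, the `j`-th difference at `n` of `Q` along the points
`φ^(M (n + 1)) x` is divisible by `p ^ min n j`. Take `M` from `exists_idem` with `q = p ^ 2`,
`γ = itp φ M` (so `ev γ = φ^M`), `z = φ^M x`. -/
theorem uniform_period {R : Type*} [CommRing R] [IsDomain R] {N : ℕ}
    (φ : Fin N → MvPolynomial (Fin N) R) (p : R) (hp : p ≠ 0)
    [Finite (R ⧸ Ideal.span {p ^ 2})] :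
    ∃ M, 1 ≤ M ∧ ∀ (x : Fin N → R) (Q : MvPolynomial (Fin N) R) (n j : ℕ),
      p ^ (min n j) ∣ (fwdDiff (1 : ℕ))^[j] (fun n => eval (orb φ x (M * (n + 1))) Q) n := by
  obtain ⟨M, hM, h⟩ := exists_idem φ (p ^ 2)
  refine ⟨M, hM, fun x Q n j => ?_⟩
  have hev : ∀ y : Fin N → R, ev (itp φ M) y = orb φ y M := by
    intro y
    funext i
    exact eval_itp φ y M i
  have hγ : ∀ (y : Fin N → R) (i : Fin N),
      p ^ 2 ∣ ev (itp φ M) (ev (itp φ M) y) i - ev (itp φ M) y i := by
    intro y i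
    rw [hev, hev, ← orb_add]
    exact h y i
  have hz : ∀ i, p ^ 2 ∣ ev (itp φ M) (orb φ x M) i - orb φ x M i := by
    intro i
    rw [hev, ← orb_add]
    exact h x i
  have ho : ∀ m : ℕ, orb (itp φ M) (orb φ x M) m = orb φ x (M * (m + 1)) := by
    intro m
    induction m with
    | zero => simp [orb]
    | succ m ih =>
      have h1 : orb (itp φ M) (orb φ x M) (m + 1) =
          ev (itp φ M) (orb (itp φ M) (orb φ x M) m) := by
        unfold orb
        rw [Function.iterate_succ_apply']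
      rw [h1, ih, hev, ← orb_add]
      rfl
  have key := diff_dvd_point (itp φ M) p hp hγ (orb φ x M) hz Q n j
  have e : (fun n : ℕ => eval (orb (itp φ M) (orb φ x M) n) Q) =
      fun n : ℕ => eval (orb φ x (M * (n + 1))) Q := by
    funext m
    rw [ho m]
  rw [e] at key
  exact key

end Pool.Agent.H.MP_31a675_nt
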