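import Pool.Agent.H.MP_31a675_nt.Basic

/-!
# The ring of elements of a number field that are integral at `p`
-/

namespace Pool.Agent.H.MP_31a675_nt

open MvPolynomial NumberField

/-- The elements `x` of `K` such that `s x` is an algebraic integer for some positive integer `s`
coprime to `p`. -/
def Rp (K : Type*) [Field K] (p : ℕ) : Subring K where
  carrier := {x | ∃ s : ℕ, s.Coprime p ∧ IsIntegral ℤ ((s : K) * x)}
  mul_mem' := by
    rintro a b ⟨s, hs, hsa⟩ ⟨t, ht, htb⟩
    refine ⟨s * t, Nat.Coprime.mul_left hs ht, ?_⟩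
    have h := hsa.mul htb
    have e : ((s * t : ℕ) : K) * (a * b) = (s : K) * a * ((t : K) * b) := by
      push_cast; ring
    rw [e]; exact h
  one_mem' := by
    exact ⟨1, Nat.coprime_one_left p, by simpa using (isIntegral_one : IsIntegral ℤ (1 : K))⟩
  add_mem' := by
    rintro a b ⟨s, hs, hsa⟩ ⟨t, ht, htb⟩
    refine ⟨s * t, Nat.Coprime.mul_left hs ht, ?_⟩
    have h1 : IsIntegral ℤ ((t : K)) := by
      simpa using (isIntegral_algebraMap (R := ℤ) (A := K) (x := (t : ℤ)))
    have h2 : IsIntegral ℤ ((s : K)) := by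
      simpa using (isIntegral_algebraMap (R := ℤ) (A := K) (x := (s : ℤ)))
    have h := (h1.mul hsa).add (h2.mul htb)
    have e : ((s * t : ℕ) : K) * (a + b) = (t : K) * ((s : K) * a) + (s : K) * ((t : K) * b) := by
      push_cast; ring
    rw [e]; exact h
  zero_mem' := by
    exact ⟨1, Nat.coprime_one_left p, by simpa using (isIntegral_zero : IsIntegral ℤ (0 : K))⟩
  neg_mem' := by
    rintro a ⟨s, hs, hsa⟩
    refine ⟨s, hs, ?_⟩
    rw [mul_neg]
    exact hsa.neg

theorem mem_Rp {K : Type*} [Field K] {p : ℕ} {x : K} :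
    x ∈ Rp K p ↔ ∃ s : ℕ, s.Coprime p ∧ IsIntegral ℤ ((s : K) * x) := Iff.rfl

private theorem integral_mem {K : Type*} [Field K] {p : ℕ} {x : K} (hx : IsIntegral ℤ x) :
    x ∈ Rp K p :=
  ⟨1, Nat.coprime_one_left p, by simpa using hx⟩

/-- The quotient of `Rp K p` by `p ^ 2` is finite: every class contains an algebraic integer (if `s x`
is integral and `s s' = 1` modulo `p ^ 2`, then `x = s' (s x)` modulo `p ^ 2`), and
`𝓞 K / p ^ 2` is finite. -/
theorem rp_finite (K : Type*) [Field K] [NumberField K] {p : ℕ} (hp : p.Prime) :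
    Finite ((Rp K p) ⧸ Ideal.span {((p : Rp K p)) ^ 2}) := by
  classical
  let f : 𝓞 K →+* Rp K p :=
    { toFun := fun x => ⟨(x : K), integral_mem (RingOfIntegers.isIntegral_coe x)⟩
      map_one' := by ext; simp
      map_mul' := by intro x y; ext; simp
      map_zero' := by ext; simp
      map_add' := by intro x y; ext; simp }
  let I : Ideal (𝓞 K) := Ideal.span {((p : 𝓞 K)) ^ 2}
  let J : Ideal (Rp K p) := Ideal.span {((p : Rp K p)) ^ 2}
  have hI : I ≠ ⊥ := by
    intro h
    have : ((p : 𝓞 K)) ^ 2 = 0 := by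
      have := Ideal.mem_span_singleton_self (((p : 𝓞 K)) ^ 2)
      have h' : ((p : 𝓞 K)) ^ 2 ∈ I := this
      rw [h] at h'
      simpa using h'
    have h2 : (p : 𝓞 K) = 0 := by simpa using this
    have h3 : (p : ℕ) = 0 := by exact_mod_cast h2
    exact hp.ne_zero h3
  have : Finite (𝓞 K ⧸ I) := Ideal.finiteQuotientOfFreeOfNeBot I hI
  have hle : I ≤ J.comap f := by
    rw [Ideal.span_le]
    intro x hx
    rw [Set.mem_singleton_iff] at hx
    subst hx
    rw [SetLike.mem_coe, Ideal.mem_comap]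
    have : f ((p : 𝓞 K) ^ 2) = (p : Rp K p) ^ 2 := by simp
    rw [this]
    exact Ideal.mem_span_singleton_self _
  refine Finite.of_surjective (Ideal.quotientMap J f hle) ?_
  intro y
  obtain ⟨⟨x, s, hs, hsx⟩, rfl⟩ := Ideal.Quotient.mk_surjective y
  obtain ⟨t, ht⟩ : ∃ t : ℤ, ∃ v : ℤ, t * s + v * (p ^ 2 : ℕ) = 1 := by
    have hc : IsCoprime (s : ℤ) ((p ^ 2 : ℕ) : ℤ) := by
      rw [Nat.isCoprime_iff_coprime]
      exact Nat.Coprime.pow_right 2 hs
    obtain ⟨a, b, h⟩ := hc
    exact ⟨a, b, h⟩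
  obtain ⟨v, hv⟩ := ht
  obtain ⟨w, hw⟩ : ∃ w : 𝓞 K, (w : K) = (s : K) * x := ⟨⟨(s : K) * x, hsx⟩, rfl⟩
  let z : 𝓞 K := (t : 𝓞 K) * w
  refine ⟨Ideal.Quotient.mk I z, ?_⟩
  rw [Ideal.quotientMap_mk, Ideal.Quotient.eq]
  rw [Ideal.mem_span_singleton]
  have hxm : x ∈ Rp K p := ⟨s, hs, hsx⟩
  refine ⟨-((v : Rp K p) * ⟨x, hxm⟩), ?_⟩
  apply Subtype.ext
  have hv' : (t : K) * s + v * (p : K) ^ 2 = 1 := by
    have := congrArg (fun n : ℤ => (n : K)) hv
    simpa using this
  have hz : (f z : K) = (t : K) * ((s : K) * x) := by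
    have h1 : (f z : K) = ((z : 𝓞 K) : K) := rfl
    rw [h1, ← hw]
    simp only [z]
    push_cast
    rfl
  push_cast
  rw [hz]
  linear_combination x * hv'

/-- Finitely many elements of `K` lie in `Rp K p` for a suitable prime `p`: each is the quotient of
an algebraic integer by a positive integer; take `p` larger than all these integers. -/
theorem exists_prime (K : Type*) [Field K] [NumberField K] (S : Finset K) :
    ∃ p : ℕ, p.Prime ∧ ∀ a ∈ S, a ∈ Rp K p := by
  have h0 : Algebra.IsAlgebraic ℤ ℚ := IsLocalization.isAlgebraic ℚ (nonZeroDivisors ℤ)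
  have h00 : Algebra.IsAlgebraic ℤ K := Algebra.IsAlgebraic.trans ℤ ℚ K
  obtain ⟨y, hy, h⟩ := Algebra.IsAlgebraic.exists_integral_multiples ℤ S
  obtain ⟨p, hp1, hp2⟩ := Nat.exists_infinite_primes (y.natAbs + 1)
  refine ⟨p, hp2, fun a ha => ⟨y.natAbs, ?_, ?_⟩⟩
  · apply Nat.Coprime.symm
    rw [Nat.Prime.coprime_iff_not_dvd hp2]
    intro hd
    have := Nat.le_of_dvd (Int.natAbs_pos.mpr hy) hd
    omega
  · have h1 := h a ha
    rw [zsmul_eq_mul] at h1
    rcases Int.natAbs_eq y with h2 | h2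
    · have e : ((y.natAbs : ℕ) : K) = (y : K) := by
        conv_rhs => rw [h2]
        simp
      rw [e]; exact h1
    · have e : ((y.natAbs : ℕ) : K) = -(y : K) := by
        conv_rhs => rw [h2]
        simp
      rw [e, neg_mul]; exact h1.neg

/-- A nonzero algebraic integer `β` which is `p ^ m` times an element of `Rp K p` has house at least
`p ^ m`: some `s` coprime to `p` has `s β ∈ p ^ m 𝓞 K`, so `β ∈ p ^ m 𝓞 K` (Bezout), `β = p ^ m γ`
and the house of a nonzero algebraic integer is at least `1` (its norm is a nonzero integer). -/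
theorem house_ge (K : Type*) [Field K] [NumberField K] {p : ℕ} (hp : p.Prime) (m : ℕ) (β : K)
    (hβ : IsIntegral ℤ β) (h0 : β ≠ 0) (h : ∃ r ∈ Rp K p, β = (p : K) ^ m * r) :
    (p : ℝ) ^ m ≤ house β := by
  obtain ⟨r, ⟨s, hs, hsr⟩, rfl⟩ := h
  have hc : IsCoprime (s : ℤ) ((p ^ m : ℕ) : ℤ) := by
    rw [Nat.isCoprime_iff_coprime]
    exact Nat.Coprime.pow_right m hs
  obtain ⟨u, v, huv⟩ := hc
  have huv' : (u : K) * s + v * (p : K) ^ m = 1 := by
    have := congrArg (fun n : ℤ => (n : K)) huv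
    simpa using this
  have hint : ∀ n : ℤ, IsIntegral ℤ (n : K) := fun n => by
    simpa using (isIntegral_algebraMap (R := ℤ) (A := K) (x := n))
  have hr : IsIntegral ℤ r := by
    have e : r = (u : K) * ((s : K) * r) + (v : K) * ((p : K) ^ m * r) := by
      linear_combination (-r) * huv'
    rw [e]
    exact ((hint u).mul hsr).add ((hint v).mul hβ)
  have hr0 : r ≠ 0 := right_ne_zero_of_mul h0
  have h1 := one_le_house_of_isIntegral hr hr0
  have h2 : house ((p : K) ^ m * r) = (p : ℝ) ^ m * house r := by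
    have := house_nat_mul r (p ^ m)
    simpa using this
  rw [h2]
  have : (0 : ℝ) ≤ (p : ℝ) ^ m := by positivity
  nlinarith

end Pool.Agent.H.MP_31a675_nt
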