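import Pool.Agent.H.MP_31a675_nt.Den

/-!
# Siegel's lemma
-/

namespace Pool.Agent.H.MP_31a675_nt

open MvPolynomial NumberField Height

/-- Siegel's lemma over the number field `K`, with a constant depending only on `K`. From
`NumberField.house.exists_ne_zero_int_vec_house_le` with `p` equations and `q ≥ 2 p` unknowns: the
exponent `p / (q - p)` is at most `1`; use `max` to make the base at least `1`. The case of the zero
matrix is trivial. -/
theorem siegel (K : Type*) [Field K] [NumberField K] :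
    ∃ c : ℝ, 1 ≤ c ∧ ∀ (α β : Type) [Fintype α] [Fintype β] (a : Matrix α β (𝓞 K)) (A : ℝ),
      1 ≤ A → 0 < Fintype.card α → 2 * Fintype.card α ≤ Fintype.card β →
      (∀ k l, house ((a k l : 𝓞 K) : K) ≤ A) →
      ∃ ξ : β → 𝓞 K, ξ ≠ 0 ∧ Matrix.mulVec a ξ = 0 ∧
        ∀ l, house ((ξ l : 𝓞 K) : K) ≤ c * (Fintype.card β : ℝ) * A := by
  classical
  obtain ⟨c1, hc1⟩ : ∃ c1 : ℝ, ∀ (α β : Type) [Fintype α] [Fintype β] (a : Matrix α β (𝓞 K)) (A : ℝ),
      a ≠ 0 → 0 < Fintype.card α → Fintype.card α < Fintype.card β →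
      (∀ k l, house ((a k l : 𝓞 K) : K) ≤ A) →
      ∃ ξ : β → 𝓞 K, ξ ≠ 0 ∧ Matrix.mulVec a ξ = 0 ∧
        ∀ l, house ((ξ l : 𝓞 K) : K) ≤ c1 * ((c1 * (Fintype.card β : ℕ) * A) ^
          (((Fintype.card α : ℕ) : ℝ) / ((Fintype.card β : ℕ) - (Fintype.card α : ℕ)))) := by
    apply Exists.intro
    intro α β _ _ a A ha h0 hlt hA
    exact NumberField.house.exists_ne_zero_int_vec_house_le K a ha h0 hlt rfl hA rfl
  obtain ⟨C, hC⟩ : ∃ C : ℝ, C = max 1 |c1| := ⟨_, rfl⟩
  have hC1 : 1 ≤ C := by rw [hC]; exact le_max_left _ _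
  have hCc : |c1| ≤ C := by rw [hC]; exact le_max_right _ _
  refine ⟨C * C, by nlinarith, fun α β _ _ a A hA1 h0 h2 hA => ?_⟩
  have hcard : (1 : ℝ) ≤ (Fintype.card β : ℝ) := by
    have : 1 ≤ Fintype.card β := by omega
    exact_mod_cast this
  have hbig : 1 ≤ C * C * (Fintype.card β : ℝ) * A := by
    have h3 : 1 ≤ C * C := by nlinarith
    have h4 : 1 ≤ C * C * (Fintype.card β : ℝ) := by nlinarith
    nlinarith
  by_cases ha : a = 0
  · refine ⟨fun _ => 1, ?_, ?_, fun l => ?_⟩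
    · intro h
      have hne : Nonempty β := Fintype.card_pos_iff.1 (by omega)
      obtain ⟨l⟩ := hne
      exact one_ne_zero (congrFun h l)
    · rw [ha, Matrix.zero_mulVec]
    · have h3 : house (((1 : 𝓞 K) : 𝓞 K) : K) = 1 := by
        have h4 := house_intCast (K := K) 1
        simpa using h4
      rw [h3]
      exact hbig
  · obtain ⟨ξ, hξ0, hξ, hb⟩ := hc1 α β a A ha h0 (by omega) hA
    refine ⟨ξ, hξ0, hξ, fun l => (hb l).trans ?_⟩
    obtain ⟨p, hp⟩ : ∃ p : ℝ, p = ((Fintype.card α : ℕ) : ℝ) := ⟨_, rfl⟩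
    obtain ⟨q, hq⟩ : ∃ q : ℝ, q = ((Fintype.card β : ℕ) : ℝ) := ⟨_, rfl⟩
    have hp0 : 0 < p := by rw [hp]; exact_mod_cast h0
    have hpq : 2 * p ≤ q := by rw [hp, hq]; exact_mod_cast h2
    rw [← hq] at hcard
    rw [← hp, ← hq]
    have he0 : 0 ≤ p / (q - p) := div_nonneg hp0.le (by linarith)
    have he1 : p / (q - p) ≤ 1 := by
      rw [div_le_one (by linarith)]
      linarith
    have h3 : |c1 * q * A| = |c1| * q * A := by
      rw [abs_mul, abs_mul, abs_of_nonneg (by linarith : (0 : ℝ) ≤ q),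
        abs_of_nonneg (by linarith : (0 : ℝ) ≤ A)]
    have h4 : |(c1 * q * A) ^ (p / (q - p))| ≤ C * q * A := by
      calc |(c1 * q * A) ^ (p / (q - p))| ≤ |c1 * q * A| ^ (p / (q - p)) :=
            Real.abs_rpow_le_abs_rpow _ _
        _ = (|c1| * q * A) ^ (p / (q - p)) := by rw [h3]
        _ ≤ (C * q * A) ^ (p / (q - p)) := by
            apply Real.rpow_le_rpow
            · have := abs_nonneg c1
              positivity
            · have h5 : |c1| * q ≤ C * q := mul_le_mul_of_nonneg_right hCc (by linarith)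
              exact mul_le_mul_of_nonneg_right h5 (by linarith)
            · exact he0
        _ ≤ (C * q * A) ^ (1 : ℝ) := by
            apply Real.rpow_le_rpow_of_exponent_le _ he1
            have h5 : 1 ≤ C * q := by nlinarith
            nlinarith
        _ = C * q * A := Real.rpow_one _
    calc c1 * (c1 * q * A) ^ (p / (q - p)) ≤ |c1 * (c1 * q * A) ^ (p / (q - p))| := le_abs_self _
      _ = |c1| * |(c1 * q * A) ^ (p / (q - p))| := abs_mul _ _
      _ ≤ C * (C * q * A) := mul_le_mul hCc h4 (abs_nonneg _) (by linarith)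
      _ = C * C * q * A := by ring

/-- The auxiliary polynomial vanishing at the points `X n`, `m ≤ n < 2 m`. Apply `siegel` to the
matrix of the monomials at these points, multiplied by powers of common denominators (`exists_den`,
`mon_house`). -/
theorem aux_poly (K : Type*) [Field K] [NumberField K] :
    ∃ c : ℝ, 1 ≤ c ∧ ∀ (N D m : ℕ) (X : ℕ → Fin N → K) (E : ℝ), 1 ≤ E → 1 ≤ m →
      2 * m ≤ (D + 1) ^ N → (∀ n, m ≤ n → n < 2 * m → ∀ i, mulHeight₁ (X n i) ≤ E) →
      ∃ ξ : (Fin N → Fin (D + 1)) → 𝓞 K, ξ ≠ 0 ∧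
        (∀ n, m ≤ n → n < 2 * m → val ξ (X n) = 0) ∧
        ∀ α, house ((ξ α : 𝓞 K) : K) ≤ c * ((D : ℝ) + 1) ^ N * E ^ (N * (N + 1) * D) := by
  obtain ⟨c, hc1, hc⟩ := siegel K
  refine ⟨c, hc1, fun N D m X E hE hm hN hX => ?_⟩
  have hden : ∀ j : Fin m, ∃ q : ℕ, q ≠ 0 ∧ (q : ℝ) ≤ E ^ N ∧
      ∀ i, IsIntegral ℤ ((q : K) * X (m + j) i) := fun j =>
    exists_den (X (m + j)) E (hX (m + j) (Nat.le_add_right _ _) (by have := j.isLt; omega))
  choose q hq0 hqE hqint using hden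
  have hmon := fun (j : Fin m) (α : Fin N → Fin (D + 1)) =>
    mon_house D (X (m + j)) E hE
      (hX (m + j) (Nat.le_add_right _ _) (by have := j.isLt; omega)) (q j) (hqE j) (hqint j) α
  obtain ⟨a, ha⟩ : ∃ a : Matrix (Fin m) (Fin N → Fin (D + 1)) (𝓞 K), ∀ j α,
      ((a j α : 𝓞 K) : K) = (q j : K) ^ (N * D) * ∏ i, X (m + j) i ^ (α i : ℕ) :=
    ⟨fun j α => ⟨_, (hmon j α).1⟩, fun j α => rfl⟩
  have hcard : Fintype.card (Fin N → Fin (D + 1)) = (D + 1) ^ N := by
    rw [Fintype.card_fun, Fintype.card_fin, Fintype.card_fin]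
  obtain ⟨ξ, hξ0, hξ, hb⟩ := hc (Fin m) (Fin N → Fin (D + 1)) a (E ^ (N * (N + 1) * D))
    (one_le_pow₀ hE) (by rw [Fintype.card_fin]; omega)
    (by rw [Fintype.card_fin, hcard]; exact hN)
    (fun j α => by rw [ha]; exact (hmon j α).2)
  refine ⟨ξ, hξ0, fun n hn1 hn2 => ?_, fun α => ?_⟩
  · obtain ⟨j, rfl⟩ : ∃ j : Fin m, n = m + j := ⟨⟨n - m, by omega⟩, by simp; omega⟩
    have h1 := congrFun hξ j
    have h2 : algebraMap (𝓞 K) K (∑ α, a j α * ξ α) = 0 := by
      have h3 : (∑ α, a j α * ξ α : 𝓞 K) = 0 := h1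
      rw [h3, map_zero]
    have h4 : algebraMap (𝓞 K) K (∑ α, a j α * ξ α) =
        (q j : K) ^ (N * D) * val ξ (X (m + j)) := by
      rw [val, Finset.mul_sum, map_sum]
      refine Finset.sum_congr rfl fun α _ => ?_
      rw [map_mul]
      have h5 : algebraMap (𝓞 K) K (a j α) = _ := ha j α
      rw [h5]
      ring
    rw [h4] at h2
    rcases mul_eq_zero.1 h2 with h5 | h5
    · exact absurd h5 (pow_ne_zero _ (by exact_mod_cast hq0 j))
    · exact h5
  · have h1 := hb α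
    rw [hcard] at h1
    push_cast at h1
    exact h1

end Pool.Agent.H.MP_31a675_nt
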