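import Pool.Agent.H.MP_31a675_nt.Extra
import Pool.Agent.H.MP_31a675_nt.Period

/-!
# Slow orbits satisfy a polynomial equation
-/

namespace Pool.Agent.H.MP_31a675_nt

open MvPolynomial NumberField Height

/-- iterated differences commute with additive maps -/
theorem Slow_fwd {A B : Type*} [AddCommGroup A] [AddCommGroup B] (g : A →+ B) (F : ℕ → A)
    (j n : ℕ) : (fwdDiff (1 : ℕ))^[j] (fun n => g (F n)) n = g ((fwdDiff (1 : ℕ))^[j] F n) := by
  induction j generalizing F n with
  | zero => rfl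
  | succ j ih =>
    rw [Function.iterate_succ_apply, Function.iterate_succ_apply]
    have h : fwdDiff (1 : ℕ) (fun n => g (F n)) = fun n => g (fwdDiff (1 : ℕ) F n) := by
      funext m
      simp only [fwdDiff, map_sub]
    rw [h, ih]

/-- A prime `p` and a uniform period for the polynomial map `φ` over the number field `K` and the
point `x`: choose `p` by `exists_prime` such that the coefficients of `φ` and the coordinates of `x`
lie in `R = Rp K p`, lift `φ` and `x` to `R` and apply `uniform_period` (with `rp_finite`) to all the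
points `orb φ x r`. -/
theorem exists_period {K : Type*} [Field K] [NumberField K] {N : ℕ}
    (φ : Fin N → MvPolynomial (Fin N) K) (x : Fin N → K) :
    ∃ p M : ℕ, p.Prime ∧ 1 ≤ M ∧
      ∀ (r D : ℕ) (ξ : (Fin N → Fin (D + 1)) → 𝓞 K) (n j : ℕ), ∃ a ∈ Rp K p,
        (fwdDiff (1 : ℕ))^[j] (fun n => val ξ (orb φ x (r + M * (n + 1)))) n =
          (p : K) ^ (min n j) * a := by
  classical
  let S : Finset K := (Finset.univ.biUnion fun i : Fin N => (φ i).coeffs) ∪ Finset.univ.image x
  obtain ⟨p, hp, hpS⟩ := exists_prime K S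
  have hφ : ∀ i, ∃ g : MvPolynomial (Fin N) (Rp K p),
      MvPolynomial.map (Rp K p).subtype g = φ i := by
    intro i
    have h1 : φ i ∈ Set.range (MvPolynomial.map (σ := Fin N) (Rp K p).subtype) := by
      rw [mem_range_map_iff_coeffs_subset]
      intro a ha
      have h2 : a ∈ S := Finset.mem_union_left _ (Finset.mem_biUnion.2 ⟨i, Finset.mem_univ i, ha⟩)
      exact ⟨⟨a, hpS a h2⟩, rfl⟩
    exact h1
  choose φ' hφ' using hφ
  let x' : Fin N → Rp K p := fun i => ⟨x i, hpS _ (Finset.mem_union_right _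
    (Finset.mem_image_of_mem x (Finset.mem_univ i)))⟩
  have hp0 : ((p : Rp K p)) ≠ 0 := by
    intro h
    have h1 := congrArg (Rp K p).subtype h
    rw [map_natCast, map_zero] at h1
    exact hp.ne_zero (by exact_mod_cast h1)
  have := rp_finite K hp
  obtain ⟨M, hM, h⟩ := uniform_period φ' (p : Rp K p) hp0
  refine ⟨p, M, hp, hM, fun r D ξ n j => ?_⟩
  have hξ : ∀ α, ((ξ α : 𝓞 K) : K) ∈ Rp K p := fun α =>
    mem_Rp.2 ⟨1, Nat.coprime_one_left p, by simpa using (ξ α).isIntegral_coe⟩
  let Q : MvPolynomial (Fin N) (Rp K p) := ∑ α : Fin N → Fin (D + 1),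
    C (⟨((ξ α : 𝓞 K) : K), hξ α⟩ : Rp K p) * ∏ i, X i ^ (α i : ℕ)
  have horb : ∀ m i, orb φ x m i = (Rp K p).subtype (orb φ' x' m i) := by
    intro m i
    rw [map_orb]
    have e1 : (fun j => MvPolynomial.map (Rp K p).subtype (φ' j)) = φ := funext hφ'
    have e2 : (fun j => (Rp K p).subtype (x' j)) = x := rfl
    rw [e1, e2]
  have key : ∀ n, val ξ (orb φ x (r + M * (n + 1))) =
      (Rp K p).subtype.toAddMonoidHom
        (eval (orb φ' (orb φ' x' r) (M * (n + 1))) Q) := by
    intro n
    rw [← orb_add]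
    show val ξ (orb φ x (r + M * (n + 1))) =
      (Rp K p).subtype (eval (orb φ' x' (r + M * (n + 1))) Q)
    simp only [val, Q, map_sum, map_mul, map_prod, map_pow, eval_C, eval_X, horb]
    rfl
  obtain ⟨a, ha⟩ := h (orb φ' x' r) Q n j
  refine ⟨(Rp K p).subtype a, a.2, ?_⟩
  simp only [key]
  rw [Slow_fwd (Rp K p).subtype.toAddMonoidHom
    (fun n => eval (orb φ' (orb φ' x' r) (M * (n + 1))) Q) j n, ha]
  show (Rp K p).subtype ((p : Rp K p) ^ (min n j) * a) = _
  rw [map_mul, map_pow, map_natCast]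

/-- `val ξ` is the evaluation of a nonzero polynomial. -/
theorem exists_poly {K : Type*} [Field K] [NumberField K] {N D : ℕ}
    (ξ : (Fin N → Fin (D + 1)) → 𝓞 K) (hξ : ξ ≠ 0) :
    ∃ P : MvPolynomial (Fin N) K, P ≠ 0 ∧ ∀ x, eval x P = val ξ x := by
  classical
  let s : (Fin N → Fin (D + 1)) → (Fin N →₀ ℕ) := fun α =>
    Finsupp.equivFunOnFinite.symm fun i => (α i : ℕ)
  have hs : Function.Injective s := by
    intro α β h
    funext i
    have := congrArg (fun f : Fin N →₀ ℕ => f i) h
    exact Fin.ext this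
  refine ⟨∑ α, monomial (s α) ((ξ α : 𝓞 K) : K), ?_, fun x => ?_⟩
  · intro h
    apply hξ
    funext α
    have h1 := congrArg (coeff (s α)) h
    rw [coeff_sum, coeff_zero] at h1
    rw [Finset.sum_eq_single α] at h1
    · rw [coeff_monomial, if_pos rfl] at h1
      exact RingOfIntegers.coe_injective (by simpa using h1)
    · intro β _ hβ
      rw [coeff_monomial, if_neg]
      exact fun h2 => hβ (hs h2)
    · intro h2
      exact absurd (Finset.mem_univ α) h2
  · rw [map_sum, val]
    refine Finset.sum_congr rfl fun α _ => ?_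
    rw [eval_monomial, Finsupp.prod_fintype]
    · rfl
    · intro i
      rw [pow_zero]

/-- **Slow orbits are not Zariski dense.** For every residue `r < M` apply `extrapolate` to
`X n = orb φ x (r + M (n + 1))` (heights at most `C (r + M (n + 1) + 1) ^ γ ≤ C' (n + 1) ^ γ`) and get
a polynomial vanishing at these points for large `n`. The product over `r`, times factors
`X 0 - x_n 0` for the finitely many remaining `n`, vanishes on the whole orbit. -/
theorem slow {K : Type*} [Field K] [NumberField K] {N : ℕ} (hN : 2 ≤ N)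
    (φ : Fin N → MvPolynomial (Fin N) K) (x : Fin N → K) {C γ : ℝ} (hC : 0 ≤ C) (hγ : 0 ≤ γ)
    (hγN : γ + 1 / N < 1) (hh : ∀ n i, logHeight₁ (orb φ x n i) ≤ C * ((n : ℝ) + 1) ^ γ) :
    ∃ P : MvPolynomial (Fin N) K, P ≠ 0 ∧ ∀ n, eval (orb φ x n) P = 0 := by
  classical
  obtain ⟨p, M, hp, hM, hper⟩ := exists_period φ x
  have hr : ∀ r : ℕ, ∃ (P : MvPolynomial (Fin N) K) (m : ℕ), P ≠ 0 ∧
      ∀ n, m ≤ n → eval (orb φ x (r + M * (n + 1))) P = 0 := by
    intro r
    have hC' : 0 ≤ C * ((r : ℝ) + M + 1) ^ γ := mul_nonneg hC (Real.rpow_nonneg (by positivity) _)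
    have hX : ∀ (n : ℕ) (i : Fin N), logHeight₁ (orb φ x (r + M * (n + 1)) i) ≤
        (C * ((r : ℝ) + M + 1) ^ γ) * ((n : ℝ) + 1) ^ γ := by
      intro n i
      refine (hh (r + M * (n + 1)) i).trans ?_
      rw [mul_assoc, ← Real.mul_rpow (by positivity) (by positivity)]
      refine mul_le_mul_of_nonneg_left ?_ hC
      refine Real.rpow_le_rpow (by positivity) ?_ hγ
      push_cast
      have h1 : (0 : ℝ) ≤ (r : ℝ) * n := by positivity
      have h2 : (0 : ℝ) ≤ n := by positivity
      nlinarith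
    obtain ⟨D, ξ, m, hξ, hm⟩ := extrapolate hp hN (fun n => orb φ x (r + M * (n + 1)))
      (fun D ξ n j => hper r D ξ n j) hC' hγ hγN hX
    obtain ⟨P, hP, hPe⟩ := exists_poly ξ hξ
    exact ⟨P, m, hP, fun n hn => by rw [hPe]; exact hm n hn⟩
  choose P m hP hPm using hr
  let i₀ : Fin N := ⟨0, by omega⟩
  let m₀ := (Finset.range M).sup m
  let n₀ := M * (m₀ + 1)
  have hlin : ∀ a : K, (X i₀ - MvPolynomial.C a : MvPolynomial (Fin N) K) ≠ 0 := by
    intro a h
    have h1 := congrArg (eval fun _ => a + 1) h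
    rw [map_sub, eval_X, eval_C, map_zero] at h1
    simp at h1
  refine ⟨(∏ r ∈ Finset.range M, P r) *
    ∏ n ∈ Finset.range n₀, (X i₀ - MvPolynomial.C (orb φ x n i₀)), ?_, fun n => ?_⟩
  · exact mul_ne_zero (Finset.prod_ne_zero_iff.2 fun r _ => hP r)
      (Finset.prod_ne_zero_iff.2 fun n _ => hlin _)
  · rw [map_mul, map_prod, map_prod]
    by_cases hn : n < n₀
    · refine mul_eq_zero_of_right _ (Finset.prod_eq_zero (Finset.mem_range.2 hn) ?_)
      rw [map_sub, eval_X, eval_C, sub_self]
    · refine mul_eq_zero_of_left (Finset.prod_eq_zero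
        (Finset.mem_range.2 (Nat.mod_lt n (by omega))) ?_) _
      have h1 : m₀ + 1 ≤ n / M := by
        rw [Nat.le_div_iff_mul_le (by omega), mul_comm]
        exact not_lt.1 hn
      have h2 : n = n % M + M * ((n / M - 1) + 1) := by
        rw [Nat.sub_add_cancel (by omega)]
        exact (Nat.mod_add_div n M).symm
      have h3 : m (n % M) ≤ m₀ :=
        Finset.le_sup (f := m) (Finset.mem_range.2 (Nat.mod_lt n (by omega)))
      have h4 := hPm (n % M) (n / M - 1) (by omega)
      rw [← h2] at h4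
      exact h4

end Pool.Agent.H.MP_31a675_nt
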