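import Pool.Agent.H.MP_31a675_nt.Basic

/-!
# Taylor expansion modulo `p ^ 2`
-/

namespace Pool.Agent.H.MP_31a675_nt

open MvPolynomial

/-- Taylor expansion of a polynomial at `z` in the direction `p w`, with `w` the variables. Induction
on `Q` (`MvPolynomial.induction_on`): the set of polynomials with such an expansion contains the
constants and the variables and is closed under sums and products (`Derivation.leibniz`). -/
theorem taylor {R : Type*} [CommRing R] {N : ℕ} (Q : MvPolynomial (Fin N) R) (z : Fin N → R)
    (p : R) :
    ∃ T : MvPolynomial (Fin N) R,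
      aeval (fun j => C (z j) + C p * X j) Q =
        C (eval z Q) + C p * ∑ j, C (eval z (pderiv j Q)) * X j + C (p ^ 2) * T := by
  classical
  induction Q using MvPolynomial.induction_on with
  | C a =>
    refine ⟨0, ?_⟩
    simp
  | add P Q hP hQ =>
    obtain ⟨T, hT⟩ := hP
    obtain ⟨U, hU⟩ := hQ
    refine ⟨T + U, ?_⟩
    simp only [map_add, hT, hU, add_mul, Finset.sum_add_distrib]
    ring
  | mul_X P i hP =>
    obtain ⟨T, hT⟩ := hP
    obtain ⟨S, hS⟩ : ∃ S : MvPolynomial (Fin N) R,
      S = ∑ j, C (eval z (pderiv j P)) * X j := ⟨_, rfl⟩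
    rw [← hS] at hT
    have hsum : ∑ j, C (eval z (pderiv j (P * X i))) * X j = C (z i) * S + C (eval z P) * X i := by
      have h1 : ∀ j, C (eval z (pderiv j (P * X i))) * X j =
          C (z i) * (C (eval z (pderiv j P)) * X j) +
            (if j = i then C (eval z P) * X j else 0 : MvPolynomial (Fin N) R) := by
        intro j
        rw [Derivation.leibniz, pderiv_X]
        by_cases h : j = i
        · subst h
          simp only [Pi.single_eq_same, smul_eq_mul, mul_one, map_add, map_mul, eval_X, if_true]
          ring
        · rw [Pi.single_eq_of_ne (Ne.symm h)]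
          simp only [smul_eq_mul, mul_zero, zero_add, map_mul, eval_X, if_neg h, add_zero]
          ring
      simp only [h1, Finset.sum_add_distrib, ← Finset.mul_sum, Finset.sum_ite_eq',
        Finset.mem_univ, if_true, hS]
    refine ⟨S * X i + T * (C (z i) + C p * X i), ?_⟩
    rw [map_mul, hT, aeval_X, hsum, map_mul, eval_X, map_mul, map_pow]
    ring

/-- The Taylor expansion at a point: evaluate `taylor` at `w`. -/
theorem taylor_point {R : Type*} [CommRing R] {N : ℕ} (Q : MvPolynomial (Fin N) R)
    (z w : Fin N → R) (p : R) :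
    ∃ r : R, eval (fun j => z j + p * w j) Q =
      eval z Q + p * ∑ j, eval z (pderiv j Q) * w j + p ^ 2 * r := by
  obtain ⟨T, hT⟩ := taylor Q z p
  refine ⟨eval w T, ?_⟩
  have h := congrArg (eval w) hT
  simp only [map_add, map_mul, eval_C, map_sum, eval_X, map_pow] at h
  rw [← h]
  have h2 : eval w (aeval (fun j => C (z j) + C p * X j) Q) =
      eval (fun j => z j + p * w j) Q := by
    rw [← coe_aeval_eq_eval, ← coe_aeval_eq_eval]
    have h3 : (aeval w).comp (aeval (fun j => C (z j) + C p * X j)) =
        (aeval (fun j => z j + p * w j) : MvPolynomial (Fin N) R →ₐ[R] R) := by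
      apply MvPolynomial.algHom_ext
      intro i
      simp
    exact congrArg (fun f : MvPolynomial (Fin N) R →ₐ[R] R => f Q) h3
  exact h2.symm

/-- Polynomials preserve congruences. -/
theorem eval_congr {R : Type*} [CommRing R] {N : ℕ} (Q : MvPolynomial (Fin N) R)
    (x y : Fin N → R) (q : R) (h : ∀ j, q ∣ x j - y j) : q ∣ eval x Q - eval y Q := by
  induction Q using MvPolynomial.induction_on with
  | C a => simp
  | add P Q hP hQ =>
    rw [map_add, map_add, add_sub_add_comm]
    exact dvd_add hP hQ
  | mul_X P i hP =>
    rw [map_mul, map_mul, eval_X, eval_X]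
    have e : eval x P * x i - eval y P * y i =
        (eval x P - eval y P) * x i + eval y P * (x i - y i) := by ring
    rw [e]
    exact dvd_add (hP.mul_right _) ((h i).mul_left _)

end Pool.Agent.H.MP_31a675_nt
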