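import Pool.Agent.H.MP_31a675_nt.Alpha
import Pool.Agent.H.MP_31a675_nt.DegLim

/-!
# The theorems
-/

namespace Pool.Agent.H.MP_31a675_nt

open MvPolynomial Filter Topology Height

/-- **Height gap.** A Zariski dense orbit of a polynomial map of `A^N`, `N ≥ 2`, over a number field
does not have heights at most `C (n + 1) ^ γ` with `γ < 1 - 1 / N`. -/
theorem gap {K : Type*} [Field K] [NumberField K] {N : ℕ} (hN : 2 ≤ N)
    (φ : Fin N → MvPolynomial (Fin N) K) (x : Fin N → K) (hx : DenseOrbit φ x) (C γ : ℝ)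
    (hC : 0 ≤ C) (hγ : 0 ≤ γ) (hγN : γ < 1 - 1 / N) :
    ∃ᶠ n : ℕ in atTop, C * (n : ℝ) ^ γ < ht (orb φ x n) := by
  by_contra hcon
  rw [not_frequently] at hcon
  obtain ⟨n₀, hn₀⟩ := eventually_atTop.1 hcon
  -- the sum of the heights of the finitely many first points
  set S : ℝ := ∑ n ∈ Finset.range n₀, ht (orb φ x n) with hS
  have hS0 : 0 ≤ S := Finset.sum_nonneg fun n _ => ht_nonneg _
  have hC' : 0 ≤ C + S := by linarith
  have hN0 : (0 : ℝ) < N := by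
    have : 0 < N := by omega
    exact_mod_cast this
  have hh : ∀ n i, logHeight₁ (orb φ x n i) ≤ (C + S) * ((n : ℝ) + 1) ^ γ := by
    intro n i
    have h1 : logHeight₁ (orb φ x n i) ≤ ht (orb φ x n) := coord_le_ht _ i
    have hn0 : (0 : ℝ) ≤ n := Nat.cast_nonneg n
    have h2 : (1 : ℝ) ≤ ((n : ℝ) + 1) ^ γ := Real.one_le_rpow (by linarith) hγ
    refine h1.trans ?_
    rcases lt_or_ge n n₀ with hn | hn
    · have h3 : ht (orb φ x n) ≤ S :=
        Finset.single_le_sum (f := fun n => ht (orb φ x n)) (fun m _ => ht_nonneg _)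
          (Finset.mem_range.2 hn)
      have h4 : (C + S) * 1 ≤ (C + S) * ((n : ℝ) + 1) ^ γ := mul_le_mul_of_nonneg_left h2 hC'
      linarith
    · have h3 : ht (orb φ x n) ≤ C * (n : ℝ) ^ γ := not_lt.1 (hn₀ n hn)
      have h4 : (n : ℝ) ^ γ ≤ ((n : ℝ) + 1) ^ γ :=
        Real.rpow_le_rpow hn0 (by linarith) hγ
      have h5 : C * (n : ℝ) ^ γ ≤ C * ((n : ℝ) + 1) ^ γ := mul_le_mul_of_nonneg_left h4 hC
      have h6 : 0 ≤ S * ((n : ℝ) + 1) ^ γ := mul_nonneg hS0 (by linarith)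
      have h7 : (C + S) * ((n : ℝ) + 1) ^ γ =
          C * ((n : ℝ) + 1) ^ γ + S * ((n : ℝ) + 1) ^ γ := by ring
      linarith
  obtain ⟨Q, hQ0, hQ⟩ := slow hN φ x hC' hγ (by linarith) hh
  exact hQ0 (hx Q hQ)

/-- **The Kawaguchi–Silverman equality** for the skew products over the translation `t ↦ t + 1`. -/
theorem ksc {K : Type*} [Field K] [NumberField K] {k : ℕ} (hk : 1 ≤ k)
    (F : Fin k → MvPolynomial (Fin (k + 1)) K) (d : ℕ) (hd : 2 ≤ d)
    (hF : Polar F d ∨ Regular F d) (x : Fin (k + 1) → K) (hx : DenseOrbit (skew F) x) :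
    Tendsto (fun n : ℕ => (max (ht (orb (skew F) x n)) 1) ^ ((1 : ℝ) / n)) atTop (𝓝 (d : ℝ)) ∧
      Tendsto (fun n : ℕ => (degIt (skew F) n : ℝ) ^ ((1 : ℝ) / n)) atTop (𝓝 (d : ℝ)) :=
  ⟨alpha F d hd hk hF x hx, degIt_lim F d hd hk hF⟩

end Pool.Agent.H.MP_31a675_nt
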