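import Pool.Agent.H.MP_31a675_nt.Null

/-!
# The element `t` is transcendental; common zeros at `t + n`
-/

namespace Pool.Agent.H.MP_31a675_nt

open MvPolynomial

variable {K : Type*} [Field K] {k : ℕ}

/-- The element `t + n` is not a zero of a nonzero polynomial over `K`: `RatFunc.X` is transcendental
over `K` (`RatFunc.transcendental_X` or `RatFunc.algebraMap_injective`), `algebraMap` into the
algebraic closure is injective; replace `c` by `c (X + n)`. -/
theorem aeval_tau_ne (c : Polynomial K) (hc : c ≠ 0) (n : ℕ) :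
    Polynomial.aeval (tau K + (n : Om K)) c ≠ 0 := by
  have e1 : tau K + (n : Om K) = algebraMap (RatFunc K) (Om K) (RatFunc.X + (n : RatFunc K)) := by
    rw [map_add, map_natCast]; rfl
  have e2 : (RatFunc.X + (n : RatFunc K)) =
      algebraMap (Polynomial K) (RatFunc K) (Polynomial.X + Polynomial.C (n : K)) := by
    rw [map_add, RatFunc.algebraMap_X, Polynomial.C_eq_natCast, map_natCast]
  rw [e1, Polynomial.aeval_algebraMap_apply, e2, Polynomial.aeval_algebraMap_apply]
  have h1 : Polynomial.aeval (Polynomial.X + Polynomial.C (n : K)) c =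
      c.comp (Polynomial.X + Polynomial.C (n : K)) := by
    rw [Polynomial.comp, Polynomial.aeval_def]
    rfl
  rw [h1]
  intro h
  rw [map_eq_zero_iff _ (algebraMap (RatFunc K) (Om K)).injective,
    map_eq_zero_iff _ (RatFunc.algebraMap_injective K)] at h
  exact hc ((Polynomial.comp_X_add_C_eq_zero_iff).1 h)

/-- The condition `NoZero` holds at all the points `t + n`: evaluate the identity of `null_poly`
(with `M₀ = 1`) at `(τ + n, η)`. -/
theorem noZero_shift {ι : Type} [Fintype ι] (S : ι → MvPolynomial (Fin (k + 1)) K) (hS : NoZero S)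
    (n : ℕ) (η : Fin k → Om K)
    (h : ∀ i, aeval (Fin.cons (tau K + (n : Om K)) η : Fin (k + 1) → Om K) (S i) = 0) : η = 0 := by
  obtain ⟨c, M, A, hc, hM, hid⟩ := null_poly S hS 1
  funext j
  have h1 := congrArg (aeval (Fin.cons (tau K + (n : Om K)) η : Fin (k + 1) → Om K)) (hid j)
  rw [map_mul, map_pow, map_sum, aeval_X, ← Polynomial.aeval_algHom_apply, aeval_X,
    Fin.cons_zero, Fin.cons_succ] at h1
  have h2 : ∑ i, (aeval (Fin.cons (tau K + (n : Om K)) η : Fin (k + 1) → Om K)) (A j i * S i) = 0 := by
    apply Finset.sum_eq_zero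
    intro i _
    rw [map_mul, h i, mul_zero]
  rw [h2] at h1
  rcases mul_eq_zero.1 h1 with h3 | h3
  · exact absurd h3 (aeval_tau_ne c hc n)
  · exact pow_eq_zero_iff (by omega) |>.1 h3

/-- A nonzero polynomial in `(t, y)` has a point `y` over `Om K` with nonzero value: as a polynomial
in `y` over `K[t]` it is nonzero, `K[t] → Om K` is injective, and `Om K` is an infinite field
(`MvPolynomial.funext`, `MvPolynomial.finSuccEquiv`). -/
theorem exists_value_ne (P : MvPolynomial (Fin (k + 1)) K) (hP : P ≠ 0) :
    ∃ η : Fin k → Om K, aeval (Fin.cons (tau K) η : Fin (k + 1) → Om K) P ≠ 0 := by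
  set e : MvPolynomial (Fin (k + 1)) K ≃ₐ[K] MvPolynomial (Fin k) (Polynomial K) :=
    (renameEquiv K (finSuccEquiv k)).trans (optionEquivRight K (Fin k)) with he
  set g : MvPolynomial (Fin k) (Polynomial K) →ₐ[K] MvPolynomial (Fin k) (Om K) :=
    mapAlgHom (Polynomial.aeval (tau K)) with hg
  have hinj0 : Function.Injective (Polynomial.aeval (R := K) (tau K)) := by
    rw [injective_iff_map_eq_zero]
    intro c hc
    by_contra hne
    apply aeval_tau_ne c hne 0
    simpa using hc
  have hinj : Function.Injective g := by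
    have := MvPolynomial.map_injective (σ := Fin k)
      ((Polynomial.aeval (R := K) (tau K)).toRingHom) hinj0
    exact this
  have hcomp : ∀ η : Fin k → Om K, ∀ Q : MvPolynomial (Fin (k + 1)) K,
      aeval (Fin.cons (tau K) η : Fin (k + 1) → Om K) Q = eval η (g (e Q)) := by
    intro η Q
    have h1 : (aeval (Fin.cons (tau K) η : Fin (k + 1) → Om K) :
        MvPolynomial (Fin (k + 1)) K →ₐ[K] Om K) =
        ((((aeval η : MvPolynomial (Fin k) (Om K) →ₐ[Om K] Om K).restrictScalars K).comp g).comp
          (e : MvPolynomial (Fin (k + 1)) K →ₐ[K] MvPolynomial (Fin k) (Polynomial K))) := by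
      apply MvPolynomial.algHom_ext
      intro i
      refine Fin.cases ?_ (fun j => ?_) i
      · simp [he, hg]
      · simp [he, hg]
    have h2 := DFunLike.congr_fun h1 Q
    rw [h2]
    rfl
  have hne : g (e P) ≠ 0 := by
    intro h
    apply hP
    apply e.injective
    rw [map_zero]
    apply hinj
    rw [h, map_zero]
  by_contra hcon
  push Not at hcon
  apply hne
  have : Infinite (Om K) := inferInstance
  apply MvPolynomial.funext
  intro η
  rw [← hcomp η P, hcon η, map_zero]

end Pool.Agent.H.MP_31a675_nt
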