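import Pool.Agent.H.MP_31a675_nt.Dich
import Pool.Agent.H.MP_31a675_nt.Orbit

/-!
# Height inequalities along the orbit
-/

namespace Pool.Agent.H.MP_31a675_nt

open MvPolynomial NumberField Height

variable {K : Type*} [Field K] {k : ℕ}

private lemma Upper_log (n : ℕ) : Real.log 2 ≤ Real.log ((n : ℝ) + 2) :=
  Real.log_le_log two_pos (by have := n.cast_nonneg (α := ℝ); linarith)

private lemma Upper_const {A : ℝ} (hA : 0 ≤ A) (n : ℕ) :
    A ≤ A / Real.log 2 * Real.log ((n : ℝ) + 2) := by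
  have h2 : 0 < Real.log 2 := Real.log_pos one_lt_two
  have h3 := mul_le_mul_of_nonneg_left (Upper_log n) (div_nonneg hA h2.le)
  rwa [div_mul_cancel₀ _ h2.ne'] at h3

/-- One step of the orbit multiplies the height by at most `d`, up to `C log n`: `poly_bound_family`,
`glob` and `ht_add_nat`. -/
theorem upper [NumberField K] (F : Fin k → MvPolynomial (Fin (k + 1)) K) (d : ℕ)
    (hF : ∀ i, YLe d (F i)) (x : Fin (k + 1) → K) :
    ∃ C : ℝ, 0 ≤ C ∧ ∀ n : ℕ,
      ht (yo F x (n + 1)) ≤ d * ht (yo F x n) + C * Real.log ((n : ℝ) + 2) := by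
  obtain ⟨r, a, κ, E, hκ, hb⟩ := poly_bound_family F (fun _ => d) hF
  obtain ⟨C₁, hC₁, hC₁'⟩ := ht_add_nat (x 0)
  have h2 : 0 < Real.log 2 := Real.log_pos one_lt_two
  have hA : 0 ≤ (totalWeight K : ℝ) * Real.log κ + ht a :=
    add_nonneg (mul_nonneg (Nat.cast_nonneg _) (Real.log_nonneg hκ)) (ht_nonneg a)
  refine ⟨((totalWeight K : ℝ) * Real.log κ + ht a) / Real.log 2 + E * C₁,
    add_nonneg (div_nonneg hA h2.le) (mul_nonneg (Nat.cast_nonneg _) hC₁), fun n => ?_⟩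
  have h := glob (yo F x (n + 1)) a (one (x 0 + n)) (yo F x n) a a 1 1 E d 0 0 1 κ hκ (by
    intro v κ' hv
    have h1 : 1 ≤ nrm v a * nrm v (one (x 0 + n)) ^ E * nrm v (yo F x n) ^ d :=
      one_le_mul_of_one_le_of_one_le (one_le_mul_of_one_le_of_one_le (one_le_nrm v a)
        (one_le_pow₀ (one_le_nrm v _))) (one_le_pow₀ (one_le_nrm v _))
    simp only [pow_one, pow_zero, mul_one]
    refine nrm_le v _ _ (one_le_mul_of_one_le_of_one_le hv.1 h1) fun i => ?_
    rw [yo_succ]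
    exact hb v κ' hv i (x 0 + n) (yo F x n))
  have h3 := mul_le_mul_of_nonneg_left (hC₁' n) (Nat.cast_nonneg (α := ℝ) E)
  have h4 := Upper_const hA n
  push_cast at h
  have h5 : (((totalWeight K : ℝ) * Real.log κ + ht a) / Real.log 2 + E * C₁) *
      Real.log ((n : ℝ) + 2) =
      ((totalWeight K : ℝ) * Real.log κ + ht a) / Real.log 2 * Real.log ((n : ℝ) + 2) +
        E * (C₁ * Real.log ((n : ℝ) + 2)) := by ring
  rw [h5]
  linarith

/-- The polarised case: one step multiplies the height by at least `d`, up to `C log n`. By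
`loc_dich` for `F` (all degrees `d`), at every place `Y_n ^ d ≤ W ^ d Y_(n+1)`, with `W` the constant
of `loc_dich` (if `Y_n ≤ W` because `Y_(n+1) ≥ 1`). Then `glob`, `ht_inv_poly`, `ht_add_nat`. -/
theorem polar_lower [NumberField K] (F : Fin k → MvPolynomial (Fin (k + 1)) K) (d : ℕ) (hd : 2 ≤ d)
    (hF : Polar F d) (x : Fin (k + 1) → K) :
    ∃ (C : ℝ) (n₀ : ℕ), 0 ≤ C ∧ ∀ n : ℕ, n₀ ≤ n →
      d * ht (yo F x n) ≤ ht (yo F x (n + 1)) + C * Real.log ((n : ℝ) + 2) := by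
  obtain ⟨c, r, a, κ, E, hc, hκ, hb⟩ := loc_dich F (fun _ => d) (fun _ => by omega) hF.le hF.nz
  obtain ⟨C₁, hC₁, hC₁'⟩ := ht_add_nat (x 0)
  obtain ⟨C₂, E₂, hC₂, hC₂'⟩ := ht_inv_poly c
  obtain ⟨n₀, hn₀⟩ := eventually_ne c hc (x 0)
  have h2 : 0 < Real.log 2 := Real.log_pos one_lt_two
  have hA : 0 ≤ (2 * d : ℝ) * totalWeight K * Real.log κ + d * ht a + d * C₂ :=
    add_nonneg (add_nonneg (mul_nonneg (mul_nonneg (by positivity) (Nat.cast_nonneg _))
      (Real.log_nonneg hκ)) (mul_nonneg (Nat.cast_nonneg _) (ht_nonneg a)))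
      (mul_nonneg (Nat.cast_nonneg _) hC₂)
  refine ⟨((2 * d : ℝ) * totalWeight K * Real.log κ + d * ht a + d * C₂) / Real.log 2 +
    (E * d + d * E₂) * C₁, n₀, add_nonneg (div_nonneg hA h2.le)
      (mul_nonneg (by positivity) hC₁), fun n hn => ?_⟩
  have h := glob (yo F x n) a (one (x 0 + n)) (one (c.eval (x 0 + n))⁻¹) (yo F x (n + 1)) a
    d d (E * d) d 1 0 (2 * d) κ hκ (by
    intro v κ' hv
    set W : ℝ := κ' ^ 2 * (nrm v a * nrm v (one (x 0 + n)) ^ E *
      nrm v (one (c.eval (x 0 + n))⁻¹)) with hW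
    have hW1 : 1 ≤ W :=
      one_le_mul_of_one_le_of_one_le (one_le_pow₀ hv.1) (one_le_mul_of_one_le_of_one_le
        (one_le_mul_of_one_le_of_one_le (one_le_nrm v a) (one_le_pow₀ (one_le_nrm v _)))
        (one_le_nrm v _))
    have hW0 : 0 ≤ W := zero_le_one.trans hW1
    have hy1 := one_le_nrm v (yo F x (n + 1))
    have key : nrm v (yo F x n) ^ d ≤ W ^ d * nrm v (yo F x (n + 1)) := by
      rcases hb v κ' hv (x 0 + n) (yo F x n) (hn₀ n hn) with h3 | ⟨i, h3⟩
      · calc nrm v (yo F x n) ^ d ≤ W ^ d :=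
              pow_le_pow_left₀ (zero_le_one.trans (one_le_nrm v _)) h3 d
          _ = W ^ d * 1 := (mul_one _).symm
          _ ≤ W ^ d * nrm v (yo F x (n + 1)) :=
              mul_le_mul_of_nonneg_left hy1 (pow_nonneg hW0 d)
      · rw [← yo_succ] at h3
        have h4 : v (yo F x (n + 1) i) ≤ nrm v (yo F x (n + 1)) := le_nrm v _ i
        calc nrm v (yo F x n) ^ d ≤ W * v (yo F x (n + 1) i) := h3
          _ ≤ W * nrm v (yo F x (n + 1)) := mul_le_mul_of_nonneg_left h4 hW0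
          _ ≤ W ^ d * nrm v (yo F x (n + 1)) := by
              refine mul_le_mul_of_nonneg_right ?_ (zero_le_one.trans hy1)
              exact le_self_pow₀ hW1 (by omega)
    refine key.trans (le_of_eq ?_)
    rw [hW]
    ring)
  have h3 := hC₁' n
  have h4 := Upper_const hA n
  have h6 := mul_le_mul_of_nonneg_left (hC₂' (x 0 + n)) (Nat.cast_nonneg (α := ℝ) d)
  have h7 := mul_le_mul_of_nonneg_left h3 (show (0 : ℝ) ≤ E * d + d * E₂ by positivity)
  push_cast at h
  have h5 : (((2 * d : ℝ) * totalWeight K * Real.log κ + d * ht a + d * C₂) / Real.log 2 +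
    (E * d + d * E₂) * C₁) * Real.log ((n : ℝ) + 2) =
      ((2 * d : ℝ) * totalWeight K * Real.log κ + d * ht a + d * C₂) / Real.log 2 *
        Real.log ((n : ℝ) + 2) + (E * d + d * E₂) * (C₁ * Real.log ((n : ℝ) + 2)) := by ring
  rw [h5]
  have h8 : ((E : ℝ) * d + d * E₂) * ht (one (x 0 + n)) = E * d * ht (one (x 0 + n)) +
    d * (E₂ * ht (one (x 0 + n))) := by ring
  have h9 : (d : ℝ) * (C₂ + E₂ * ht (one (x 0 + n))) = d * C₂ + d * (E₂ * ht (one (x 0 + n))) := by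
    ring
  rw [h8] at h7
  rw [h9] at h6
  linarith

end Pool.Agent.H.MP_31a675_nt
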